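import Mathlib
import Pool.Agent.Helper35.PI.Defs

/-!
# Mean curvature flow of surfaces in the unit sphere (problem MP_925021_gt): definitions

`EE N` is Euclidean space; `loc F p t` is the immersion `F(·,t)` read in the preferred chart at `p`;
`gram`, `sff` are the induced metric `g_ij` and the second fundamental form `A_ij` of an immersion
into `EE N` (`Pool/Agent/Helper35/PI/Defs.lean`).  An immersion `f` into the unit sphere has the second
fundamental form `h_ij = A_ij + g_ij f` in the sphere.
-/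

set_option autoImplicit false

namespace Helper35.MS

open Helper35.PI
open scoped ContDiff Manifold Topology
open Set Filter

section Def

variable {n N : ℕ}

/-- the second fundamental form `h_ij = A_ij + g_ij f` in the unit sphere -/
noncomputable def sfs (f : EE n → EE N) (x : EE n) (i j : Fin n) : EE N :=
  sff f x i j + gram f x i j • f x

variable {M : Type} [TopologicalSpace M] [ChartedSpace (EE n) M]

/-- the induced metric `g_ij` at `q`, in the preferred chart at `q` -/
noncomputable def gM (F : M → ℝ → EE N) (q : M) (t : ℝ) : Matrix (Fin n) (Fin n) ℝ :=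
  gram (loc (n := n) F q t) (chartAt (EE n) q q)

/-- the second fundamental form `h_ij` in the unit sphere at `q`, in the preferred chart at `q` -/
noncomputable def hM (F : M → ℝ → EE N) (q : M) (t : ℝ) (i j : Fin n) : EE N :=
  sfs (loc (n := n) F q t) (chartAt (EE n) q q) i j

/-- the mean curvature vector `H = g^ij h_ij` in the unit sphere -/
noncomputable def HS (F : M → ℝ → EE N) (q : M) (t : ℝ) : EE N :=
  ∑ i, ∑ j, (gM (n := n) F q t)⁻¹ i j • hM (n := n) F q t i j

/-- `|h|² = g^ik g^jl ⟨h_ij, h_kl⟩` -/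
noncomputable def hS2 (F : M → ℝ → EE N) (q : M) (t : ℝ) : ℝ :=
  ∑ i, ∑ j, ∑ k, ∑ l, (gM (n := n) F q t)⁻¹ i k * (gM (n := n) F q t)⁻¹ j l *
    inner ℝ (hM (n := n) F q t i j) (hM (n := n) F q t k l)

/-- Mean curvature flow in the unit sphere on the time interval `I`: `F` is smooth on `M × I`,
every `F(·,t)` is an immersion into the unit sphere, and `∂_t F = H` (one sided at the end points
of `I` in `I`). -/
structure SMCF (n : ℕ) {N : ℕ} {M : Type} [TopologicalSpace M] [ChartedSpace (EE n) M]
    (I : Set ℝ) (F : M → ℝ → EE N) : Prop where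
  smooth : ContMDiffOn ((𝓡 n).prod 𝓘(ℝ, ℝ)) 𝓘(ℝ, EE N) ∞
    (fun z : M × ℝ => F z.1 z.2) (univ ×ˢ I)
  imm : ∀ (p : M), ∀ t ∈ I,
    LinearIndependent ℝ (fun i : Fin n => dv1 (loc (n := n) F p t) (chartAt (EE n) p p) i)
  sph : ∀ (p : M), ∀ t ∈ I, ‖F p t‖ = 1
  flow : ∀ (p : M), ∀ t ∈ I, HasDerivWithinAt (fun τ => F p τ) (HS (n := n) F p t) I t

/-- `|h(u,u)|² < 1/3` for all unit tangent vectors `u` of `M_t` -/
def Pinch3 (n : ℕ) {N : ℕ} {M : Type} [TopologicalSpace M] [ChartedSpace (EE n) M]
    (F : M → ℝ → EE N) (t : ℝ) : Prop :=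
  ∀ (q : M) (u : Fin n → ℝ), ∑ i, ∑ j, gM (n := n) F q t i j * (u i * u j) = 1 →
    ‖∑ i, ∑ j, (u i * u j) • hM (n := n) F q t i j‖ ^ 2 < 1 / 3

end Def

end Helper35.MS
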