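import Mathlib
import Pool.Agent.Helper35.CL.StA
import Pool.Agent.Helper32.CL.St3

/-!
# Project MS (MP_925021_gt): surfaces in spheres, the sharp pinching constant `1/3`, definitions

Everything of the projects PI, PI2, CL (`Pool/Agent/Helper35/PI`, `PI2`, `CL`,
`Pool/Agent/Helper32/CL`) is proved and may be used.  Here the flows live on an arbitrary open
set `J` of times (in PI, PI2, CL: `J = (-∞,0)`).
-/

set_option autoImplicit false

namespace Helper35.MS

open Helper35.PI Helper35.PI2 Helper32.CL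
open scoped ContDiff Manifold Topology ENNReal BigOperators
open MeasureTheory Set Filter

section Flow

variable {n N : ℕ} {M : Type} [TopologicalSpace M] [ChartedSpace (EE n) M]

/-- A smooth family of immersions `F(·,t)`, `t ∈ J`, `J` open. -/
structure IsImmJ (J : Set ℝ) (F : M → ℝ → EE N) : Prop where
  op : IsOpen J
  smooth : ContMDiffOn ((𝓡 n).prod 𝓘(ℝ, ℝ)) 𝓘(ℝ, EE N) ∞
    (fun z : M × ℝ => F z.1 z.2) (univ ×ˢ J)
  imm : ∀ (p : M) (t : ℝ), t ∈ J →
    LinearIndependent ℝ (fun i : Fin n => dv1 (loc (n := n) F p t) (chartAt (EE n) p p) i)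

/-- Mean curvature flow `∂_t F = H` on the open set `J` of times. -/
structure IsMCFJ (J : Set ℝ) (F : M → ℝ → EE N) : Prop extends IsImmJ (n := n) J F where
  flow : ∀ (p : M) (t : ℝ), t ∈ J → HasDerivAt (fun τ => F p τ) (HH (n := n) F p t) t

/-- family of immersions with a partition of unity -/
structure SetupJ (n : ℕ) {N : ℕ} {M : Type} [TopologicalSpace M] [ChartedSpace (EE n) M]
    (J : Set ℝ) (F : M → ℝ → EE N) (c : ℕ → M) (χ : ℕ → M → ℝ) : Prop where
  mcf : IsImmJ (n := n) J F
  pu : PU n c χ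

/-- flow with a partition of unity -/
structure SetupF (n : ℕ) {N : ℕ} {M : Type} [TopologicalSpace M] [ChartedSpace (EE n) M]
    (J : Set ℝ) (F : M → ℝ → EE N) (c : ℕ → M) (χ : ℕ → M → ℝ) : Prop where
  mcf : IsMCFJ (n := n) J F
  pu : PU n c χ

theorem SetupF.toJ {n N : ℕ} {M : Type} [TopologicalSpace M] [ChartedSpace (EE n) M]
    {J : Set ℝ} {F : M → ℝ → EE N} {c : ℕ → M} {χ : ℕ → M → ℝ} (h : SetupF n J F c χ) :
    SetupJ n J F c χ := ⟨h.mcf.toIsImmJ, h.pu⟩

/-- a function on space time which is continuous on `M × J` -/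
def CSTJ {M : Type} [TopologicalSpace M] {V : Type} [TopologicalSpace V] (J : Set ℝ)
    (g : M → ℝ → V) : Prop := ContinuousOn (fun z : M × ℝ => g z.1 z.2) (univ ×ˢ J)

end Flow

end Helper35.MS
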