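import Mathlib
import Pool.Agent.Helper35.MS.Defs

/-!
Project MS (MP_925021_gt), module statements, part C: the preserved pinching region, pointwise
inequalities.

Unit sphere, `n = 2`, `h_11 = m + a`, `h_22 = m - a`, `h_12 = b`, `x = |m|²`, `s = |a|² + |b|²`,
`α = ⟨m,a⟩`, `β = ⟨m,b⟩`, `v = α² + β²` (`y = √v`).  The region is `s ≤ fm0 x - gm0 x · √(v + ε²)`.
The numerical margins in the docstrings were computed on fine grids.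
-/

set_option autoImplicit false

namespace Helper35.MS

open Helper35.PI Helper35.PI2 Helper32.CL
open scoped ContDiff Manifold Topology ENNReal BigOperators
open MeasureTheory Set Filter

/-- `f` -/
noncomputable def fm0 (x : ℝ) : ℝ := 2 / 3 - 22 * x / (25 * (1 + 8 * x)) + 3 * x ^ 2 / (8 + 10 * x)
/-- `f'` -/
noncomputable def fm1 (x : ℝ) : ℝ :=
  -22 / (25 * (1 + 8 * x) ^ 2) + (48 * x + 30 * x ^ 2) / (8 + 10 * x) ^ 2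
/-- `f''` -/
noncomputable def fm2 (x : ℝ) : ℝ := 352 / (25 * (1 + 8 * x) ^ 3) + 384 / (8 + 10 * x) ^ 3
/-- `γ` -/
noncomputable def gm0 (x : ℝ) : ℝ := 3 / (10 * (1 + 16 * x))
/-- `Γ = -γ'` -/
noncomputable def gm1 (x : ℝ) : ℝ := 24 / (5 * (1 + 16 * x) ^ 2)
/-- `γ''` -/
noncomputable def gm2 (x : ℝ) : ℝ := 768 / (5 * (1 + 16 * x) ^ 3)

/-! ### Scalar certificates -/

/-- CE0. Simple bounds.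

Proof. (1) `x ≥ 0`: `3x²/(8+10x) ≤ (3/10)x`, so `fm0 x ≤ 2/3 + (3/10)x`. (2) the minimum of
`fm0 x - gm0 x · y` on `y² ≤ x (fm0 x - gm0 x y)` is `.5865` (at `x = .19`, `y = .33`); e.g. `fm0 x ≥ .61` (true
minimum `.6107` at `x = .22`) and `gm0 x · y ≤ gm0 x √(x fm0 x) ≤ .05` (`(3/10)√(x(2/3 + 3x/10))/(1+16x)`,
maximum about `.032`). (3) derivatives: elementary. (4) `0 < gm0 ≤ 3/10`, `gm0`, `gm1`, `gm2` positive. -/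
def StCE0 : Prop :=
  (∀ x : ℝ, 0 ≤ x → fm0 x ≤ 2 / 3 + 3 / 10 * x ∧ 0 < gm0 x ∧ gm0 x ≤ 3 / 10 ∧ 0 < gm1 x ∧
    gm1 x ≤ 24 / 5 ∧ 0 < gm2 x ∧
    HasDerivAt fm0 (fm1 x) x ∧ HasDerivAt fm1 (fm2 x) x ∧ HasDerivAt gm0 (-gm1 x) x ∧
    HasDerivAt gm1 (-gm2 x) x) ∧
  (∀ x y : ℝ, 0 ≤ x → 0 ≤ y → y ^ 2 ≤ x * (fm0 x - gm0 x * y) → 11 / 20 ≤ fm0 x - gm0 x * y) ∧
  (∀ x y : ℝ, 0 ≤ x → 0 ≤ y → 2 / 3 - 2 * x - 2 * Real.sqrt 2 * y ≤ fm0 x - gm0 x * y)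

/-- CE1. The reaction inequality, `y² ≤ x g/2` (`g = fm0 x - gm0 x y`, `k = fm1 x + gm1 x y`).

Proof (suggestion). Write `f, f', γ, Γ` for `fm0 x, fm1 x, gm0 x, gm1 x`. Right side minus left side is the
cubic `B(y) = c₀ + c₁y + c₂y² + Γy³`, `c₀ = f'(x²+x) - (3/2)f² + f`,
`c₁ = Γ(x²+x) - γx + γ(2f-1) = (3/10)(15x/(1+16x)² + (2f-1)/(1+16x))`, `c₂ = f' - 1 - γ²/2`.
With `Y = √(x f/2)`: `y ≤ Y` (as `g ≤ f`), `c₂ + 3ΓY < -.69` (so `B` is concave on `[0,Y]`),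
`B(0) = c₀ ≥ .76 x²/(1+x) ≥ 0` and `B(Y) = c₀ + c₂xf/2 + Y(c₁ + Γxf/2) ≥ 0` (margin
`.038 (x²/(1+x) + .3Y/(1+Y))`; one variable: `c₁ + Γxf/2 > 0`, and where `c₀ + c₂xf/2 < 0` compare squares).
So `B ≥ 0` on `[0,Y]`. -/
def StCE1 : Prop := ∀ x y : ℝ, 0 ≤ x → 0 ≤ y → ∀ g k : ℝ, g = fm0 x - gm0 x * y →
    k = fm1 x + gm1 x * y → y ^ 2 ≤ x * g / 2 →
    y ^ 2 + 3 / 2 * g ^ 2 - g ≤ k * (x ^ 2 + x + y ^ 2) - gm0 x * (x + g) * y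

/-- CE2. The reaction inequality, `x g/2 ≤ y² ≤ x g`.

Proof (suggestion). With `w = y²/x ∈ [g/2, g] ⊆ [(2/5) f, f]` right minus left is
`B = d₀ - Qw + 2w² + y (d₁ + (Γx + 2γ)w)`, `d₀ = f'(x²+x) + f - f²`, `Q = 2f + (1-f')x`,
`d₁ = (3/10)·15x/(1+16x)² + γ(f-1)`. It is `≥ .019 (x²/(1+x) + .3y/(1+y))` for all `w ∈ [(2/5)f, f]`
(worst at `x = .26`, `w = .57 f`). As a polynomial in `y` (`w = y²/x`) it is convex on this range: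
`B'' = 24w/x - 2Q/x + 6(Γ+2γ/x)y > 0`; use a tangent line, or `q(w) = d₀ - Qw + 2w² ≥ d₀ - Q²/8` together
with lower bounds for `y (..)` on subintervals of `w/f`. -/
def StCE2 : Prop := ∀ x y : ℝ, 0 < x → 0 ≤ y → ∀ g k : ℝ, g = fm0 x - gm0 x * y →
    k = fm1 x + gm1 x * y → x * g / 2 ≤ y ^ 2 → y ^ 2 ≤ x * g →
    y ^ 2 + g ^ 2 + 2 * (y ^ 2 / x) * (g - y ^ 2 / x) - g
      ≤ k * (x ^ 2 + x + y ^ 2) - gm0 x * (x + g) * y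

/-- CE3. The gradient inequality.

Proof (suggestion). On `0 ≤ y`, `y² ≤ x g`: `c ≥ .398` (near `x = 18`; `c = C₀ - 2Γy`), `n ≥ .0228` (at
`x = .043`, `y = .16`; `n = N₀ - (6Γ - 4γ''x) y`) and `n c - 4Γ²(xg - y²) ≥ .0187` (at `x = .13`, `y = .17`).
All three are polynomials of degree `≤ 2` in `y` with coefficients rational in `x`; `|γ - 2Γx| =
(3/10)|1-16x|/(1+16x)²`. Constant `1/1000`: room for the regularisation. -/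
def StCE3 : Prop := ∀ x y : ℝ, 0 ≤ x → 0 ≤ y → ∀ g kh c n : ℝ, g = fm0 x - gm0 x * y →
    y ^ 2 ≤ x * g → kh = fm1 x + gm1 x * (y + 1 / 1000) →
    c = 2 - 2 * kh - (2 + gm0 x) ^ 2 / 4 →
    n = 2 - 2 * kh - (2 + |gm0 x - 2 * gm1 x * x|) ^ 2 / 4 - 4 * gm1 x * y
      - 4 * (fm2 x - gm2 x * y) * x →
    0 < c ∧ 0 < n ∧ 4 * gm1 x ^ 2 * (x * g - y ^ 2) ≤ n * c

/-! ### Vector algebra -/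

/-- AV1. Bounds for the determinant `D = |a|²|b|² - ⟨a,b⟩²` and for `v`.

Proof. If `v = 0` take `R = |a|²`. Otherwise let `n = (α,β)/√v`, `a' = n₁a + n₂b`, `b' = -n₂a + n₁b`
(rotation): `|a'|²+|b'|² = s`, `|a'|²|b'|² - ⟨a',b'⟩² = D`, `⟨m,a'⟩ = √v`. `R = |a'|²`:
`v = ⟨m,a'⟩² ≤ x R`, `D ≤ |a'|²|b'|² = R(s-R)`, `0 ≤ R ≤ s`. -/
def StAV1 : Prop := ∀ (V : Type) [NormedAddCommGroup V] [InnerProductSpace ℝ V] (m a b : V),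
    ∃ R : ℝ, 0 ≤ R ∧ R ≤ ‖a‖ ^ 2 + ‖b‖ ^ 2 ∧
      (inner ℝ m a : ℝ) ^ 2 + (inner ℝ m b : ℝ) ^ 2 ≤ ‖m‖ ^ 2 * R ∧
      ‖a‖ ^ 2 * ‖b‖ ^ 2 - (inner ℝ a b : ℝ) ^ 2 ≤ R * (‖a‖ ^ 2 + ‖b‖ ^ 2 - R)

/-- AV2 (hCE0 : StCE0)(hCE1 : StCE1)(hCE2 : StCE2)(hAV1 : StAV1). The reaction inequality with
regularisation, strict.

Proof. `y = √v`, `η > y` (`ε > 0`), `s = f - γη`, `s₀ = f - γy = s + γ(η-y) > s`. `R` from AV1: `v ≤ xR`, so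
`v ≤ xs ≤ xs₀` and CE0 gives `s₀ ≥ 11/20`, `s ≥ 11/20 - (3/10)/1000` (`η ≤ y + ε`), so `s + s₀ > 1`.
`D ≤ R(s-R) ≤ R(s₀-R) ≤ D̂` with `D̂ = s₀²/4` if `v ≤ xs₀/2`, and `D̂ = (v/x)(s₀ - v/x)` if `v ≥ xs₀/2` (then
`x > 0`: `s₀ > 0`... if `x = 0` then `v = 0 ≤ xs₀/2`; `R ≥ v/x ≥ s₀/2` and `R(s₀-R)` is decreasing there).
CE1 or CE2 at `(x,y)`, `g = s₀`: `v + s₀² + 2D̂ - s₀ ≤ (f'+Γy)(x²+x+v) - γ(x+s₀)y`. Now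
`s² - s < s₀² - s₀` (`(s₀-s)(s₀+s-1) > 0`), `D ≤ D̂`, `Γη ≥ Γy`, `(x+s) v/η ≤ (x+s₀) y` (`v = y² ≤ yη`). -/
def StAV2 : Prop := ∀ (V : Type) [NormedAddCommGroup V] [InnerProductSpace ℝ V] (m a b : V)
    (ε x s v η : ℝ), 0 < ε → ε ≤ 1 / 1000 → x = ‖m‖ ^ 2 → s = ‖a‖ ^ 2 + ‖b‖ ^ 2 →
    v = (inner ℝ m a : ℝ) ^ 2 + (inner ℝ m b : ℝ) ^ 2 → η = Real.sqrt (v + ε ^ 2) →
    s = fm0 x - gm0 x * η →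
    v + s ^ 2 + 2 * (‖a‖ ^ 2 * ‖b‖ ^ 2 - (inner ℝ a b : ℝ) ^ 2) - s
      < (fm1 x + gm1 x * η) * (x ^ 2 + x + v) - gm0 x * (x + s) * v / η

/-- AV3 (hCE0 : StCE0)(hCE3 : StCE3). The gradient inequality.

Here `m₁ = (U+W)/2` etc. are written with `p, q`: `a₁ = m₁/2 + p`, `b₁ = m₂/2 + q`, `a₂ = q - m₂/2`,
`b₂ = m₁/2 - p`.

Proof. `n = (α,β)/η` (so `n = ρ n'`, `ρ = √v/η ∈ [0,1)`, `n'` a unit vector; any unit vector if `v = 0`).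
`Σ(|a_i|²+|b_i|²) = ½Σ|m_i|² + 2|p|² + 2|q|²`. `Σ_i ⟨m_i, n₁a_i+n₂b_i⟩ =
n₁(½(|m₁|²-|m₂|²) + m₁·p + m₂·q) + n₂(m₁·m₂ + m₁·q - m₂·p)`. `dα_i = m_i·a + m·a_i`, `dβ_i = m_i·b + m·b_i`.
Put `e = n₁m₁ - n₂m₂`, `e' = n₂m₁ + n₁m₂` (`|e|²+|e'|² = ρ²Σ|m_i|²`, `(m·e)²+(m·e')² = ρ²Σ(m·m_i)²`). The
terms with `p`: `4|p|² + 2γ p·e - 4Γ(m·p)(m·e) ≥ -4|(γ/4)e - (Γ/2)(m·e)m|²
= -(γ²/4)|e|² + γΓ(m·e)² - Γ²x(m·e)²`, similarly `q, e'`. So the form is at least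
`Σ|m_i|²(1 - 2k - γ²ρ²/4) + Σ(m·m_i)²(-4G + γΓρ² - Γ²ρ²x) + γρ S₁ - 2Γρ S₂ - 4Γ Σ_i (m·m_i)(m_i·(n₁a+n₂b))`
with `S₁ = n'₁(|m₁|²-|m₂|²) + 2n'₂ m₁·m₂`, `S₂ = n'₁((m·m₁)²-(m·m₂)²) + 2n'₂(m·m₁)(m·m₂)`.
If `m = 0`: `v = 0`, `ρ = 0`, and `1 - 2k ≥ c > 0` (CE3; `(2+γ)²/4 ≥ 1`). If `m ≠ 0`: `m_i = μ_i m̂ + m_i^⊥`,
`m̂ = m/|m|`; `S₁ = S₁(m^⊥) + [n'₁(μ₁²-μ₂²)+2n'₂μ₁μ₂]`, `S₂ = x[..]`, and `|S₁(m^⊥)| ≤ Σ|m_i^⊥|²`,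
`|[..]| ≤ Σμ_i²`. `a' = n'₁a+n'₂b`, `m·a' = √v =: y`, `a' = (y/√x) m̂ + a'^⊥`, `|a'^⊥|² ≤ s - y²/x`. Total
`≥ Σ|m_i^⊥|²(1-2k-γ²ρ²/4-γρ) + Σμ_i²(1-2k-4Gx-ρ|γ-2Γx|-ρ²(γ-2Γx)²/4-4Γρy)
- 4Γρ√x Σ|μ_i||m_i^⊥||a'^⊥|` (`γΓρ²x - Γ²ρ²x² - γ²ρ²/4 = -ρ²(γ-2Γx)²/4`).
As `ρ ≤ 1` the first bracket is `≥ c`, the second `≥ n` of CE3 at `(x,y)`: `k = f' + Γη ≤ kh`
(`η ≤ y + 1/1000`), `G = f'' - γ''η ≤ f'' - γ''y`; `y² ≤ x g`, `g = f - γy ≥ s`: Cauchy-Schwarz, AV1). The form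
`cP² + nμ² - 4Γ√x |a'^⊥| |μ|P` is `≥ 0` because `4Γ²x|a'^⊥|² ≤ 4Γ²(xs - y²) ≤ 4Γ²(xg-y²) ≤ nc`. -/
def StAV3 : Prop := ∀ (V : Type) [NormedAddCommGroup V] [InnerProductSpace ℝ V]
    (m a b m₁ m₂ p q : V)
    (ε x s v η k G : ℝ), 0 < ε → ε ≤ 1 / 1000 → x = ‖m‖ ^ 2 → s = ‖a‖ ^ 2 + ‖b‖ ^ 2 →
    v = (inner ℝ m a : ℝ) ^ 2 + (inner ℝ m b : ℝ) ^ 2 → η = Real.sqrt (v + ε ^ 2) →
    s = fm0 x - gm0 x * η → k = fm1 x + gm1 x * η → G = fm2 x - gm2 x * η →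
    ∀ (a₁ b₁ a₂ b₂ : V) (α β dα₁ dα₂ dβ₁ dβ₂ : ℝ), a₁ = (1 / 2 : ℝ) • m₁ + p →
    b₁ = (1 / 2 : ℝ) • m₂ + q → a₂ = q - (1 / 2 : ℝ) • m₂ → b₂ = (1 / 2 : ℝ) • m₁ - p →
    α = inner ℝ m a → β = inner ℝ m b →
    dα₁ = inner ℝ m₁ a + inner ℝ m a₁ → dα₂ = inner ℝ m₂ a + inner ℝ m a₂ →
    dβ₁ = inner ℝ m₁ b + inner ℝ m b₁ → dβ₂ = inner ℝ m₂ b + inner ℝ m b₂ →
    0 ≤ 2 * (‖a₁‖ ^ 2 + ‖b₁‖ ^ 2 + ‖a₂‖ ^ 2 + ‖b₂‖ ^ 2) - 2 * k * (‖m₁‖ ^ 2 + ‖m₂‖ ^ 2)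
      - 4 * G * ((inner ℝ m m₁ : ℝ) ^ 2 + (inner ℝ m m₂ : ℝ) ^ 2)
      + 2 * gm0 x / η * (α * (inner ℝ m₁ a₁ + inner ℝ m₂ a₂) + β * (inner ℝ m₁ b₁ + inner ℝ m₂ b₂))
      - 4 * gm1 x / η * ((inner ℝ m m₁ : ℝ) * (α * dα₁ + β * dβ₁)
        + (inner ℝ m m₂ : ℝ) * (α * dα₂ + β * dβ₂))

/-- AV4 (hAV1 : StAV1)(hCE0 : StCE0). The inequality for the energy, `δ = ε/20`.

Proof. `R = θs` from AV1 (`s = 0`: trivial). `6(1+x)s - 6s² - 12D - 4v ≥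
s(6(1+x) - 6s - 12θ(1-θ)s - 4θx)`. Let `φ(θ) = 6 + 6x - 6s - (12s+4x)θ + 12sθ²`. If `x ≤ 3s`:
`φ ≥ 6 + 4x - 9s - x²/(3s) ≥ 6 + 3x - 9s` (completing the square, `x²/(3s) ≤ x`) and
`s ≤ 2/3 + (3/10)x - gm0 x ε` (CE0, `η ≥ ε`), so `φ ≥ (3/10)x + 9 gm0 x ε ≥ (ε/20)(1+x)`
(for `x ≤ 1`: `9·3/170 ε ≥ ε/10`; for `x ≥ 1`: `(3/10)x ≥ (ε/10) x`). If `x ≥ 3s`: `φ ≥ φ(1) = 6 + 2x - 6s`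
(`φ` is decreasing on `[0,1]`) `≥ 6`, and `≥ 2 + x/5` by `s ≤ 2/3 + (3/10)x`; so `φ ≥ (ε/20)(1+x)`. -/
def StAV4 : Prop := ∀ (V : Type) [NormedAddCommGroup V] [InnerProductSpace ℝ V] (m a b : V)
    (ε x s v : ℝ), 0 < ε → ε ≤ 1 / 1000 → x = ‖m‖ ^ 2 → s = ‖a‖ ^ 2 + ‖b‖ ^ 2 →
    v = (inner ℝ m a : ℝ) ^ 2 + (inner ℝ m b : ℝ) ^ 2 →
    s ≤ fm0 x - gm0 x * Real.sqrt (v + ε ^ 2) →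
    4 * v + ε / 20 * ((1 + x) * s)
      ≤ 6 * (1 + x) * s - 6 * s ^ 2 - 12 * (‖a‖ ^ 2 * ‖b‖ ^ 2 - (inner ℝ a b : ℝ) ^ 2) ∧
    s ≤ 2 / 3 * (1 + x)

end Helper35.MS
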