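import Mathlib
import Pool.Agent.Helper35.MS.Defs

/-!
Project MS (MP_925021_gt), module statements, part J: the basic facts of the projects PI, PI2, CL
for families of immersions / flows on an arbitrary open set `J` of times.

Every `StXJ` is the statement `StX` of PI, PI2 or CL with `IsMCF F` replaced by `IsImmJ J F` (or
`IsMCFJ J F`), `t < 0` by `t ∈ J`, `Iio 0` by `J`, `Setup` by `SetupJ` or `SetupF`.  The module
proves `theorem hXJ : StXJ` from the listed hypotheses, by copying the proof of `StX` (file given)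
with the corresponding changes (`isOpen_Iio` becomes `hF.op`, `Iio_mem_nhds ht` becomes
`hF.op.mem_nhds ht`).  Hypotheses without `J` are statements of PI, PI2, CL about graphs or about
`ℝ^n` (all proved, take them as hypotheses); further proved ones may be used in the same way.
-/

set_option autoImplicit false

namespace Helper35.MS

open Helper35.PI Helper35.PI2 Helper32.CL Pool.Agent.Helper35.CL
open scoped ContDiff Manifold Topology ENNReal BigOperators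
open MeasureTheory Set Filter

/-- I2J. Copy of `Helper35/PI/M_I2.lean`. -/
def StI2J : Prop := ∀ (n N : ℕ) (M : Type) [TopologicalSpace M] [ChartedSpace (EE n) M]
    [IsManifold (𝓡 n) ∞ M] (J : Set ℝ) (F : M → ℝ → EE N), IsImmJ (n := n) J F → ∀ p₀ : M,
    ContDiffOn ℝ ∞ (fun z : EE n × ℝ => F ((chartAt (EE n) p₀).symm z.1) z.2)
      ((chartAt (EE n) p₀).target ×ˢ J)

/-- I3J (hI1 : StI1)(hI2J : StI2J). Copy of `Helper91/PI/M_I3.lean`. -/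
def StI3J : Prop := ∀ (n N : ℕ) (M : Type) [TopologicalSpace M] [ChartedSpace (EE n) M]
    [IsManifold (𝓡 n) ∞ M] (J : Set ℝ) (F : M → ℝ → EE N), IsImmJ (n := n) J F →
    ∀ (p₀ q : M) (t : ℝ), t ∈ J → q ∈ (chartAt (EE n) p₀).source →
    LI (loc (n := n) F p₀ t) (chartAt (EE n) p₀ q) ∧
    HH (n := n) F q t = mcv (loc (n := n) F p₀ t) (chartAt (EE n) p₀ q) ∧
    AA (n := n) F q t = nsq (loc (n := n) F p₀ t) (chartAt (EE n) p₀ q) ∧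
    ZF (n := n) F q t = zsq (loc (n := n) F p₀ t) (chartAt (EE n) p₀ q) ∧
    TS (n := n) F q t
      = Submodule.span ℝ (range fun i => dv1 (loc (n := n) F p₀ t) (chartAt (EE n) p₀ q) i)

/-- I4J (hSM : StSM)(hI2J : StI2J)(hI3J : StI3J). Copy of `Helper75/PI/M_I4.lean`. -/
def StI4J : Prop := ∀ (n N : ℕ) (M : Type) [TopologicalSpace M] [ChartedSpace (EE n) M]
    [IsManifold (𝓡 n) ∞ M] (J : Set ℝ) (F : M → ℝ → EE N), IsImmJ (n := n) J F →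
    CSTJ J F ∧ CSTJ J (HH (n := n) F) ∧ CSTJ J (AA (n := n) F) ∧ CSTJ J (ZF (n := n) F)

/-- C4J (hC1 : StC1)(hC2 : StC2)(hC3 : StC3)(hI2J : StI2J)(hI3J : StI3J). Copy of
`Helper35/PI/M_C4.lean`. -/
def StC4J : Prop := ∀ (n N : ℕ) (M : Type) [TopologicalSpace M] [ChartedSpace (EE n) M]
    [IsManifold (𝓡 n) ∞ M] (J : Set ℝ) (F : M → ℝ → EE N), IsMCFJ (n := n) J F →
    ∀ (p₀ : M) (t₀ : ℝ), t₀ ∈ J → HasGChart (n := n) F p₀ t₀

/-- V4J (hI1 : StI1)(hI2J : StI2J)(hI3J : StI3J). Copy of `Helper92/PI/M_V4.lean` (take the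
hypotheses which that file takes, J-versions). -/
def StV4J : Prop := ∀ (n N : ℕ) (M : Type) [TopologicalSpace M] [ChartedSpace (EE n) M]
    [IsManifold (𝓡 n) ∞ M] (J : Set ℝ) (F : M → ℝ → EE N), IsImmJ (n := n) J F →
    ∀ (t : ℝ), t ∈ J → ∀ p₁ p₂ : M,
    (∀ g : M → ℝ≥0∞, (∀ q, g q ≠ 0 →
        q ∈ (chartAt (EE n) p₁).source ∧ q ∈ (chartAt (EE n) p₂).source) →
      ∫⁻ y in (chartAt (EE n) p₁).target,
          g ((chartAt (EE n) p₁).symm y) * ENNReal.ofReal (sgm (loc (n := n) F p₁ t) y)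
        = ∫⁻ y in (chartAt (EE n) p₂).target,
          g ((chartAt (EE n) p₂).symm y) * ENNReal.ofReal (sgm (loc (n := n) F p₂ t) y)) ∧
    (∀ g : M → ℝ, (∀ q, g q ≠ 0 →
        q ∈ (chartAt (EE n) p₁).source ∧ q ∈ (chartAt (EE n) p₂).source) →
      ∫ y in (chartAt (EE n) p₁).target,
          g ((chartAt (EE n) p₁).symm y) * sgm (loc (n := n) F p₁ t) y
        = ∫ y in (chartAt (EE n) p₂).target,
          g ((chartAt (EE n) p₂).symm y) * sgm (loc (n := n) F p₂ t) y)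

/-- V6aJ. Copy of `Helper51/PI/M_V6a.lean`. -/
def StV6aJ : Prop := ∀ (n N : ℕ) (M : Type) [TopologicalSpace M] [ChartedSpace (EE n) M]
    [IsManifold (𝓡 n) ∞ M] (J : Set ℝ) (F : M → ℝ → EE N), IsImmJ (n := n) J F →
    ∀ (t : ℝ), t ∈ J →
    ∀ (X : M → EE N) (p q : M), ContMDiffAt (𝓡 n) 𝓘(ℝ, EE N) 1 X q →
    q ∈ (chartAt (EE n) p).source →
    dvg (n := n) F X q t
      = ∑ i, ∑ j, (gram (loc (n := n) F p t) (chartAt (EE n) p q))⁻¹ i j *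
        inner ℝ (fderiv ℝ (fun y => X ((chartAt (EE n) p).symm y)) (chartAt (EE n) p q) (ee i))
          (dv1 (loc (n := n) F p t) (chartAt (EE n) p q) j)

/-- V6J (hV3 : StV3)(hV4J : StV4J)(hV6aJ : StV6aJ)(..). Copy of `Helper67/PI/M_V6.lean` (take the
hypotheses which that file takes, J-versions). -/
def StV6J : Prop := ∀ (n N : ℕ) (M : Type) [TopologicalSpace M] [T2Space M]
    [ChartedSpace (EE n) M] [IsManifold (𝓡 n) ∞ M] (J : Set ℝ) (F : M → ℝ → EE N),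
    IsImmJ (n := n) J F →
    ∀ (t : ℝ), t ∈ J → ∀ (c : ℕ → M) (χ : ℕ → M → ℝ), PU n c χ →
    ∀ X : M → EE N, ContMDiff (𝓡 n) 𝓘(ℝ, EE N) 1 X → HasCompactSupport X →
    ∀ s : Finset ℕ, (∀ i ∉ s, ∀ q ∈ tsupport X, χ i q = 0) →
    (∀ i, IntegrableOn (fun y => χ i ((chartAt (EE n) (c i)).symm y) *
        (dvg (n := n) F X ((chartAt (EE n) (c i)).symm y) t
          + inner ℝ (HH (n := n) F ((chartAt (EE n) (c i)).symm y) t)
              (X ((chartAt (EE n) (c i)).symm y))) * sgm (loc (n := n) F (c i) t) y)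
        (chartAt (EE n) (c i)).target) ∧
    ∑ i ∈ s, ∫ y in (chartAt (EE n) (c i)).target, χ i ((chartAt (EE n) (c i)).symm y) *
        (dvg (n := n) F X ((chartAt (EE n) (c i)).symm y) t
          + inner ℝ (HH (n := n) F ((chartAt (EE n) (c i)).symm y) t)
              (X ((chartAt (EE n) (c i)).symm y))) * sgm (loc (n := n) F (c i) t) y = 0

/-- SGJ (hV1 : StV1)(hI2J : StI2J)(hI3J : StI3J). The area density in a chart; compare the third part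
of `Helper76/PI2/M_EB.lean` and `sgm_cont` in `Helper48/CL/M_SB.lean`. -/
def StSGJ : Prop := ∀ (n N : ℕ) (M : Type) [TopologicalSpace M] [ChartedSpace (EE n) M]
    [IsManifold (𝓡 n) ∞ M] (J : Set ℝ) (F : M → ℝ → EE N), IsImmJ (n := n) J F → ∀ p : M,
    (∀ y ∈ (chartAt (EE n) p).target, ∀ t ∈ J, 0 < sgm (loc (n := n) F p t) y) ∧
    ContinuousOn (fun z : EE n × ℝ => sgm (loc (n := n) F p z.2) z.1)
      ((chartAt (EE n) p).target ×ˢ J)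

/-- LTJ (hSGJ : StSGJ). Copy of `Helper42/PI2/M_LT.lean` (first and second part). -/
def StLTJ : Prop := ∀ (n N : ℕ) (M : Type) [TopologicalSpace M] [ChartedSpace (EE n) M]
    [IsManifold (𝓡 n) ∞ M] (J : Set ℝ) (F : M → ℝ → EE N), IsImmJ (n := n) J F →
    ∀ t : ℝ, t ∈ J →
    ∀ (c : ℕ → M) (χ : ℕ → M → ℝ), PU n c χ → ∀ i : ℕ,
    (∀ g : M → ℝ, Continuous g →
      IntegrableOn (fun y => χ i ((chartAt (EE n) (c i)).symm y) *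
        (g ((chartAt (EE n) (c i)).symm y) * sgm (loc (n := n) F (c i) t) y))
        (chartAt (EE n) (c i)).target) ∧
    (∀ E : Set M, IsClosed E →
      IntegrableOn (fun y => χ i ((chartAt (EE n) (c i)).symm y) *
        (indicator E (1 : M → ℝ) ((chartAt (EE n) (c i)).symm y)
          * sgm (loc (n := n) F (c i) t) y))
        (chartAt (EE n) (c i)).target)

/-- MUJ (hSGJ : StSGJ)(hLTJ : StLTJ)(hLL : StLL). Copy of `Helper91/CL/M_MU.lean`. -/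
def StMUJ : Prop := ∀ (n N : ℕ) (M : Type) [TopologicalSpace M] [T2Space M] [CompactSpace M]
    [MeasurableSpace M] [BorelSpace M] [ChartedSpace (EE n) M] [IsManifold (𝓡 n) ∞ M]
    (J : Set ℝ) (F : M → ℝ → EE N) (c : ℕ → M) (χ : ℕ → M → ℝ), SetupJ n J F c χ →
    ∃ s : Finset ℕ, (∀ i ∉ s, ∀ q, χ i q = 0) ∧ ∀ t ∈ J,
      muM n F c χ t univ < ⊤ ∧
      (∀ g : M → ℝ≥0∞, Measurable g → ∫⁻ q, g q ∂muM n F c χ t = Lam (n := n) F c χ t g) ∧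
      ∀ g : M → ℝ, Continuous g → Integrable g (muM n F c χ t) ∧
        ∫ q, g q ∂muM n F c χ t = Ls n F c χ s t g

/-- FVJ (hMUJ : StMUJ)(hV6J : StV6J)(hV6aJ : StV6aJ)(hSM : StSM)(hI2J : StI2J)(hI3J : StI3J)
(hI4J : StI4J). Copy of `Helper29/CL/M_FV.lean`. -/
def StFVJ : Prop := ∀ (n N : ℕ) (M : Type) [TopologicalSpace M] [T2Space M] [CompactSpace M]
    [MeasurableSpace M] [BorelSpace M] [ChartedSpace (EE n) M] [IsManifold (𝓡 n) ∞ M]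
    (J : Set ℝ) (F : M → ℝ → EE N) (c : ℕ → M) (χ : ℕ → M → ℝ), SetupJ n J F c χ → ∀ t ∈ J,
    ∀ X : M → EE N, ContMDiff (𝓡 n) 𝓘(ℝ, EE N) 1 X →
      Continuous (fun q => dvg (n := n) F X q t) ∧
      ∫ q, (dvg (n := n) F X q t + inner ℝ (HH (n := n) F q t) (X q)) ∂muM n F c χ t = 0

/-- TDJ (hMUJ : StMUJ)(hFU : StFU)(hV1 : StV1)(hSGJ : StSGJ)(hI2J : StI2J)(hI3J : StI3J)
(hI4J : StI4J). Copy of `Helper80/CL/M_TD.lean`. -/
def StTDJ : Prop := ∀ (n N : ℕ) (M : Type) [TopologicalSpace M] [T2Space M] [CompactSpace M]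
    [MeasurableSpace M] [BorelSpace M] [ChartedSpace (EE n) M] [IsManifold (𝓡 n) ∞ M]
    (J : Set ℝ) (F : M → ℝ → EE N) (c : ℕ → M) (χ : ℕ → M → ℝ), SetupF n J F c χ →
    (∀ g : M → ℝ → ℝ, CSTJ J g →
      ContinuousOn (fun t => ∫ q, g q t ∂muM n F c χ t) J) ∧
    ∀ g g' : M → ℝ → ℝ, CSTJ J g → CSTJ J g' → (∀ q, ∀ t ∈ J, HasDerivAt (g q) (g' q t) t) →
      ∀ t ∈ J, HasDerivAt (fun t => ∫ q, g q t ∂muM n F c χ t)
        (∫ q, (g' q t - ‖HH (n := n) F q t‖ ^ 2 * g q t) ∂muM n F c χ t) t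

/-- FSJ (hMUJ : StMUJ)(hSGJ : StSGJ)(hI2J : StI2J)(hI3J : StI3J)(hV1 : StV1). Copy of
`Helper41/CL/M_FS.lean`. -/
def StFSJ : Prop := ∀ (n N : ℕ) (M : Type) [TopologicalSpace M] [T2Space M] [CompactSpace M]
    [MeasurableSpace M] [BorelSpace M] [ChartedSpace (EE n) M] [IsManifold (𝓡 n) ∞ M]
    (J : Set ℝ) (F : M → ℝ → EE N) (c : ℕ → M) (χ : ℕ → M → ℝ), SetupJ n J F c χ → ∀ t ∈ J,
    ∀ g : M → ℝ, Continuous g → (∀ q, 0 ≤ g q) → ∫ q, g q ∂muM n F c χ t = 0 → ∀ q, g q = 0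

/-- PRJ (hV6aJ : StV6aJ)(hI2J : StI2J)(hI3J : StI3J)(hI4J : StI4J)(hNR : StNR)(hFR : StFR)(hSM : StSM).
Copy of `Helper91/CL/M_PR.lean` with two additions: `gdM h` is tangent to `M_t`, and the gradient of
`ζ(|F-y|²)`: `⟨gdM (ζ(|F-y|²)), V⟩ = 2ζ' ⟨F-y, V⟩` for every tangent vector `V` (in the chart:
`∂_k ζ(|f-y|²) = 2ζ'⟨f-y,f_k⟩`, and `Σ G_kl ⟨v,f_k⟩⟨f_l,V⟩ = ⟨v, V - nrm V⟩ = ⟨v,V⟩`), and products:
`gdM (h₁h₂) = h₁ gdM h₂ + h₂ gdM h₁`. -/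
def StPRJ : Prop := ∀ (n N : ℕ) (M : Type) [TopologicalSpace M] [ChartedSpace (EE n) M]
    [IsManifold (𝓡 n) ∞ M] (J : Set ℝ) (F : M → ℝ → EE N), IsImmJ (n := n) J F → ∀ t ∈ J,
    (∀ h : M → ℝ, ContMDiff (𝓡 n) 𝓘(ℝ, ℝ) 1 h → ∀ X : M → EE N,
      ContMDiff (𝓡 n) 𝓘(ℝ, EE N) 1 X → ∀ q,
        dvg (n := n) F (fun q => h q • X q) q t
          = h q * dvg (n := n) F X q t + inner ℝ (gdM n F t h q) (X q)) ∧
    (∀ h : M → ℝ, ∀ q, gdM n F t h q ∈ TS (n := n) F q t) ∧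
    (∀ h₁ h₂ : M → ℝ, ContMDiff (𝓡 n) 𝓘(ℝ, ℝ) 1 h₁ → ContMDiff (𝓡 n) 𝓘(ℝ, ℝ) 1 h₂ → ∀ q,
      gdM n F t (fun q => h₁ q * h₂ q) q = h₁ q • gdM n F t h₂ q + h₂ q • gdM n F t h₁ q) ∧
    (∀ h : M → ℝ, ContMDiff (𝓡 n) 𝓘(ℝ, ℝ) 1 h → ∀ ζ : ℝ → ℝ, ContDiff ℝ 1 ζ → ∀ q,
      gdM n F t (fun q => ζ (h q)) q = deriv ζ (h q) • gdM n F t h q) ∧
    ∀ y : EE N, ∃ r : M → ℝ, (∀ q, 0 ≤ r q ∧ r q ≤ ‖F q t - y‖ ^ 2 ∧
        (inner ℝ (HH (n := n) F q t) (F q t - y) : ℝ) ^ 2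
          ≤ ‖HH (n := n) F q t‖ ^ 2 * (‖F q t - y‖ ^ 2 - r q)) ∧
      (∀ h : M → ℝ, ContMDiff (𝓡 n) 𝓘(ℝ, ℝ) 1 h → ∀ q,
        |(inner ℝ (gdM n F t h q) (F q t - y) : ℝ)| ≤ ‖gdM n F t h q‖ * Real.sqrt (r q)) ∧
      ∀ ζ : ℝ → ℝ, ContDiff ℝ 1 ζ →
        ContMDiff (𝓡 n) 𝓘(ℝ, EE N) 1 (fun q => ζ (‖F q t - y‖ ^ 2) • (F q t - y)) ∧
        ContMDiff (𝓡 n) 𝓘(ℝ, ℝ) 1 (fun q => ζ (‖F q t - y‖ ^ 2)) ∧
        (∀ q, ∀ V ∈ TS (n := n) F q t,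
          (inner ℝ (gdM n F t (fun q => ζ (‖F q t - y‖ ^ 2)) q) V : ℝ)
            = 2 * deriv ζ (‖F q t - y‖ ^ 2) * inner ℝ (F q t - y) V) ∧
        ∀ q, dvg (n := n) F (fun q => ζ (‖F q t - y‖ ^ 2) • (F q t - y)) q t
          = n * ζ (‖F q t - y‖ ^ 2) + 2 * deriv ζ (‖F q t - y‖ ^ 2) * r q

/-- SBJ (hMUJ : StMUJ)(hV4J : StV4J)(hV1 : StV1)(hI2J : StI2J)(hI3J : StI3J)(hFR : StFR). Area of small
balls, `n = 2`, sharp constant: copy of `Helper48/CL/M_SB.lean` with `11/10`, `9/10`, `10/11` replaced by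
`1+κ`, `1-κ`, `1/(1+κ)` for a small `κ > 0` with `(1-κ)/(1+κ)² ≥ 1-η`. -/
def StSBJ : Prop := ∀ (N : ℕ) (M : Type) [TopologicalSpace M] [T2Space M] [CompactSpace M]
    [MeasurableSpace M] [BorelSpace M] [ChartedSpace (EE 2) M] [IsManifold (𝓡 2) ∞ M]
    (J : Set ℝ) (F : M → ℝ → EE N) (c : ℕ → M) (χ : ℕ → M → ℝ), SetupJ 2 J F c χ →
    ∀ t ∈ J, ∀ q : M, ∀ U ∈ 𝓝 q, ∀ η : ℝ, 0 < η → ∀ᶠ ε in 𝓝[>] (0 : ℝ),
      ENNReal.ofReal ((1 - η) * Real.pi * ε ^ 2)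
        ≤ muM 2 F c χ t (U ∩ {p | ‖F p t - F q t‖ ≤ ε})

/-- MAJ (hIS : StIS)(hIB : StIB)(hI2J : StI2J)(hI3J : StI3J). Copy of `Helper12/PI2/M_MA.lean`. -/
def StMAJ : Prop := ∀ (n N : ℕ) (M : Type) [TopologicalSpace M] [ChartedSpace (EE n) M]
    [IsManifold (𝓡 n) ∞ M] (J : Set ℝ) (F : M → ℝ → EE N), IsImmJ (n := n) J F →
    ∀ (μ t : ℝ), t ∈ J →
    ContMDiff (𝓡 n) 𝓘(ℝ, EE N) 1 (VF n μ F t) ∧
    (∀ q, (inner ℝ (HH (n := n) F q t) (VF n μ F t q) : ℝ) = 0) ∧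
    (∀ q, VF n μ F t q ∈ TS (n := n) F q t) ∧
    (∀ q, dvg (n := n) F (VF n μ F t) q t
      = dvc (loc (n := n) F q t) (vfd μ (loc (n := n) F q t)) (chartAt (EE n) q q))

/-- MLJ (hSS : StSS)(hIV : StIV)(hI2J : StI2J)(hI3J : StI3J)(hI4J : StI4J). Copy of
`Helper30/CL/M_ML.lean` (take the hypotheses which that file takes, J-versions). -/
def StMLJ : Prop := ∀ (n N : ℕ) (M : Type) [TopologicalSpace M] [ChartedSpace (EE n) M]
    [IsManifold (𝓡 n) ∞ M] (J : Set ℝ) (F : M → ℝ → EE N), IsImmJ (n := n) J F →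
    ∀ (κ l : ℝ) (c : Co), c.Smooth →
    (∀ t ∈ J, ContMDiff (𝓡 n) 𝓘(ℝ, EE N) 1 (WFd n κ l c F t) ∧
      (∀ q, (inner ℝ (HH (n := n) F q t) (WFd n κ l c F t q) : ℝ) = 0) ∧
      (∀ q, WFd n κ l c F t q ∈ TS (n := n) F q t) ∧
      ContMDiff (𝓡 n) 𝓘(ℝ, ℝ) 1 (fun q => c.φ (i4F n l F q t)) ∧
      ∀ q, WFd n 0 l (cφ c.φ) F t q = gdM n F t (fun q => c.φ (i4F n l F q t)) q) ∧
    CSTJ J (fun q t => dvg (n := n) F (WFd n κ l c F t) q t) ∧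
    CSTJ J (fun q t => i4F n l F q t) ∧ CSTJ J (fun q t => wvF n l F q t) ∧
    CSTJ J (fun q t => c.φ (i4F n l F q t)) ∧
    CSTJ J (fun q t => deriv (fun s => c.φ (i4F n l F q s)) t) ∧
    (∀ q, ∀ t ∈ J, HasDerivAt (fun s => c.φ (i4F n l F q s))
      (deriv (fun s => c.φ (i4F n l F q s)) t) t) ∧
    ∀ q, ∀ t ∈ J, wvF n l F q t = wvF n 0 F q t + l • HH (n := n) F q t ∧
      (inner ℝ (wvF n 0 F q t) (HH (n := n) F q t) : ℝ)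
        = inner ℝ (F q t) (HH (n := n) F q t) ∧
      ‖wvF n 0 F q t‖ ≤ ‖F q t‖

/-- MDJ. Copy of `Helper18/CL/M_MD.lean` (take the hypotheses which that file takes; `StI2, StI3, StMA,
StML` are replaced by `StI2J, StI3J, StMAJ, StMLJ`; the others are about graphs or `ℝ^n`). -/
def StMDJ : Prop := ∀ (n N : ℕ) (M : Type) [TopologicalSpace M] [ChartedSpace (EE n) M]
    [IsManifold (𝓡 n) ∞ M] (J : Set ℝ) (F : M → ℝ → EE N), IsMCFJ (n := n) J F →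
    ∀ (q : M) (t : ℝ), t ∈ J →
    ∃ (A : Fin n → Fin n → EE N) (T : Fin n → Fin n → Fin n → EE N) (ν : EE N)
      (v : Fin n → ℝ), SymV A ∧ Sym3V T ∧
      AA (n := n) F q t = XX A ∧ HH (n := n) F q t = Hv A ∧ ZF (n := n) F q t = ZZ A ∧
      (∀ l, wvF n l F q t = Wl l A ν) ∧ ‖F q t‖ ^ 2 = ‖ν‖ ^ 2 + ∑ k, v k ^ 2 ∧
      (inner ℝ (F q t) (HH (n := n) F q t) : ℝ) = inner ℝ ν (Hv A) ∧
      (∀ μ, ‖VF n μ F t q‖ ^ 2 = ∑ k, vk μ A T k ^ 2 ∧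
        HasDerivAt (fun s => thF n F q s)
          (dvg (n := n) F (VF n μ F t) q t + 2 * (1 + μ) * hX A T - hY A T
            + 4 * μ * eq2 T - 4 * μ * AAH A) t) ∧
      ∀ (κ l : ℝ) (c : Co), c.Smooth →
        ‖WFd n κ l c F t q‖ ^ 2 = Real.exp (-(κ * ‖F q t‖ ^ 2 / 2)) ^ 2 *
          ∑ k, (gph l c A T ν v k + Va κ c A v k) ^ 2 ∧
        dvg (n := n) F (WFd n κ l c F t) q t
          = Real.exp (-(κ * ‖F q t‖ ^ 2 / 2)) *
            (deriv (fun s => c.φ (i4F n l F q s)) t + dvA κ l c A T ν v)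

/-- ENJ (hMDJ : StMDJ)(hMLJ : StMLJ)(hGI : StGI)(hMAJ : StMAJ)(hTDJ : StTDJ)(hFVJ : StFVJ)(hMUJ : StMUJ).
Copy of `Helper82/CL/M_EN.lean`, but with the derivative instead of the two times (`J` need not be
connected): the total curvature has derivative `0`. -/
def StENJ : Prop := ∀ (N : ℕ) (M : Type) [TopologicalSpace M] [T2Space M]
    [CompactSpace M] [MeasurableSpace M] [BorelSpace M]
    [ChartedSpace (EE 2) M] [IsManifold (𝓡 2) ∞ M] (J : Set ℝ) (F : M → ℝ → EE N) (c : ℕ → M)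
    (χ : ℕ → M → ℝ), SetupF 2 J F c χ → ∀ t ∈ J,
    HasDerivAt (fun t => ∫ q, (‖HH (n := 2) F q t‖ ^ 2 - AA (n := 2) F q t) ∂(muM 2 F c χ t)) 0 t

/-- LDJ (hPRJ : StPRJ)(hFVJ : StFVJ)(hMUJ : StMUJ)(hI4J : StI4J)(hSBJ : StSBJ). Local density; copy of
`Helper40/CL/M_LA.lean` and `Helper60/CL/M_LD.lean` (put both into one file, or two). `StSBJ` implies
the old form (`(1-η)π ≥ 1`). -/
def StLDJ : Prop := ∀ (N : ℕ) (M : Type) [TopologicalSpace M] [T2Space M]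
    [CompactSpace M] [MeasurableSpace M] [BorelSpace M]
    [ChartedSpace (EE 2) M] [IsManifold (𝓡 2) ∞ M] (J : Set ℝ) (F : M → ℝ → EE N) (c : ℕ → M)
    (χ : ℕ → M → ℝ), SetupJ 2 J F c χ → ∀ t ∈ J, ∀ (q₀ : M) (r : ℝ), 0 < r →
    1 / 2 ≤ 4 / r ^ 2 * (muM 2 F c χ t).real (bl F t (F q₀ t) r)
      + 1 / 8 * ∫ q in bl F t (F q₀ t) r, ‖HH (n := 2) F q t‖ ^ 2 ∂(muM 2 F c χ t)

/-- DMJ (hLDJ : StLDJ)(hMUJ : StMUJ)(hI4J : StI4J). Copy of `Helper78/CL/M_DM.lean`. -/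
def StDMJ : Prop := ∀ (N : ℕ) (M : Type) [TopologicalSpace M] [T2Space M]
    [CompactSpace M] [ConnectedSpace M] [MeasurableSpace M]
    [BorelSpace M] [ChartedSpace (EE 2) M] [IsManifold (𝓡 2) ∞ M] (J : Set ℝ)
    (F : M → ℝ → EE N) (c : ℕ → M) (χ : ℕ → M → ℝ), SetupJ 2 J F c χ → ∀ t ∈ J, ∀ p q : M,
    ‖F p t - F q t‖ ^ 2
      ≤ (32 * (∫ z, ‖HH (n := 2) F z t‖ ^ 2 ∂(muM 2 F c χ t)) + 128)
        * (muM 2 F c χ t).real univ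

/-- BRJ (hPRJ : StPRJ)(hTDJ : StTDJ)(hFVJ : StFVJ)(hFSJ : StFSJ)(hI4J : StI4J)(hMUJ : StMUJ). Barrier by
balls; copy of `Helper82/CL/M_BP.lean` and `Helper4/CL/M_BR.lean` (one file, or two). `J` is now an
interval on `[t₁,t₂]`. -/
def StBRJ : Prop := ∀ (N : ℕ) (M : Type) [TopologicalSpace M] [T2Space M]
    [CompactSpace M] [MeasurableSpace M] [BorelSpace M]
    [ChartedSpace (EE 2) M] [IsManifold (𝓡 2) ∞ M] (J : Set ℝ) (F : M → ℝ → EE N) (c : ℕ → M)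
    (χ : ℕ → M → ℝ), SetupF 2 J F c χ → ∀ (y : EE N) (R t₁ t₂ : ℝ), 0 ≤ R → t₁ ≤ t₂ →
    Icc t₁ t₂ ⊆ J → (∀ q, ‖F q t₁ - y‖ ≤ R) → ∀ q, ‖F q t₂ - y‖ ≤ R

end Helper35.MS
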