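import Mathlib
import Pool.Agent.Helper35.MS.StC
import Pool.Agent.Helper35.MS.StJ

/-!
Project MS (MP_925021_gt), module statements, part D: jets of the test function, maximum
principle.  The flow is a mean curvature flow in `ℝ^N` with `|F(·,t)|² = 1 - 4t` (a flow in the unit
sphere, rescaled); `r2 = 1 - 4t`.  All formulas were checked numerically.
-/

set_option autoImplicit false

namespace Helper35.MS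

open Helper35.PI Helper35.PI2 Helper32.CL
open scoped ContDiff Manifold Topology ENNReal BigOperators
open MeasureTheory Set Filter

/-! ### Jets -/

/-- SPH (hG1 : StG1)(hG2 : StG2)(hSM : StSM). Jets of a graph in the shrinking sphere.

Proof. `f z = grf x₀ L u z.2 z.1 = x₀ + L z.1 + u z`, `f (0,t₀) = x₀`. Near `(0,t₀)`: `⟨f,f⟩ = 1 - 4t`, so
`⟨f, f_i⟩ = 0` with `f_i = L e_i + u_i` (`u_i = jg u · i`), `⟨f_j, f_i⟩ + ⟨f, u_ij⟩ = 0`, and at the point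
`⟨u_jk, f_i⟩ + ⟨f_j, u_ik⟩ + ⟨f_k, u_ij⟩ + ⟨f, u_kij⟩ = 0`, where `f_i = L e_i` and `u_ij ⟂ L` (G1). -/
def StSPH : Prop := ∀ (n N : ℕ) (x₀ : EE N) (L : EE n →ₗᵢ[ℝ] EE N) (u : EE n × ℝ → EE N)
    (t₀ : ℝ), GraphSol x₀ L u t₀ →
    (∀ᶠ z in 𝓝 ((0 : EE n), t₀), ‖grf x₀ L u z.2 z.1‖ ^ 2 = 1 - 4 * z.2) →
    ∀ (A : Fin n → Fin n → EE N) (T : Fin n → Fin n → Fin n → EE N),
    A = jgg u (0, t₀) → T = jggg u (0, t₀) →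
    ‖x₀‖ ^ 2 = 1 - 4 * t₀ ∧
    (∀ i j, (inner ℝ (A i j) x₀ : ℝ) = if i = j then -1 else 0) ∧
    ∀ i j k, (inner ℝ (T i j k) x₀ : ℝ) = 0

/-- JID. The jets in terms of `m, a, b, m₁, m₂, p, q`. (Checked numerically.)

Proof. Expand all sums over `Fin 2` (`Fin.sum_univ_two`), replace `A 1 0` by `A 0 1`, all `T i j k` by
`T 0 0 0, T 0 0 1, T 0 1 1, T 1 1 1`, and write `A 0 0 = B + ..`: it is convenient to substitute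
`A 0 0 = (1/r) • (m + a) - (1/r2) • x₀`, `A 1 1 = (1/r) • (m - a) - (1/r2) • x₀`, `A 0 1 = (1/r) • b`,
`T 0 0 0 = (1/r2) • (3/2 m₁ + p)`, `T 0 1 1 = (1/r2) • (½ m₁ - p)`, `T 0 0 1 = (1/r2) • (½ m₂ + q)`,
`T 1 1 1 = (1/r2) • (3/2 m₂ - q)`, where `m, a, b, m₁, m₂, p, q` are orthogonal to `x₀`, `|x₀|² = r2 = r²`;
then everything is a polynomial identity in the inner products (split it into the 7 identities). -/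
def StJID : Prop := ∀ (N : ℕ) (x₀ : EE N) (r r2 : ℝ) (A : Fin 2 → Fin 2 → EE N)
    (T : Fin 2 → Fin 2 → Fin 2 → EE N), 0 < r → r2 = r ^ 2 → ‖x₀‖ ^ 2 = r2 → SymV A → Sym3V T →
    (∀ i j, (inner ℝ (A i j) x₀ : ℝ) = if i = j then -1 else 0) →
    (∀ i j k, (inner ℝ (T i j k) x₀ : ℝ) = 0) →
    ∃ (m a b m₁ m₂ p q a₁ b₁ a₂ b₂ : EE N) (x s v α β dα₁ dα₂ dβ₁ dβ₂ D : ℝ),
      m = (r / 2) • (A 0 0 + A 1 1) + (1 / r) • x₀ ∧ a = (r / 2) • (A 0 0 - A 1 1) ∧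
      b = r • A 0 1 ∧
      m₁ = (r2 / 2) • (T 0 0 0 + T 0 1 1) ∧ m₂ = (r2 / 2) • (T 0 0 1 + T 1 1 1) ∧
      p = (r2 / 4) • (T 0 0 0 - (3 : ℝ) • T 0 1 1) ∧ q = (r2 / 4) • ((3 : ℝ) • T 0 0 1 - T 1 1 1) ∧
      a₁ = (1 / 2 : ℝ) • m₁ + p ∧ b₁ = (1 / 2 : ℝ) • m₂ + q ∧ a₂ = q - (1 / 2 : ℝ) • m₂ ∧
      b₂ = (1 / 2 : ℝ) • m₁ - p ∧
      x = ‖m‖ ^ 2 ∧ s = ‖a‖ ^ 2 + ‖b‖ ^ 2 ∧ α = inner ℝ m a ∧ β = inner ℝ m b ∧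
      v = α ^ 2 + β ^ 2 ∧ D = ‖a‖ ^ 2 * ‖b‖ ^ 2 - (inner ℝ a b : ℝ) ^ 2 ∧
      dα₁ = inner ℝ m₁ a + inner ℝ m a₁ ∧ dα₂ = inner ℝ m₂ a + inner ℝ m a₂ ∧
      dβ₁ = inner ℝ m₁ b + inner ℝ m b₁ ∧ dβ₂ = inner ℝ m₂ b + inner ℝ m b₂ ∧
      x = r2 * YY A / 4 - 1 ∧ s = r2 * (2 * XX A - YY A) / 4 ∧
      v = r2 ^ 2 * (ZZ A - YY A ^ 2 / 2) / 8 ∧
      r * (r2 * gY A T 0 / 4) = 2 * inner ℝ m m₁ ∧ r * (r2 * gY A T 1 / 4) = 2 * inner ℝ m m₂ ∧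
      r * (r2 ^ 2 * (gZ A T 0 - YY A * gY A T 0) / 8) = 2 * (α * dα₁ + β * dβ₁) ∧
      r * (r2 ^ 2 * (gZ A T 1 - YY A * gY A T 1) / 8) = 2 * (α * dα₂ + β * dβ₂) ∧
      r2 * (r2 * (2 * hX A T - hY A T) / 4 - (2 * XX A - YY A))
        = -2 * (‖a₁‖ ^ 2 + ‖b₁‖ ^ 2 + ‖a₂‖ ^ 2 + ‖b₂‖ ^ 2) + 4 * v + 4 * s ^ 2 + 8 * D - 4 * s ∧
      r2 * (r2 * hY A T / 4 - YY A)
        = -2 * (‖m₁‖ ^ 2 + ‖m₂‖ ^ 2) + 4 * x ^ 2 + 4 * x + 4 * v ∧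
      r2 * (r2 ^ 2 * (hZ A T - YY A * hY A T + (gY A T 0 ^ 2 + gY A T 1 ^ 2)) / 8
          - r2 * (ZZ A - YY A ^ 2 / 2))
        = -2 * (dα₁ ^ 2 + dβ₁ ^ 2 + dα₂ ^ 2 + dβ₂ ^ 2)
          - 4 * (α * (inner ℝ m₁ a₁ + inner ℝ m₂ a₂) + β * (inner ℝ m₁ b₁ + inner ℝ m₂ b₂))
          + 8 * (x + s) * v

/-- PJ1 (hG7 : StG7)(hG8 : StG8)(hG9 : StG9)(hJA : StJA)(hJB : StJB). Jets of the normalised
quantities on a graph.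

Proof. `z ↦ 1 - 4 z.2` has `jg = 0`, `jh = -4` (`jt = -4`, no spatial derivatives). Products: JB; and
`jh (Yf²) = 2Y hY - 2Σ gY²`. E.g. `jh ((1-4t)²(Zf - Yf²/2)/8) = r2² (hZ - Y hY + Σ gY²)/8
+ (-8 r2)(ZZ - YY²/2)/8`. -/
def StPJ1 : Prop := ∀ (N : ℕ) (x₀ : EE N) (L : EE 2 →ₗᵢ[ℝ] EE N) (u : EE 2 × ℝ → EE N)
    (t₀ : ℝ), GraphSol x₀ L u t₀ →
    ∀ (A : Fin 2 → Fin 2 → EE N) (T : Fin 2 → Fin 2 → Fin 2 → EE N),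
    A = jgg u (0, t₀) → T = jggg u (0, t₀) → ∀ (r2 : ℝ) (S X V : EE 2 × ℝ → ℝ), r2 = 1 - 4 * t₀ →
    S = (fun z => (1 - 4 * z.2) * (2 * Xf x₀ L u z - Yf x₀ L u z) / 4) →
    X = (fun z => (1 - 4 * z.2) * Yf x₀ L u z / 4 - 1) →
    V = (fun z => (1 - 4 * z.2) ^ 2 * (Zf x₀ L u z - Yf x₀ L u z ^ 2 / 2) / 8) →
    ContDiffAt ℝ 3 S (0, t₀) ∧ ContDiffAt ℝ 3 X (0, t₀) ∧ ContDiffAt ℝ 3 V (0, t₀) ∧
    S (0, t₀) = r2 * (2 * XX A - YY A) / 4 ∧ X (0, t₀) = r2 * YY A / 4 - 1 ∧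
    V (0, t₀) = r2 ^ 2 * (ZZ A - YY A ^ 2 / 2) / 8 ∧
    (∀ k, jg X (0, t₀) k = r2 * gY A T k / 4 ∧
      jg V (0, t₀) k = r2 ^ 2 * (gZ A T k - YY A * gY A T k) / 8) ∧
    jh S (0, t₀) = r2 * (2 * hX A T - hY A T) / 4 - (2 * XX A - YY A) ∧
    jh X (0, t₀) = r2 * hY A T / 4 - YY A ∧
    jh V (0, t₀) = r2 ^ 2 * (hZ A T - YY A * hY A T + (gY A T 0 ^ 2 + gY A T 1 ^ 2)) / 8
      - r2 * (ZZ A - YY A ^ 2 / 2)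

/-- PJ2 (hCE0 : StCE0)(hJB : StJB)(hJA : StJA). The heat operator of the test function.

Proof. One-variable chain rule for the jets of `ψ(φ)`, `ψ` smooth near `φ z`:
`jg (ψ∘φ) k = ψ' jg φ k`, `jh (ψ∘φ) = ψ' jh φ - ψ'' Σ (jg φ k)²` (as in `Helper2/CL/M_CR.lean`, but local;
`fm0`, `gm0` are smooth near `x ≥ 0`, `√` is smooth near `V z + ε² > 0`). With `η = √(V+ε²)`:
`jg η k = jg V k/(2η)`, `jh η = jh V/(2η) + Σ(jg V k)²/(4η³)`. Then JB for the product `gm0(X)·η`: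
`jh (gm0(X) η) = (-gm1 jh X - gm2 ΣX_k²) η + gm0 jh η + 2 gm1 Σ X_k η_k`, and
`jh fm0(X) = fm1 jh X - fm2 Σ X_k²`. -/
def StPJ2 : Prop := ∀ (z : EE 2 × ℝ) (S X V Φ : EE 2 × ℝ → ℝ) (ε x η : ℝ),
    ContDiffAt ℝ 3 S z → ContDiffAt ℝ 3 X z → ContDiffAt ℝ 3 V z → 0 < ε → x = X z → 0 ≤ x →
    0 ≤ V z → η = Real.sqrt (V z + ε ^ 2) →
    Φ = (fun z => S z - fm0 (X z) + gm0 (X z) * Real.sqrt (V z + ε ^ 2)) →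
    ContDiffAt ℝ 2 Φ z ∧
    jh Φ z = jh S z - (fm1 x + gm1 x * η) * jh X z
      + (fm2 x - gm2 x * η) * (jg X z 0 ^ 2 + jg X z 1 ^ 2)
      + gm0 x * (jh V z / (2 * η) + (jg V z 0 ^ 2 + jg V z 1 ^ 2) / (4 * η ^ 3))
      + gm1 x * (jg X z 0 * jg V z 0 + jg X z 1 * jg V z 1) / η

/-- AIM (hSPH : StSPH)(hJID : StJID)(hPJ1 : StPJ1)(hPJ2 : StPJ2)(hAV2 : StAV2)(hAV3 : StAV3)(hG1 : StG1)
(hCE0 : StCE0). The test function is a strict subsolution where it vanishes.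

Proof. `t₀ < 1/4`, `r = √(1-4t₀)`. SPH, JID, PJ1, PJ2. Multiply `jh Φ` by `r2 = r²`; with the notation of
JID (`r jg X k = 2 m·m_k`, `r jg V k = 2(α dα_k + β dβ_k)`, `k = fm1 x + gm1 x η`, `G = fm2 x - gm2 x η`):
`r2 jh Φ = [-2Σ(|a_i|²+|b_i|²) + 4v + 4s² + 8D - 4s] - k[-2Σ|m_i|² + 4x² + 4x + 4v] + 4GΣ(m·m_i)²
+ gm0 [(-2Σ(dα_i²+dβ_i²) - 4Σ(α m_i·a_i + β m_i·b_i) + 8(x+s)v)/(2η) + Σ(α dα_i+β dβ_i)²/η³]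
+ 4 gm1 Σ (m·m_i)(α dα_i + β dβ_i)/η = -4 B - Q - (gm0/η)[Σ(dα_i²+dβ_i²) - Σ(α dα_i+β dβ_i)²/η²]`
with `B > 0` of AV2 (right side minus left side), `Q ≥ 0` of AV3, and the bracket `≥ 0` (Cauchy-Schwarz,
`α²+β² = v ≤ η²`). `Φ (0,t₀) = 0` is `s = fm0 x - gm0 x η`. -/
def StAIM : Prop := ∀ (N : ℕ) (x₀ : EE N) (L : EE 2 →ₗᵢ[ℝ] EE N) (u : EE 2 × ℝ → EE N)
    (t₀ ε : ℝ), GraphSol x₀ L u t₀ → t₀ < 1 / 4 → 0 < ε → ε ≤ 1 / 1000 →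
    (∀ᶠ z in 𝓝 ((0 : EE 2), t₀), ‖grf x₀ L u z.2 z.1‖ ^ 2 = 1 - 4 * z.2) →
    ∀ Φ : EE 2 × ℝ → ℝ, Φ = (fun z => (1 - 4 * z.2) * (2 * Xf x₀ L u z - Yf x₀ L u z) / 4
      - fm0 ((1 - 4 * z.2) * Yf x₀ L u z / 4 - 1)
      + gm0 ((1 - 4 * z.2) * Yf x₀ L u z / 4 - 1) *
        Real.sqrt ((1 - 4 * z.2) ^ 2 * (Zf x₀ L u z - Yf x₀ L u z ^ 2 / 2) / 8 + ε ^ 2)) →
    ContDiffAt ℝ 2 Φ (0, t₀) ∧ (Φ (0, t₀) = 0 → jh Φ (0, t₀) < 0)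

/-! ### On the flow -/

section Defs

variable {N : ℕ} {M : Type} [TopologicalSpace M] [ChartedSpace (EE 2) M]

/-- `x = (1-4t)|H|²/4 - 1` -/
noncomputable def xS (F : M → ℝ → EE N) (q : M) (t : ℝ) : ℝ :=
  (1 - 4 * t) * ‖HH (n := 2) F q t‖ ^ 2 / 4 - 1
/-- `s = (1-4t)(2|A|² - |H|²)/4` -/
noncomputable def sS (F : M → ℝ → EE N) (q : M) (t : ℝ) : ℝ :=
  (1 - 4 * t) * (2 * AA (n := 2) F q t - ‖HH (n := 2) F q t‖ ^ 2) / 4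
/-- `v = (1-4t)²(Z - |H|⁴/2)/8` -/
noncomputable def vS (F : M → ℝ → EE N) (q : M) (t : ℝ) : ℝ :=
  (1 - 4 * t) ^ 2 * (ZF (n := 2) F q t - (‖HH (n := 2) F q t‖ ^ 2) ^ 2 / 2) / 8
/-- the test function of the pinching region -/
noncomputable def PhF (ε : ℝ) (F : M → ℝ → EE N) (q : M) (t : ℝ) : ℝ :=
  sS F q t - fm0 (xS F q t) + gm0 (xS F q t) * Real.sqrt (vS F q t + ε ^ 2)

end Defs

/-- SJ (hFR : StFR)(hI3J : StI3J)(hNR : StNR). Pointwise linear algebra for an immersed surface in the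
sphere of radius `r`, `r² = 1 - 4t`, one time (no jets of third order).

Proof. In the preferred chart at `q`: `f = loc F q t`, `⟨f,f⟩ = 1-4t` on the chart, so `⟨f,f_i⟩ = 0` and
`⟨f, f_ij⟩ = -g_ij`, hence `⟨f, sff_ij⟩ = -g_ij` (`f` is normal: `nrm` is symmetric and fixes `f`, NR). FR:
`P` with `Pᵀ g P = 1`; `B_ab = Σ P_ia P_jb sff_ij`, `⟨f,B_ab⟩ = -δ_ab`, `HH = B_00 + B_11`,
`AA = Σ‖B_ab‖²`, `ZF = Σ⟨B_ab,HH⟩²`. `m = (r/2)(B_00+B_11) + (1/r) f`, `a = (r/2)(B_00-B_11)`, `b = r B_01`.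
For `c ∈ ℝ²` with `|c| = 1`, `u = P c` has `Σ g_ij u_i u_j = 1` and
`Σ u_i u_j sff_ij = Σ c_a c_b B_ab = ½(B_00+B_11) + ½cosθ (B_00-B_11) + sinθ B_01` for
`c = (cos(θ/2), sin(θ/2))`. -/
def StSJ : Prop := ∀ (N : ℕ) (M : Type) [TopologicalSpace M] [ChartedSpace (EE 2) M]
    [IsManifold (𝓡 2) ∞ M] (J : Set ℝ) (F : M → ℝ → EE N), IsImmJ (n := 2) J F →
    ∀ t ∈ J, ∀ r : ℝ, 0 < r → r ^ 2 = 1 - 4 * t → (∀ q, ‖F q t‖ ^ 2 = 1 - 4 * t) → ∀ q : M,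
    ∃ m a b : EE N, xS F q t = ‖m‖ ^ 2 ∧ sS F q t = ‖a‖ ^ 2 + ‖b‖ ^ 2 ∧
      vS F q t = (inner ℝ m a : ℝ) ^ 2 + (inner ℝ m b : ℝ) ^ 2 ∧
      ∀ θ : ℝ, ∃ u : Fin 2 → ℝ,
        ∑ i, ∑ j, gram (loc (n := 2) F q t) (chartAt (EE 2) q q) i j * (u i * u j) = 1 ∧
        r • (∑ i, ∑ j, (u i * u j) • sff (loc (n := 2) F q t) (chartAt (EE 2) q q) i j)
          + (1 / r) • F q t = m + Real.cos θ • a + Real.sin θ • b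

/-- MPX (hC4J : StC4J)(hAIM : StAIM)(hMP : StMP). No first zero of the test function.

Proof. HasGChart at `(p₀,t₀)` (C4J): `L, u, θ`; near `(0,t₀)` the flow equals the graph, so `|grf|² = 1-4t`
there and `PhF ε F (θ z) z.2 = Φ z` of AIM. If `PhF ≤ 0` near `(p₀,t₀)` for `t ≤ t₀` then (continuity of `θ`)
`Φ z ≤ 0 = Φ (0,t₀)` for `z` near `(0,t₀)`, `z.2 ≤ t₀`; MP gives `0 ≤ jh Φ (0,t₀)`, AIM `< 0`. -/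
def StMPX : Prop := ∀ (N : ℕ) (M : Type) [TopologicalSpace M] [ChartedSpace (EE 2) M]
    [IsManifold (𝓡 2) ∞ M] (J : Set ℝ) (F : M → ℝ → EE N), IsMCFJ (n := 2) J F →
    (∀ q, ∀ t ∈ J, ‖F q t‖ ^ 2 = 1 - 4 * t) → ∀ (ε : ℝ) (p₀ : M), 0 < ε → ε ≤ 1 / 1000 →
    ∀ t₀ ∈ J, t₀ < 1 / 4 → PhF ε F p₀ t₀ = 0 →
    ¬ (∀ᶠ z in 𝓝 (p₀, t₀), z.2 ≤ t₀ → PhF ε F z.1 z.2 ≤ 0)

/-- MPT (hMPX : StMPX). The pinching is preserved.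

Proof. `M` compact. Suppose `PhF ε F q t ≥ 0` for some `q`, `t ∈ (0,T)`. The set
`B = {s ∈ [0,t] : ∃ q, 0 ≤ PhF ε F q s}` is compact (projection of the compact set
`{(q,s) ∈ M × [0,t] : 0 ≤ PhF}`, as `PhF` is continuous on `M × [0,T)`), let `t₀ = min B`, `t₀ > 0` and
`0 ≤ PhF p₀ t₀`; for `s < t₀` all `PhF < 0`, so by continuity `PhF q t₀ ≤ 0` for all `q` (`t₀ > 0`), so
`PhF p₀ t₀ = 0` and `PhF ≤ 0` on `M × [0,t₀]`. MPX. -/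
def StMPT : Prop := ∀ (N : ℕ) (M : Type) [TopologicalSpace M] [CompactSpace M]
    [ChartedSpace (EE 2) M] [IsManifold (𝓡 2) ∞ M] (T : ℝ) (F : M → ℝ → EE N), 0 < T →
    T ≤ 1 / 4 → IsMCFJ (n := 2) (Ioo 0 T) F → (∀ q, ∀ t ∈ Ioo 0 T, ‖F q t‖ ^ 2 = 1 - 4 * t) →
    ∀ ε : ℝ, 0 < ε → ε ≤ 1 / 1000 → CSTJ (Ico 0 T) (PhF ε F) → (∀ q, PhF ε F q 0 < 0) →
    ∀ q, ∀ t ∈ Ico 0 T, PhF ε F q t < 0

/-- INI (hCE0 : StCE0). The hypothesis `|h(u,u)|² < 1/3` implies the strict pinching.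

Proof. `v = 0`: with `c = (1/√2)(1,1)`-type directions the average of `‖m + a‖²` and `‖m - a‖²` (`θ = 0, π`)
gives `|m|² + |a|² < 1/3`, same for `b`; so `2x + s < 2/3`. In general let `n = (α,β)/√v` (`v > 0`;
if `v = 0` any unit vector), `a' = n₁a + n₂b`, `b' = -n₂a + n₁b`, and the two angles with
`cosθ a + sinθ b = (a' ± b')/√2`: the sum of the two hypotheses is `2x + s + 2√2 ⟨m,a'⟩ < 2/3`,
`⟨m,a'⟩ = √v`. CE0 (3). -/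
def StINI : Prop := ∀ (V : Type) [NormedAddCommGroup V] [InnerProductSpace ℝ V] (m a b : V)
    (x s v : ℝ), x = ‖m‖ ^ 2 → s = ‖a‖ ^ 2 + ‖b‖ ^ 2 →
    v = (inner ℝ m a : ℝ) ^ 2 + (inner ℝ m b : ℝ) ^ 2 →
    (∀ θ : ℝ, ‖m + Real.cos θ • a + Real.sin θ • b‖ ^ 2 < 1 / 3) →
    s < fm0 x - gm0 x * Real.sqrt v

end Helper35.MS
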