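import Mathlib
import Pool.Agent.Helper35.MS.StD

/-!
Project MS (MP_925021_gt), module statements, part E: analysis on a closed flow of surfaces
(functions evolving on the flow, level energies, mean value inequality, small energy regularity,
capacity estimates).  `J` open set of times, `μ_t = muM 2 F c χ t`, `Y = |H|²`, `θ = 2|A|² - |H|²`.
Every module may use, besides the listed hypotheses, all statements of part J (`StJ.lean`) and all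
proved statements of PI, PI2, CL (as hypotheses).
-/

set_option autoImplicit false

namespace Helper35.MS

open Helper35.PI Helper35.PI2 Helper32.CL
open scoped ContDiff Manifold Topology ENNReal BigOperators
open MeasureTheory Set Filter

section DefsE

variable {N : ℕ} {M : Type} [TopologicalSpace M] [ChartedSpace (EE 2) M]

/-- `Y = |H|²` -/
noncomputable def YF (F : M → ℝ → EE N) (q : M) (t : ℝ) : ℝ := ‖HH (n := 2) F q t‖ ^ 2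
/-- Laplacian on `M_t` of the function `u(·,t)` -/
noncomputable def lapF (F : M → ℝ → EE N) (u : M → ℝ → ℝ) (q : M) (t : ℝ) : ℝ :=
  dvg (n := 2) F (gdM 2 F t (fun q => u q t)) q t
/-- heat operator `∂_t u - Δ u` -/
noncomputable def htF (F : M → ℝ → EE N) (u : M → ℝ → ℝ) (q : M) (t : ℝ) : ℝ :=
  deriv (fun s => u q s) t - lapF F u q t

/-- a function on `M × J` which is regular enough to be tested -/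
structure Evo (J : Set ℝ) (F : M → ℝ → EE N) (u : M → ℝ → ℝ) : Prop where
  c0 : CSTJ J u
  c1 : CSTJ J (fun q t => deriv (fun s => u q s) t)
  hd : ∀ q, ∀ t ∈ J, HasDerivAt (fun s => u q s) (deriv (fun s => u q s) t) t
  sm : ∀ t ∈ J, ContMDiff (𝓡 2) 𝓘(ℝ, ℝ) 1 (fun q => u q t)
  gr : ∀ t ∈ J, ContMDiff (𝓡 2) 𝓘(ℝ, EE N) 1 (gdM 2 F t (fun q => u q t))
  og : ∀ t ∈ J, ∀ q, (inner ℝ (HH (n := 2) F q t) (gdM 2 F t (fun q => u q t) q) : ℝ) = 0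

/-- the pointwise facts which follow from the pinching, at all times in `J` -/
structure Pin (J : Set ℝ) (F : M → ℝ → EE N) (δ : ℝ) : Prop where
  δ0 : 0 < δ
  y4 : ∀ q, ∀ t ∈ J, 4 ≤ YF F q t
  th0 : ∀ q, ∀ t ∈ J, 0 ≤ thF 2 F q t
  th1 : ∀ q, ∀ t ∈ J, thF 2 F q t ≤ 2 / 3 * YF F q t
  g0 : ∀ q, ∀ t ∈ J, 0 ≤ g3F F q t
  g1 : ∀ q, ∀ t ∈ J, δ * (YF F q t * thF 2 F q t) ≤ g3F F q t
  gr : ∀ q, ∀ t ∈ J, ‖gdM 2 F t (fun q => YF F q t) q‖ ^ 2 ≤ 8 * (YF F q t * g3F F q t)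
  hY : ∀ q, ∀ t ∈ J, htF F (YF F) q t ≤ YF F q t ^ 2 + YF F q t * thF 2 F q t
  hth : ∀ q, ∀ t ∈ J, htF F (thF 2 F) q t ≤ 2 * (YF F q t * thF 2 F q t)
  hmx : ∀ q, ∀ t ∈ J, YF F q t ^ 2 - 4 * (YF F q t * thF 2 F q t)
    ≤ htF F (fun q t => YF F q t - 2 * thF 2 F q t) q t
  eY : Evo J F (YF F)
  eth : Evo J F (thF 2 F)
  emx : Evo J F (fun q t => YF F q t - 2 * thF 2 F q t)
  esm : Evo J F (fun q t => YF F q t + thF 2 F q t)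

variable [MeasurableSpace M]

/-- `∫ θ` -/
noncomputable def eI (F : M → ℝ → EE N) (c : ℕ → M) (χ : ℕ → M → ℝ) (t : ℝ) : ℝ :=
  ∫ q, thF 2 F q t ∂muM 2 F c χ t
/-- `∫ |H|²` -/
noncomputable def wI (F : M → ℝ → EE N) (c : ℕ → M) (χ : ℕ → M → ℝ) (t : ℝ) : ℝ :=
  ∫ q, YF F q t ∂muM 2 F c χ t
/-- `∫ g₃`, the dissipation -/
noncomputable def dI (F : M → ℝ → EE N) (c : ℕ → M) (χ : ℕ → M → ℝ) (t : ℝ) : ℝ :=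
  ∫ q, g3F F q t ∂muM 2 F c χ t
/-- area -/
noncomputable def arI (F : M → ℝ → EE N) (c : ℕ → M) (χ : ℕ → M → ℝ) (t : ℝ) : ℝ :=
  (muM 2 F c χ t).real univ
/-- `∫ (√(Y²+k²) - k)` -/
noncomputable def zI (k : ℝ) (F : M → ℝ → EE N) (c : ℕ → M) (χ : ℕ → M → ℝ) (t : ℝ) : ℝ :=
  ∫ q, (Real.sqrt (YF F q t ^ 2 + k ^ 2) - k) ∂muM 2 F c χ t
/-- area of `{|H| ≥ a}` -/
noncomputable def mL (F : M → ℝ → EE N) (c : ℕ → M) (χ : ℕ → M → ℝ) (t a : ℝ) : ℝ :=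
  (muM 2 F c χ t).real {q : M | a ≤ ‖HH (n := 2) F q t‖}
/-- energy `∫ |H|²` over `{|H| ≥ a}` -/
noncomputable def eL (F : M → ℝ → EE N) (c : ℕ → M) (χ : ℕ → M → ℝ) (t a : ℝ) : ℝ :=
  ∫ q in {q : M | a ≤ ‖HH (n := 2) F q t‖}, YF F q t ∂muM 2 F c χ t

end DefsE

/-! ### Jets with the graph -/

/-- MDS. As MDJ (`StJ.lean`, copy of `Helper18/CL/M_MD.lean`), with the graph in the conclusion.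

Proof. The proof of MD constructs the graphical solution `u` (C1, C2, C3: `f(y,s) = F (symm y) s`,
`grf s = f(·,s)∘ψ(·,s)` near `0`, so near `(0,t)` the point `grf (F q t) L u z.2 z.1 = f(ψ z, z.2)` is
`F q' z.2` with `q' = symm (ψ z)`) and sets `A = jgg u (0,t)`, `T = jggg u (0,t)`. -/
def StMDS : Prop := ∀ (n N : ℕ) (M : Type) [TopologicalSpace M] [ChartedSpace (EE n) M]
    [IsManifold (𝓡 n) ∞ M] (J : Set ℝ) (F : M → ℝ → EE N), IsMCFJ (n := n) J F →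
    ∀ (q : M) (t : ℝ), t ∈ J →
    ∃ (L : EE n →ₗᵢ[ℝ] EE N) (u : EE n × ℝ → EE N)
      (A : Fin n → Fin n → EE N) (T : Fin n → Fin n → Fin n → EE N) (ν : EE N)
      (v : Fin n → ℝ), GraphSol (F q t) L u t ∧ A = jgg u (0, t) ∧ T = jggg u (0, t) ∧
      (∀ᶠ z in 𝓝 ((0 : EE n), t), ∃ q', F q' z.2 = grf (F q t) L u z.2 z.1) ∧
      SymV A ∧ Sym3V T ∧
      AA (n := n) F q t = XX A ∧ HH (n := n) F q t = Hv A ∧ ZF (n := n) F q t = ZZ A ∧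
      (∀ l, wvF n l F q t = Wl l A ν) ∧ ‖F q t‖ ^ 2 = ‖ν‖ ^ 2 + ∑ k, v k ^ 2 ∧
      (inner ℝ (F q t) (HH (n := n) F q t) : ℝ) = inner ℝ ν (Hv A) ∧
      (∀ μ, ‖VF n μ F t q‖ ^ 2 = ∑ k, vk μ A T k ^ 2 ∧
        HasDerivAt (fun s => thF n F q s)
          (dvg (n := n) F (VF n μ F t) q t + 2 * (1 + μ) * hX A T - hY A T
            + 4 * μ * eq2 T - 4 * μ * AAH A) t) ∧
      ∀ (κ l : ℝ) (c : Co), c.Smooth →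
        ‖WFd n κ l c F t q‖ ^ 2 = Real.exp (-(κ * ‖F q t‖ ^ 2 / 2)) ^ 2 *
          ∑ k, (gph l c A T ν v k + Va κ c A v k) ^ 2 ∧
        dvg (n := n) F (WFd n κ l c F t) q t
          = Real.exp (-(κ * ‖F q t‖ ^ 2 / 2)) *
            (deriv (fun s => c.φ (i4F n l F q s)) t + dvA κ l c A T ν v)

/-! ### Functions on the flow -/

/-- EVB (hMLJ : StMLJ). Smooth functions of `(|A|²,|H|²,Z,·)` are `Evo`.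

Proof. MLJ with `κ = l = 0`, `c = cφ φ` (smooth): `WFd 2 0 0 (cφ φ) F t = gdM 2 F t (φ ∘ i4F)`. -/
def StEVB : Prop := ∀ (N : ℕ) (M : Type) [TopologicalSpace M] [ChartedSpace (EE 2) M]
    [IsManifold (𝓡 2) ∞ M] (J : Set ℝ) (F : M → ℝ → EE N), IsImmJ (n := 2) J F →
    ∀ φ : ℝ × ℝ × ℝ × ℝ → ℝ, ContDiff ℝ ∞ φ →
    Evo J F (fun q t => φ (i4F 2 0 F q t)) ∧
    ∀ q, ∀ t ∈ J, gdM 2 F t (fun q => φ (i4F 2 0 F q t)) q = WFd 2 0 0 (cφ φ) F t q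

/-- EVC (hPRJ : StPRJ). Composition with a function and addition of a function of time.

Proof. Let `w = ψ(u + a)`. Time: chain rule. Space, fixed `t`: PRJ: `gdM (ψ(u+a)) = ψ'(u+a) gdM (u+a)`
and `gdM (u + a) = gdM u` (definition; `ζ x = x + a t` in the rule of PRJ), `dvg (ψ'(u+a) • gdM u) =
ψ'(u+a) dvg (gdM u) + ⟨gdM (ψ'(u+a)), gdM u⟩`, `gdM (ψ'(u+a)) = ψ''(u+a) gdM u`. -/
def StEVC : Prop := ∀ (N : ℕ) (M : Type) [TopologicalSpace M] [ChartedSpace (EE 2) M]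
    [IsManifold (𝓡 2) ∞ M] (J : Set ℝ) (F : M → ℝ → EE N), IsImmJ (n := 2) J F →
    ∀ (u : M → ℝ → ℝ) (ψ a a' : ℝ → ℝ), Evo J F u → ContDiff ℝ ∞ ψ →
    (∀ t ∈ J, HasDerivAt a (a' t) t) → ContinuousOn a' J →
    Evo J F (fun q t => ψ (u q t + a t)) ∧
    ∀ q, ∀ t ∈ J,
      gdM 2 F t (fun q => ψ (u q t + a t)) q
        = deriv ψ (u q t + a t) • gdM 2 F t (fun q => u q t) q ∧
      htF F (fun q t => ψ (u q t + a t)) q t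
        = deriv ψ (u q t + a t) * (htF F u q t + a' t)
          - deriv (deriv ψ) (u q t + a t) * ‖gdM 2 F t (fun q => u q t) q‖ ^ 2

/-- PKG (hMDS : StMDS)(hSPH : StSPH)(hAV4 : StAV4)(hEVB : StEVB)(hT3 : StT3)(hPE : StPE)(hMLJ : StMLJ)
(hJID : StJID). The pointwise package.

Proof. `δ = ε/80`. Evo: EVB with the linear functions `p.2.1`, `2 p.1 - p.2.1`, `3 p.2.1 - 4 p.1`, `2 p.1`
of `p = i4F = (|A|²,|H|²,Z,·)`. At `(q,t)` take `L, u, A, T` from MDS. The sphere condition gives the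
hypothesis of SPH (`grf = F q' z.2` near the point), so `⟨A_ij, F⟩ = -δ_ij`, `⟨T_ijk,F⟩ = 0`. For linear `φ`
(`κ = l = 0`, `c = cφ φ`): `dvA = -hph = -φ(hX,hY,hZ,·)`, so `htF φ = φ(hX, hY, ..)` (compare
`Helper92/CL/M_GA.lean`, `M_SG`): `htF Y = hY = -2 eq2 + 2 ZZ`, `htF θ = 2hX - hY = -4 tq + 2 eq2 + 4 Sq - 2 ZZ`.
Let `P = A_00 - A_11`, `Q = 2 A_01`, `H`. `ZZ = (YY² + ⟨P,H⟩² + ⟨Q,H⟩²)/2` and `⟨P,H⟩²+⟨Q,H⟩² ≤ Yθ`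
(`θ = |P|²+|Q|²`), so `Y² ≤ 2 ZZ ≤ Y² + Yθ`: `hY`. PE (`μ = 0`): `4 Sq - 2 ZZ ≤ Yθ + (3/2)θ² ≤ 2Yθ`
(`θ ≤ (2/3)Y`). T3: `3 eq2 ≤ 4 tq`, so `htF θ ≤ 2Yθ`; `htF (Y-2θ) = 3hY - 4hX = 8tq - 6eq2 + 6ZZ - 8Sq ≥
2ZZ - 2(4Sq - 2ZZ) ≥ Y² - 4Yθ`. `g3F = Yθ - (∂_tθ - dvg V)`, `V = VF 2 (1/2)`: MDS with `μ = 1/2` (and
uniqueness of derivatives): `g3F = 6tq - 4eq2 - (6Sq - 2ZZ - 2AAH - Yθ)`, `6tq - 4eq2 ≥ ½ eq2 ≥ 0`. PE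
(`μ = 1/2`): `6Sq - 2ZZ - 2AAH - Yθ = ⟨P,H⟩²+⟨Q,H⟩² - (3/2)((Y - (3/2)θ)θ + ½((|P|²-|Q|²)²+4⟨P,Q⟩²))`. With the
vectors `m, a, b` of JID (`r = √(1-4t)`, `P = (2/r)a`, `Q = (2/r)b`, `r2 YY = 4(1+x)`, `r2 θ = 4s`,
`r2²(⟨P,H⟩²+⟨Q,H⟩²) = 16 v`, `r2²((|P|²-|Q|²)²+4⟨P,Q⟩²) = 16(s² - 4D)`): `r2²(6Sq - ..) =
16v - 24(1+x)s + 24s² + 48D ≤ -4(ε/20)(1+x)s = -(ε/80) r2² Yθ` by AV4; also `s ≤ (2/3)(1+x)`, i.e.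
`θ ≤ (2/3)Y`. `‖gdM Y‖² = Σ gY² = 4Σ⟨H,et_k⟩² ≤ 4 Y eq2 ≤ 8 Y g3F` (EVB, MDS). `Y ≥ 4/(1-4t) ≥ 4`: `x ≥ 0`,
`0 ≤ t`. -/
def StPKG : Prop := ∀ (N : ℕ) (M : Type) [TopologicalSpace M] [ChartedSpace (EE 2) M]
    [IsManifold (𝓡 2) ∞ M] (J : Set ℝ) (F : M → ℝ → EE N), IsMCFJ (n := 2) J F →
    J ⊆ Ico 0 (1 / 4) → (∀ q, ∀ t ∈ J, ‖F q t‖ ^ 2 = 1 - 4 * t) → ∀ ε : ℝ, 0 < ε →
    ε ≤ 1 / 1000 → (∀ q, ∀ t ∈ J, PhF ε F q t ≤ 0) →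
    Pin J F (ε / 80) ∧ ∀ q, ∀ t ∈ J, 4 / (1 - 4 * t) ≤ YF F q t

/-! ### Integral identities -/

/-- ENE (hTDJ : StTDJ)(hFVJ : StFVJ)(hMUJ : StMUJ)(hMAJ : StMAJ)(hMLJ : StMLJ)(hENJ : StENJ)(hI4J : StI4J).
Energy, Willmore energy, area.

Proof. `e' = ∫ (∂_tθ - Yθ) = ∫ (dvg V - g₃) = -∫ g₃` (TDJ, `θ` is linear in `i4F`: MLJ; `V = VF 2 (1/2) F t`:
MAJ, FVJ; continuity in `q` of `g₃`: FVJ for `V`, MLJ for `∂_tθ`). `Y - θ = 2(Y - |A|²)`: ENJ. Area: TDJ with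
`g = 1`, `g' = 0`. `W' = e' + 0`. -/
def StENE : Prop := ∀ (N : ℕ) (M : Type) [TopologicalSpace M] [T2Space M]
    [CompactSpace M] [MeasurableSpace M] [BorelSpace M]
    [ChartedSpace (EE 2) M] [IsManifold (𝓡 2) ∞ M] (J : Set ℝ) (F : M → ℝ → EE N) (c : ℕ → M)
    (χ : ℕ → M → ℝ), SetupF 2 J F c χ → ∀ t ∈ J,
    Continuous (fun q => g3F F q t) ∧
    HasDerivAt (eI F c χ) (-dI F c χ t) t ∧ HasDerivAt (wI F c χ) (-dI F c χ t) t ∧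
    HasDerivAt (arI F c χ) (-wI F c χ t) t

/-- LEV (hENE : StENE)(hEVC : StEVC)(hTDJ : StTDJ)(hFVJ : StFVJ)(hPRJ : StPRJ)(hMUJ : StMUJ). Level energies.

Proof. `ψ(x) = √(x²+k²) - k`, smooth, `ψ' = x/√(x²+k²) ∈ [0,1)` for `x ≥ 0`, `ψ'' > 0`, `xψ' - ψ =
k - k²/√(x²+k²) ∈ [0,k]`. TDJ for `ψ(Y)` (`Evo` by EVC with `a = 0`): derivative
`∫ (ψ'(Y) ∂_tY - Yψ(Y))`; `∂_tY = ΔY + htF Y ≤ ΔY + Y² + Yθ`; `∫ ψ'(Y) ΔY = -∫ ψ''(Y)‖gdM Y‖² ≤ 0` (FVJ for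
the field `ψ'(Y) gdM Y`, PRJ). So it is `≤ ∫ (Y(Yψ' - ψ) + ψ'Yθ) ≤ k W + ∫ Yθ ≤ kW + dI/δ`. Hence
`t ↦ zI k + eI/δ` has derivative `≤ k W(t) ≤ k W(t₁)` on `[t₁,t₂]` (`W` is nonincreasing, ENE). -/
def StLEV : Prop := ∀ (N : ℕ) (M : Type) [TopologicalSpace M] [T2Space M]
    [CompactSpace M] [MeasurableSpace M] [BorelSpace M]
    [ChartedSpace (EE 2) M] [IsManifold (𝓡 2) ∞ M] (J : Set ℝ) (F : M → ℝ → EE N) (c : ℕ → M)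
    (χ : ℕ → M → ℝ) (δ : ℝ), SetupF 2 J F c χ → Pin J F δ → ∀ (k t₁ t₂ : ℝ), 0 < k → t₁ ≤ t₂ →
    Icc t₁ t₂ ⊆ J → zI k F c χ t₂ + eI F c χ t₂ / δ
      ≤ zI k F c χ t₁ + eI F c χ t₁ / δ + k * wI F c χ t₁ * (t₂ - t₁)

/-- GAU (hPRJ : StPRJ)(hFVJ : StFVJ)(hMUJ : StMUJ)(hI4J : StI4J). Area growth.

Proof. Field `ζ(s)(F - y)`, `s = |F-y|²`, `ζ(s) = 1/(1+λs)` for `s ≥ 0` (extended to a `C¹` function on `ℝ`,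
e.g. by its tangent line for `s < 0`). PRJ (`ρ` = the function `r`): `dvg = 2ζ + 2ζ'ρ =
2(ζ + ζ's) + 2|ζ'|(s-ρ)`, `ζ + ζ's = (1+λs)⁻²`, `|ζ'| = λ(1+λs)⁻²`, and
`|⟨H, ζ(F-y)⟩| ≤ ζ|H|√(s-ρ) ≤ 2|ζ'|(s-ρ) + |H|²ζ²/(8|ζ'|)`, `ζ²/(8|ζ'|) = 1/(8λ)`. FVJ:
`2∫(1+λs)⁻² ≤ W/(8λ)`. Second part: `λ = 1/(8σ)`, `e^{-u} ≤ (3/2)(1+u)⁻²` for `u ≥ 0` (`(1+u)²e^{-u} ≤ 4/e`). -/
def StGAU : Prop := ∀ (N : ℕ) (M : Type) [TopologicalSpace M] [T2Space M]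
    [CompactSpace M] [MeasurableSpace M] [BorelSpace M]
    [ChartedSpace (EE 2) M] [IsManifold (𝓡 2) ∞ M] (J : Set ℝ) (F : M → ℝ → EE N) (c : ℕ → M)
    (χ : ℕ → M → ℝ), SetupJ 2 J F c χ → ∀ t ∈ J, ∀ y : EE N,
    (∀ l : ℝ, 0 < l → ∫ q, ((1 + l * ‖F q t - y‖ ^ 2) ^ 2)⁻¹ ∂muM 2 F c χ t
      ≤ wI F c χ t / (16 * l)) ∧
    ∀ σ : ℝ, 0 < σ → ∫ q, Real.exp (-(‖F q t - y‖ ^ 2 / (8 * σ))) ∂muM 2 F c χ t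
      ≤ 3 / 4 * σ * wI F c χ t

/-! ### Mean value inequality -/

/-- HUK (hPRJ : StPRJ)(hFVJ : StFVJ)(hTDJ : StTDJ)(hMUJ : StMUJ)(hI4J : StI4J). Huisken's monotonicity
formula with a weight.

Proof. `τ = ts - t > 0`, `x = F - y`, `Φ = (4πτ)⁻¹ exp(-|x|²/(4τ))`; `∂_tΦ = Φ(1/τ - |x|²/(4τ²) -
⟨x,H⟩/(2τ))` (flow). Fixed `t`, `V = gdM u`: the field `X = Φ V + (uΦ/(2τ)) x`, with PRJ (`Φ = ζ(|x|²)`,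
`ζ s = (4πτ)⁻¹e^{-s/(4τ)}`; `⟨gdM Φ, V⟩ = -Φ⟨x,V⟩/(2τ)` as `V` is tangent; `⟨gdM u, x⟩ = ⟨V,x⟩`;
`dvg (Φ x) = 2Φ - Φρ/(2τ)`): `dvg X = Φ dvg V - Φ⟨x,V⟩/(2τ) + Φ⟨V,x⟩/(2τ) + (u/(2τ))(2Φ - Φρ/(2τ))
= Φ dvg V + uΦ(1/τ - ρ/(4τ²))`, `⟨H,X⟩ = uΦ⟨H,x⟩/(2τ)` (`⟨H,V⟩ = 0`). FVJ, TDJ: the derivative of `∫uΦ` is
`∫ [∂_tu Φ + u∂_tΦ - YuΦ] = ∫ (∂_tu - dvg V)Φ - ∫ uΦ ((|x|²-ρ)/(4τ²) + ⟨H,x⟩/τ + Y)` and the last bracket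
is `≥ 0`: `⟨H,x⟩² ≤ Y(|x|²-ρ)` (PRJ). The kernel is defined for `t < ts` only: use TDJ on `J ∩ (-∞,ts)`
(restrict the setup to this open set). -/
def StHUK : Prop := ∀ (N : ℕ) (M : Type) [TopologicalSpace M] [T2Space M]
    [CompactSpace M] [MeasurableSpace M] [BorelSpace M]
    [ChartedSpace (EE 2) M] [IsManifold (𝓡 2) ∞ M] (J : Set ℝ) (F : M → ℝ → EE N) (c : ℕ → M)
    (χ : ℕ → M → ℝ), SetupF 2 J F c χ → ∀ (u : M → ℝ → ℝ) (y : EE N) (ts : ℝ), Evo J F u →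
    ∀ Φ : M → ℝ → ℝ, Φ = (fun q t => (4 * Real.pi * (ts - t))⁻¹
      * Real.exp (-(‖F q t - y‖ ^ 2 / (4 * (ts - t))))) →
    ∀ t ∈ J, t < ts → (∀ q, 0 ≤ u q t) →
    ∃ D : ℝ, HasDerivAt (fun t => ∫ q, u q t * Φ q t ∂muM 2 F c χ t) D t ∧
      D ≤ ∫ q, htF F u q t * Φ q t ∂muM 2 F c χ t

/-- MVI (hHUK : StHUK)(hSBJ : StSBJ)(hMUJ : StMUJ)(hFVJ : StFVJ). Mean value inequality.

Proof. `x₀ = F p t₀`, `0 < σ ≤ t₀ - t₁`, `ts = t₀ + σ`, `Φ` as in HUK. On `[t₁,t₀]`: the derivative of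
`e^{-κt} ∫uΦ` is `≤ e^{-κt} ∫ (htF u - κu)Φ ≤ 0` (`u` is continuous, `htF u` continuous in `q`: FVJ), so
`∫uΦ dμ_{t₀} ≤ e^{κ(t₀-t₁)} ∫uΦ dμ_{t₁}`. Left side, `σ → 0`: for `η > 0` let `U = {u(·,t₀) > u(p,t₀) - η}`;
SBJ with `ε = 2√σ`: `∫uΦ dμ_{t₀} ≥ (u(p,t₀)-η)(4πσ)⁻¹e^{-1}(1-η)π·4σ = (u(p,t₀)-η)(1-η)/e` (if
`u(p,t₀) - η ≥ 0`). Right side: `Φ(·,t₁) ≤ (4π(t₀-t₁))⁻¹ exp(-|F - x₀|²/(8(t₀-t₁)))`. So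
`u(p,t₀) ≤ (e/(4π)) e^{κ(t₀-t₁)} (t₀-t₁)⁻¹ ∫ ..` and `e/(4π) ≤ 1/4`. -/
def StMVI : Prop := ∀ (N : ℕ) (M : Type) [TopologicalSpace M] [T2Space M]
    [CompactSpace M] [MeasurableSpace M] [BorelSpace M]
    [ChartedSpace (EE 2) M] [IsManifold (𝓡 2) ∞ M] (J : Set ℝ) (F : M → ℝ → EE N) (c : ℕ → M)
    (χ : ℕ → M → ℝ), SetupF 2 J F c χ → ∀ (u : M → ℝ → ℝ) (κ t₁ t₀ : ℝ), Evo J F u → 0 ≤ κ →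
    t₁ < t₀ → Icc t₁ t₀ ⊆ J → (∀ q, ∀ t ∈ Icc t₁ t₀, 0 ≤ u q t) →
    (∀ q, ∀ t ∈ Icc t₁ t₀, htF F u q t ≤ κ * u q t) → ∀ p : M,
    u p t₀ ≤ 1 / 4 * Real.exp (κ * (t₀ - t₁)) / (t₀ - t₁) *
      ∫ q, u q t₁ * Real.exp (-(‖F q t₁ - F p t₀‖ ^ 2 / (8 * (t₀ - t₁)))) ∂muM 2 F c χ t₁

/-- PPV (hMVI : StMVI)(hEVC : StEVC)(hMUJ : StMUJ). The positive part.

Proof. For `η > 0` let `ψ(x) = (x + √(x²+η²))/2` (smooth, `ψ' ≥ 0`, `ψ'' ≥ 0`, `x⁺ ≤ ψ(x) ≤ x⁺ + η`). EVC with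
`a t = -b(t-t₁) - l`: `w = ψ(u - b(t-t₁) - l)` is `Evo`, `htF w = ψ'(htF u - b) - ψ''‖gdM u‖² ≤ 0`. MVI with
`κ = 0`, the exponential is `≤ 1`; let `η → 0`. -/
def StPPV : Prop := ∀ (N : ℕ) (M : Type) [TopologicalSpace M] [T2Space M]
    [CompactSpace M] [MeasurableSpace M] [BorelSpace M]
    [ChartedSpace (EE 2) M] [IsManifold (𝓡 2) ∞ M] (J : Set ℝ) (F : M → ℝ → EE N) (c : ℕ → M)
    (χ : ℕ → M → ℝ), SetupF 2 J F c χ → ∀ (u : M → ℝ → ℝ) (b l t₁ t₀ : ℝ), Evo J F u →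
    t₁ < t₀ → Icc t₁ t₀ ⊆ J → (∀ q, ∀ t ∈ Icc t₁ t₀, htF F u q t ≤ b) → ∀ p : M,
    u p t₀ ≤ l + b * (t₀ - t₁)
      + 1 / 4 / (t₀ - t₁) * ∫ q, max 0 (u q t₁ - l) ∂muM 2 F c χ t₁

/-- EPS (hMVI : StMVI)(hGAU : StGAU)(hMUJ : StMUJ). Small energy regularity.

Proof. Let `Λ = (t₀-t₁) λ`, `λ = Y(p₀,t₀)`, be the maximum of `(t-t₁)Y(p,t)` on the compact
`M × [t₁,t₂]`. If `Λ ≤ 1` done. Otherwise `t' = t₀ - 1/(2λ) > t₁ + (t₀-t₁)/2`, and on `[t',t₀]`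
`Y ≤ Λ/(t-t₁) ≤ 2λ`, `htF Y ≤ Y² + Yθ ≤ (5/3)Y² ≤ (10/3)λY`. MVI (`κ = (10/3)λ`, `κ(t₀-t') = 5/3`,
`e^{5/3} ≤ 5.3`, `8(t₀-t') = 4/λ`): `λ ≤ (1/4)·5.3·2λ ∫ Y e^{-λ|F-x₀|²/4} dμ_{t'}`, so the integral is
`≥ 3/8`. And `Y ≤ 2k + 2(√(Y²+k²) - k)` (if `Y ≥ 2k` then `√(..) - k ≥ Y - k ≥ Y/2`), so it is
`≤ 2k·(3/4)(1/(2λ)) W + 1/50` (GAU, `σ = 1/(2λ)`). Hence `3/8 - 1/50 ≤ (3/4)kW̄/λ`, `λ ≤ 3kW̄` and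
`Λ ≤ 3kW̄(t₂-t₁)`. -/
def StEPS : Prop := ∀ (N : ℕ) (M : Type) [TopologicalSpace M] [T2Space M]
    [CompactSpace M] [MeasurableSpace M] [BorelSpace M]
    [ChartedSpace (EE 2) M] [IsManifold (𝓡 2) ∞ M] (J : Set ℝ) (F : M → ℝ → EE N) (c : ℕ → M)
    (χ : ℕ → M → ℝ) (δ : ℝ), SetupF 2 J F c χ → Pin J F δ → ∀ (k wb t₁ t₂ : ℝ), 0 < k →
    t₁ < t₂ → Icc t₁ t₂ ⊆ J → (∀ t ∈ Icc t₁ t₂, wI F c χ t ≤ wb ∧ zI k F c χ t ≤ 1 / 100) →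
    ∀ p, ∀ t ∈ Icc t₁ t₂, (t - t₁) * YF F p t ≤ max 1 (3 * k * wb * (t₂ - t₁))

/-- TI (hLEV : StLEV)(hEPS : StEPS)(hENE : StENE)(hMUJ : StMUJ). Small energy at one time.

Proof. For `t ∈ [t₁,t₂]`: LEV: `zI k t ≤ zI k t₁ + (eI t₁ - eI t)/δ + k W(t₁)(t-t₁) ≤ 1/200 + 1/400 +
1/400` (`eI t ≥ 0`), `W(t) ≤ W(t₁) =: wb` (ENE), and EPS with `3k wb (t₂-t₁) ≤ 3/400 ≤ 1`. -/
def StTI : Prop := ∀ (N : ℕ) (M : Type) [TopologicalSpace M] [T2Space M]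
    [CompactSpace M] [MeasurableSpace M] [BorelSpace M]
    [ChartedSpace (EE 2) M] [IsManifold (𝓡 2) ∞ M] (J : Set ℝ) (F : M → ℝ → EE N) (c : ℕ → M)
    (χ : ℕ → M → ℝ) (δ : ℝ), SetupF 2 J F c χ → Pin J F δ → ∀ (k t₁ t₂ : ℝ), 0 < k →
    t₁ < t₂ → Icc t₁ t₂ ⊆ J → zI k F c χ t₁ ≤ 1 / 200 → eI F c χ t₁ ≤ δ / 400 →
    k * wI F c χ t₁ * (t₂ - t₁) ≤ 1 / 400 → ∀ p, (t₂ - t₁) * YF F p t₂ ≤ 1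

/-! ### Capacity estimates, one time -/

/-- SIM (hPRJ : StPRJ)(hFVJ : StFVJ)(hSBJ : StSBJ)(hMUJ : StMUJ)(hI4J : StI4J). Sharp inequality of
Simon with a test function; compare `Helper21/CL/M_MR.lean`.

Proof. `y = F q t`, `ζ(s) = 1/(s+ε²)`, field `h ζ(|x|²) x`, `x = F - y`. PRJ: `dvg = h(2ζ+2ζ'ρ) +
ζ⟨gdM h,x⟩`, `2ζ+2ζ'ρ ≥ 2ε²/(s+ε²)² + 2(s-ρ)/(s+ε²)²` and `|⟨H, hζx⟩| ≤ h(2(s-ρ)/(s+ε²)² + |H|²/8)`.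
FVJ: `∫ h 2ε²/(s+ε²)² ≤ (1/8)∫ h|H|² + ∫ k|x|/(s+ε²) ≤ (1/8)∫hY + ∫⁻ k/|x|`. Lower bound of the left side,
`ε → 0`: sharp constant `2π h(q)`. For `η > 0` and `R > 0`: on `U = {h > h(q)-η}`, by SBJ
`μ(U ∩ {|x| ≤ r}) ≥ (1-η)πr²` for `r ≤ r₀`; layer cake: `2ε²/(s+ε²)² = ∫_{√s}^∞ 8ε²r/(r²+ε²)³ dr`, so
`∫_U 2ε²/(s+ε²)² ≥ ∫_0^{r₀} 8ε²r/(r²+ε²)³ (1-η)πr² dr → (1-η)2π` as `ε → 0` (`∫_0^∞ 8ε²r³/(r²+ε²)³dr = 2`).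
(Or with finitely many levels: `2ε²/(s+ε²)² ≥ Σ_j (φ(r_{j+1}) ..)1_{|x| ≤ r_j}`, `r_j = jε/m`.) -/
def StSIM : Prop := ∀ (N : ℕ) (M : Type) [TopologicalSpace M] [T2Space M] [CompactSpace M]
    [MeasurableSpace M] [BorelSpace M] [ChartedSpace (EE 2) M] [IsManifold (𝓡 2) ∞ M]
    (J : Set ℝ) (F : M → ℝ → EE N) (c : ℕ → M) (χ : ℕ → M → ℝ), SetupJ 2 J F c χ → ∀ t ∈ J,
    ∀ h k : M → ℝ, ContMDiff (𝓡 2) 𝓘(ℝ, ℝ) 1 h → Continuous k → (∀ q, 0 ≤ h q) →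
    (∀ q, ‖gdM 2 F t h q‖ ≤ k q) → ∀ q : M,
      ENNReal.ofReal (16 * Real.pi * h q)
        ≤ ENNReal.ofReal (∫ p, h p * YF F p t ∂muM 2 F c χ t)
          + 8 * ∫⁻ p, ENNReal.ofReal (k p / ‖F p t - F q t‖) ∂muM 2 F c χ t

/-- HAR (hPRJ : StPRJ)(hFVJ : StFVJ)(hMUJ : StMUJ)(hI4J : StI4J). Potential estimate.

Proof. `S = s + ε²`, `s = |F-y|²`, `R > 0`, `ζ = 1/(√S + S/R)` (`C¹` for `s ≥ 0`; extend it). PRJ: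
`dvg (ζx) = 2ζ + 2ζ'ρ ≥ 2(ζ + Sζ') + 2|ζ'|(s-ρ)` and `ζ + Sζ' = (1/(2√S))(1+√S/R)⁻²`;
`|ζ⟨H,x⟩| ≤ 2|ζ'|(s-ρ) + |H|²ζ²/(8|ζ'|)`, `ζ²/(8|ζ'|) = 1/(8(1/(2√S)+1/R)) ≤ R/8`. FVJ:
`∫ S^{-1/2}(1+√S/R)⁻² ≤ (R/8)W`; `ε → 0`: `∫⁻ 1/(|x|(1+|x|/R)²) ≤ (R/8)W` (monotone convergence/Fatou;
`1/0 = 0` in Lean). On `|x| ≤ R`: `1/|x| ≤ 4/(|x|(1+|x|/R)²)`; so `∫⁻_P 1/|x| ≤ RW/2 + μ(P)/R` for all
`R > 0`. Optimise: `R = √(2μ(P)/W)` (if `μ(P) = 0` the left side is `0`; if `W = 0`, `R → ∞`). -/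
def StHAR : Prop := ∀ (N : ℕ) (M : Type) [TopologicalSpace M] [T2Space M] [CompactSpace M]
    [MeasurableSpace M] [BorelSpace M] [ChartedSpace (EE 2) M] [IsManifold (𝓡 2) ∞ M]
    (J : Set ℝ) (F : M → ℝ → EE N) (c : ℕ → M) (χ : ℕ → M → ℝ), SetupJ 2 J F c χ → ∀ t ∈ J,
    ∀ P : Set M, MeasurableSet P → ∀ y : EE N,
      ∫⁻ q in P, ENNReal.ofReal (1 / ‖F q t - y‖) ∂muM 2 F c χ t
        ≤ ENNReal.ofReal (Real.sqrt (2 * wI F c χ t * (muM 2 F c χ t).real P))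

/-- SIA (hSIM : StSIM)(hHAR : StHAR)(hMUJ : StMUJ)(hI4J : StI4J). SIM averaged over a set.

Proof. Integrate SIM over `q ∈ P` (with respect to `μ`) and use Tonelli (second countable, finite
measure; compare `Helper26/CL/M_MS.lean`): `∫⁻_{q∈P} ∫⁻_p k(p)/|F p - F q| = ∫⁻_p k(p) ∫⁻_{q∈P} 1/|..|
≤ (∫ k) √(2Wμ(P))` (HAR with `y = F p t`). -/
def StSIA : Prop := ∀ (N : ℕ) (M : Type) [TopologicalSpace M] [T2Space M] [CompactSpace M]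
    [SecondCountableTopology M]
    [MeasurableSpace M] [BorelSpace M] [ChartedSpace (EE 2) M] [IsManifold (𝓡 2) ∞ M]
    (J : Set ℝ) (F : M → ℝ → EE N) (c : ℕ → M) (χ : ℕ → M → ℝ), SetupJ 2 J F c χ → ∀ t ∈ J,
    ∀ h k : M → ℝ, ContMDiff (𝓡 2) 𝓘(ℝ, ℝ) 1 h → Continuous k → (∀ q, 0 ≤ h q) →
    (∀ q, ‖gdM 2 F t h q‖ ≤ k q) → ∀ P : Set M, MeasurableSet P →
      16 * Real.pi * ∫ q in P, h q ∂muM 2 F c χ t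
        ≤ (muM 2 F c χ t).real P * (∫ q, h q * YF F q t ∂muM 2 F c χ t)
          + 8 * Real.sqrt (2 * wI F c χ t * (muM 2 F c χ t).real P)
            * ∫ q, k q ∂muM 2 F c χ t

/-- CAP (hSIA : StSIA)(hPRJ : StPRJ)(hMUJ : StMUJ)(hENE : StENE)(hI4J : StI4J). Capacity estimate for the level
sets of `w = |H|`.

Proof. `w = √Y` is `C¹` (`Y ≥ 4 > 0`, compose with a smooth function equal to `√` on `[4,∞)`),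
`‖gdM w‖² = ‖gdM Y‖²/(4Y) ≤ 2 g₃`. Let `χ₀(x)` be `0` for `x ≤ a/2`, `1` for `x ≥ a` and `3τ²-2τ³`,
`τ = 2x/a - 1`, in between: `C¹`, `0 ≤ χ₀' ≤ 3/a`. SIA with `h = χ₀(w)`, `k = χ₀'(w)‖gdM w‖`,
`P = {w ≥ a}`: `∫_P h = μ(P) = mL a`, `∫ hY ≤ eL (a/2)`, `∫ k ≤ (3/a) ∫_{w ≥ a/2} ‖gdM w‖ ≤
(3/a) √(mL (a/2)) √(2 dI)`. `8·√2·3·√2 = 48`. -/
def StCAP : Prop := ∀ (N : ℕ) (M : Type) [TopologicalSpace M] [T2Space M] [CompactSpace M]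
    [SecondCountableTopology M]
    [MeasurableSpace M] [BorelSpace M] [ChartedSpace (EE 2) M] [IsManifold (𝓡 2) ∞ M]
    (J : Set ℝ) (F : M → ℝ → EE N) (c : ℕ → M) (χ : ℕ → M → ℝ) (δ : ℝ), SetupF 2 J F c χ →
    Pin J F δ → ∀ t ∈ J, ∀ a : ℝ, 0 < a →
      16 * Real.pi * mL F c χ t a ≤ mL F c χ t a * eL F c χ t (a / 2)
        + 48 / a * Real.sqrt (wI F c χ t * dI F c χ t)
          * Real.sqrt (mL F c χ t a * mL F c χ t (a / 2))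

/-- POI (hSIA : StSIA)(hPRJ : StPRJ)(hMUJ : StMUJ)(hENE : StENE)(hI4J : StI4J). `|H|` is nearly constant.

Proof. `A = arI`, `W = wI`, `w = |H|`, `wb = √(16π/A)`. SIA with `P = M` for `h = f` and `h = 1 - f`,
`f = w/(w+wb) ∈ (0,1)`, `‖gdM f‖ ≤ ‖gdM w‖/wb =: k` (`C¹` as in CAP): the second one gives
`A∫fY - 16π∫f ≤ A(W-16π) + 8√(2WA)∫k`. And `½(w-wb)² = (f-½)(w²-wb²)` integrates to
`∫fY - (16π/A)∫f - ½(W-16π) ≤ ½(W-16π) + 8√(2W/A) ∫k`, `∫k ≤ (1/wb)√A√(2 dI)`; total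
`½(W-16π) + 16√(W dI)/wb`, `16/wb = 4√(A/π)`. So `∫(w-wb)² ≤ (W-16π) + (8/√π)√(W A dI)`, `8/√π ≤ 5`. -/
def StPOI : Prop := ∀ (N : ℕ) (M : Type) [TopologicalSpace M] [T2Space M] [CompactSpace M]
    [SecondCountableTopology M] [Nonempty M]
    [MeasurableSpace M] [BorelSpace M] [ChartedSpace (EE 2) M] [IsManifold (𝓡 2) ∞ M]
    (J : Set ℝ) (F : M → ℝ → EE N) (c : ℕ → M) (χ : ℕ → M → ℝ) (δ : ℝ), SetupF 2 J F c χ →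
    Pin J F δ → ∀ t ∈ J,
      ∫ q, (‖HH (n := 2) F q t‖ - Real.sqrt (16 * Real.pi / arI F c χ t)) ^ 2 ∂muM 2 F c χ t
        ≤ wI F c χ t - 16 * Real.pi
          + 5 * Real.sqrt (wI F c χ t * arI F c χ t * dI F c χ t)

/-- BLR. Real analysis: the bubble lemma.

Proof. (1) If `a ≥ a₀` and `e(a/2) ≤ 8π`: `8π m(a) ≤ (B/a)√(m(a)m(a/2))`, so `m(a) ≤ κ m(a/2)`,
`κ = (B/(8πa))² ≤ 1/16`. The same holds at `2^j a` (`e(2^j a/2) ≤ 8π`), so `m(2^j a) ≤ 16^{-j} κ m(a/2)`,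
`e(a) = Σ_j (e(2^j a) - e(2^{j+1}a)) ≤ Σ 4·4^j a² m(2^j a) ≤ (16/3)κ a² m(a/2) ≤ (64/3) κ e(a/2) ≤
(64/3)(8π)κ ≤ (B/a)²` (finitely many terms are not `0`). (2) So `e(a₀/2) > 8π` (otherwise
`e(a₀) ≤ (B/a₀)² < ε₀`). Let `j ≥ 0` be maximal with `e(2^j a₀/2) > 8π`, `a = 2^j a₀`; then `e(a) ≤ 8π` and (1)
at `2a`: `e(2a) ≤ (B/(2a))² ≤ 1/4`. `8π - 1/4 ≤ e(a/2) - e(2a) ≤ a² m(a/2) + 4a² m(a) ≤ 5a² m(a/2)`, so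
`m(a/2) ≥ 4/a²`. `m(a/4) ≤ 16 e(a/4)/a² ≤ 16W/a²`. The inequality at `a/2`:
`16π ≤ e(a/4) + (2B/a)√(m(a/4)/m(a/2)) ≤ e(a/4) + (4B/a)√W ≤ e(a₀/4) + 4√W B/a₀`. -/
def StBLR : Prop := ∀ (m e : ℝ → ℝ) (B W a₀ ε₀ A₀ : ℝ), 0 ≤ B → 0 < a₀ → 0 < ε₀ →
    (∀ a b, 0 < a → a ≤ b → m b ≤ m a ∧ e b ≤ e a) → (∀ a, 0 < a → 0 ≤ m a ∧ 0 ≤ e a) →
    (∀ a, 0 < a → a ^ 2 * m a ≤ e a ∧ e a - e (2 * a) ≤ 4 * a ^ 2 * m a ∧ e a ≤ W) →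
    (∀ a, A₀ ≤ a → e a = 0) →
    (∀ a, 0 < a → 16 * Real.pi * m a ≤ m a * e (a / 2) + B / a * Real.sqrt (m a * m (a / 2))) →
    B ≤ a₀ → B ^ 2 < ε₀ * a₀ ^ 2 → ε₀ ≤ e a₀ →
    16 * Real.pi - 4 * Real.sqrt W * B / a₀ ≤ e (a₀ / 4)

/-- LVL (hMUJ : StMUJ)(hI4J : StI4J). Elementary properties of `mL`, `eL` (one time).

Proof. Chebyshev and monotonicity; `Y < 4a²` on `{a ≤ |H| < 2a}`; `|H|` is bounded on the compact `M`. -/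
def StLVL : Prop := ∀ (N : ℕ) (M : Type) [TopologicalSpace M] [T2Space M] [CompactSpace M]
    [MeasurableSpace M] [BorelSpace M] [ChartedSpace (EE 2) M] [IsManifold (𝓡 2) ∞ M]
    (J : Set ℝ) (F : M → ℝ → EE N) (c : ℕ → M) (χ : ℕ → M → ℝ), SetupJ 2 J F c χ → ∀ t ∈ J,
    (∀ a b, 0 < a → a ≤ b → mL F c χ t b ≤ mL F c χ t a ∧ eL F c χ t b ≤ eL F c χ t a) ∧
    (∀ a, 0 < a → 0 ≤ mL F c χ t a ∧ 0 ≤ eL F c χ t a) ∧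
    (∀ a, 0 < a → a ^ 2 * mL F c χ t a ≤ eL F c χ t a ∧
      eL F c χ t a - eL F c χ t (2 * a) ≤ 4 * a ^ 2 * mL F c χ t a ∧
      eL F c χ t a ≤ wI F c χ t) ∧
    ∃ A₀ : ℝ, ∀ a, A₀ ≤ a → eL F c χ t a = 0

end Helper35.MS
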