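import Mathlib
import Pool.Agent.Helper35.MS.StE

/-!
Project MS (MP_925021_gt), module statements, part F: behaviour at the final time.

Flow in `ℝ^N` on `J = (0,T)`; `e = eI = ∫θ`, `W = wI = ∫|H|²`, `d = dI = ∫g₃`, `A = arI`; `e' = W' = -d`,
`A' = -W` (ENE); `W - e = 16π` (Gauss-Bonnet, part of `Dat`).  Every module may use, besides the listed
hypotheses, all statements of parts J, E and all proved statements of PI, PI2, CL (as hypotheses).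
-/

set_option autoImplicit false

namespace Helper35.MS

open Helper35.PI Helper35.PI2 Helper32.CL
open scoped ContDiff Manifold Topology ENNReal BigOperators
open MeasureTheory Set Filter

section DefsF

variable {N : ℕ} {M : Type} [TopologicalSpace M] [ChartedSpace (EE 2) M]

/-- `|H|²` is unbounded near the final time -/
def UnbT (T : ℝ) (F : M → ℝ → EE N) : Prop :=
  ∀ C t₀ : ℝ, t₀ < T → ∃ t ∈ Ioo 0 T, t₀ < t ∧ ∃ q, C < YF F q t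

variable [MeasurableSpace M]

/-- a pinched closed flow of spheres on `(0,T)` -/
structure Dat (T : ℝ) (F : M → ℝ → EE N) (c : ℕ → M) (χ : ℕ → M → ℝ) (δ : ℝ) : Prop where
  T0 : 0 < T
  su : SetupF 2 (Ioo 0 T) F c χ
  pi : Pin (Ioo 0 T) F δ
  gb : ∀ t ∈ Ioo 0 T, wI F c χ t - eI F c χ t = 16 * Real.pi

end DefsF

/-! ### Linear combinations -/

/-- LIN. Linear combinations of `Evo` functions.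

Proof. All operations are linear: `deriv` (`Evo.hd`), `gdM` (definition; `fderiv` of `y ↦ u (symm y) t` at the
chart point, differentiable by `Evo.sm`), `dvg` (definition; `Evo.gr`). -/
def StLIN : Prop := ∀ (N : ℕ) (M : Type) [TopologicalSpace M] [ChartedSpace (EE 2) M]
    [IsManifold (𝓡 2) ∞ M] (J : Set ℝ) (F : M → ℝ → EE N), IsImmJ (n := 2) J F →
    ∀ (u v : M → ℝ → ℝ) (a b : ℝ), Evo J F u → Evo J F v →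
    Evo J F (fun q t => a * u q t + b * v q t) ∧
    ∀ q, ∀ t ∈ J,
      gdM 2 F t (fun q => a * u q t + b * v q t) q
        = a • gdM 2 F t (fun q => u q t) q + b • gdM 2 F t (fun q => v q t) q ∧
      htF F (fun q t => a * u q t + b * v q t) q t = a * htF F u q t + b * htF F v q t

/-! ### Finite time -/

/-- BLW (hLEV : StLEV)(hEPS : StEPS)(hENE : StENE)(hMUJ : StMUJ). Energy at the scale of the remaining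
time.

Proof. `e ≥ 0` is nonincreasing on `(0,T)` (`θ ≥ 0`; `e' = -d`, `g₃ ≥ 0`), so there is `ts ∈ (0,T)` with
`e(ts) - e(t) ≤ δ/400` for all `t ∈ [ts,T)` (infimum). Let `t₁ ∈ (ts,T)`, `k W(t₁)(T-t₁) ≤ 1/400` and suppose
`zI k t₁ ≤ 1/200`. LEV: for `t ∈ [t₁,T)`: `zI k t ≤ zI k t₁ + (e(t₁)-e(t))/δ + kW(t₁)(t-t₁) ≤ 1/100`, and
`W(t) ≤ W(t₁) =: wb`. EPS on `[t₁,t₂]`, every `t₂ < T`: `(t-t₁)Y(·,t) ≤ max 1 (3k wb (t₂-t₁)) ≤ 1`. So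
`Y ≤ 2/(T-t₁)` on `((t₁+T)/2, T)`, which contradicts `UnbT`. -/
def StBLW : Prop := ∀ (N : ℕ) (M : Type) [TopologicalSpace M] [T2Space M]
    [CompactSpace M] [MeasurableSpace M] [BorelSpace M]
    [ChartedSpace (EE 2) M] [IsManifold (𝓡 2) ∞ M] (T : ℝ) (F : M → ℝ → EE N) (c : ℕ → M)
    (χ : ℕ → M → ℝ) (δ : ℝ), Dat T F c χ δ → UnbT T F →
    ∃ ts ∈ Ioo 0 T, ∀ t₁ ∈ Ioo ts T, ∀ k : ℝ, 0 < k → k * wI F c χ t₁ * (T - t₁) ≤ 1 / 400 →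
      1 / 200 < zI k F c χ t₁

/-- FN1 (hCAP : StCAP)(hLVL : StLVL)(hBLR : StBLR)(hMUJ : StMUJ)(hI4J : StI4J)(hENE : StENE). One time:
no small scale energy, small dissipation imply small `∫θ` and area.

Proof. `W = wI`, `d = dI`, `D = τd`, `W ≥ 16π` (`e ≥ 0`). `k = 1/(400Wτ)`, `a₀ > 0` with
`a₀² = 1/(80000 W²τ)`. `√(Y²+k²) - k ≤ Y²/(2k)` and `≤ Y`, so `1/200 < zI k ≤ (a₀²/(2k)) W + eL a₀ =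
1/400 + eL a₀`: `eL a₀ ≥ 1/400 =: ε₀`. `B = 48√(Wd)`: `B²/a₀² = 2304·80000·W³D`, and
`2304·80000·400·W³D = 7.3728·10¹⁰ W³D < 1`, so `B ≤ a₀`, `B² < ε₀a₀²`. CAP (`48/a √(Wd) = B/a`), LVL, BLR:
`16π - X ≤ eL (a₀/4)`, `X = 4√W B/a₀ = 192W√d/a₀ ≤ 54306 W²√D`. Let `P = {|H| ≥ a₀/4}`. On `P`:
`θ ≤ (16/a₀²)Yθ`, so `I := ∫_P θ ≤ (16/(a₀²δ)) d = 1280000 W²D/δ` (`δYθ ≤ g₃`). `16π = ∫(Y-θ)`, so
`∫_{Pᶜ}(Y-θ) = 16π - eL (a₀/4) + I ≤ X + I`. On `Pᶜ`, `θ ≤ (2/3)Y` gives `θ ≤ 2(Y-θ)`, `Y ≤ 3(Y-θ)`, `Y ≥ 4`: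
`e ≤ 2(X+I) + I`, `A ≤ (16/a₀²)W + (3/4)(X+I)`. -/
def StFN1 : Prop := ∀ (N : ℕ) (M : Type) [TopologicalSpace M] [T2Space M]
    [CompactSpace M] [SecondCountableTopology M] [MeasurableSpace M] [BorelSpace M]
    [ChartedSpace (EE 2) M] [IsManifold (𝓡 2) ∞ M] (J : Set ℝ) (F : M → ℝ → EE N) (c : ℕ → M)
    (χ : ℕ → M → ℝ) (δ : ℝ), SetupF 2 J F c χ → Pin J F δ → ∀ t ∈ J, ∀ τ : ℝ, 0 < τ →
    wI F c χ t - eI F c χ t = 16 * Real.pi →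
    (∀ k : ℝ, 0 < k → k * wI F c χ t * τ ≤ 1 / 400 → 1 / 200 < zI k F c χ t) →
    wI F c χ t ^ 3 * (τ * dI F c χ t) ≤ 1 / 100000000000 →
    eI F c χ t ≤ 4000000 * (wI F c χ t ^ 2 * Real.sqrt (τ * dI F c χ t)
      + wI F c χ t ^ 2 * (τ * dI F c χ t) / δ) ∧
    arI F c χ t ≤ 4000000 * (wI F c χ t ^ 3 * τ + wI F c χ t ^ 2 * Real.sqrt (τ * dI F c χ t)
      + wI F c χ t ^ 2 * (τ * dI F c χ t) / δ)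

/-- FN2 (hBLW : StBLW)(hFN1 : StFN1)(hENE : StENE)(hMUJ : StMUJ). Energy and area at the final time.

Proof. `e ≥ 0`, `A ≥ 0`, `W = 16π + e` are nonincreasing; let `ts` be as in BLW, `W₁ = W(ts)`. For small
`σ > 0` (`T - 2σ > ts`) the mean value theorem gives `t₁ ∈ (T-2σ,T-σ)` with `d(t₁)σ = e(T-2σ) - e(T-σ)`, which
tends to `0` as `σ → 0` (`e` converges). So `D = (T-t₁)d(t₁) ≤ 2σd(t₁) → 0`. FN1 with `τ = T-t₁` (BLW):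
`e(t₁) → 0`, `A(t₁) → 0`, and by monotonicity `e → 0`, `A → 0`. For `t < s < T`: `A(t) - A(s) = -A'(ξ)(s-t) =
W(ξ)(s-t) ∈ [16π(s-t), W(t)(s-t)]`; let `s → T`. -/
def StFN2 : Prop := ∀ (N : ℕ) (M : Type) [TopologicalSpace M] [T2Space M]
    [CompactSpace M] [SecondCountableTopology M] [MeasurableSpace M] [BorelSpace M]
    [ChartedSpace (EE 2) M] [IsManifold (𝓡 2) ∞ M] (T : ℝ) (F : M → ℝ → EE N) (c : ℕ → M)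
    (χ : ℕ → M → ℝ) (δ : ℝ), Dat T F c χ δ → UnbT T F →
    (∀ ε : ℝ, 0 < ε → ∃ ts ∈ Ioo 0 T, ∀ t ∈ Ico ts T, eI F c χ t ≤ ε) ∧
    ∀ t ∈ Ioo 0 T, 16 * Real.pi * (T - t) ≤ arI F c χ t ∧ arI F c χ t ≤ wI F c χ t * (T - t)

/-- POT (hPOI : StPOI)(hMUJ : StMUJ)(hI4J : StI4J)(hENE : StENE). Consequences of POI.

Proof. `A > 0` (if `A = 0` the measure is `0` and `W = 0 < 16π`). `w = |H|`, `wb = √(16π/A)`: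
`|Y - wb²| = |w - wb|(w + wb)`, Cauchy-Schwarz, `∫(w+wb)² ≤ 2W + 2·16π`. `ζ_k(Y) = √(Y²+k²) - k` is
`1`-Lipschitz in `Y ≥ 0` and `ζ_k(wb²) ≤ wb⁴/(2k)`: `zI k ≤ A wb⁴/(2k) + ∫|Y-wb²|`, `A wb⁴ = (16π)²/A`. -/
def StPOT : Prop := ∀ (N : ℕ) (M : Type) [TopologicalSpace M] [T2Space M]
    [CompactSpace M] [SecondCountableTopology M] [Nonempty M] [MeasurableSpace M] [BorelSpace M]
    [ChartedSpace (EE 2) M] [IsManifold (𝓡 2) ∞ M] (J : Set ℝ) (F : M → ℝ → EE N) (c : ℕ → M)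
    (χ : ℕ → M → ℝ) (δ : ℝ), SetupF 2 J F c χ → Pin J F δ → ∀ t ∈ J,
    16 * Real.pi ≤ wI F c χ t →
    0 < arI F c χ t ∧
    ∫ q, |YF F q t - 16 * Real.pi / arI F c χ t| ∂muM 2 F c χ t
      ≤ Real.sqrt ((wI F c χ t - 16 * Real.pi
          + 5 * Real.sqrt (wI F c χ t * arI F c χ t * dI F c χ t))
        * (2 * wI F c χ t + 32 * Real.pi)) ∧
    ∀ k : ℝ, 0 < k → zI k F c χ t ≤ 128 * Real.pi ^ 2 / (k * arI F c χ t)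
      + ∫ q, |YF F q t - 16 * Real.pi / arI F c χ t| ∂muM 2 F c χ t

/-- TY1 (hTI : StTI)(hPOT : StPOT)(hENE : StENE)(hMUJ : StMUJ). The singularity is of type I.

Proof. `K = 10240`, `a = 1/(5·10⁸)`. Choose `ts` with `e ≤ min(δ/400, 1, η)` on `[ts,T)`, `η` small
(below). Let `t₀ < T` with `τ₀ = T - t₀`, `t₀ - 2aτ₀ ≥ ts`. Mean value theorem: `t' ∈ (t₀-2aτ₀, t₀-aτ₀)` with
`d(t')aτ₀ = e(t₀-2aτ₀) - e(t₀-aτ₀) ≤ η`. `τ' = T-t' ∈ [τ₀, 2τ₀]`, `W(t') ≤ 16π+1 ≤ 52`,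
`A(t') ≤ 52τ' ≤ 104τ₀`, so `W A d ≤ 5408η/a` and POT gives `∫|Y - 16π/A| ≤ √((η + 5√(5408η/a))(104+32π)) ≤
1/400` for small `η`; `k = K/τ'`: `128π²/(kA) ≤ 8π/K ≤ 1/400` (`A ≥ 16πτ'`). So `zI k t' ≤ 1/200`, `e(t') ≤ δ/400`,
`k W(t')(t₀-t') ≤ (K/τ₀)·52·2aτ₀ ≤ 1/400`. TI: `(t₀-t')Y(·,t₀) ≤ 1`, so `(T-t₀)Y ≤ 1/a`. -/
def StTY1 : Prop := ∀ (N : ℕ) (M : Type) [TopologicalSpace M] [T2Space M]
    [CompactSpace M] [SecondCountableTopology M] [Nonempty M] [MeasurableSpace M] [BorelSpace M]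
    [ChartedSpace (EE 2) M] [IsManifold (𝓡 2) ∞ M] (T : ℝ) (F : M → ℝ → EE N) (c : ℕ → M)
    (χ : ℕ → M → ℝ) (δ : ℝ), Dat T F c χ δ →
    (∀ ε : ℝ, 0 < ε → ∃ ts ∈ Ioo 0 T, ∀ t ∈ Ico ts T, eI F c χ t ≤ ε) →
    (∀ t ∈ Ioo 0 T, 16 * Real.pi * (T - t) ≤ arI F c χ t ∧
      arI F c χ t ≤ wI F c χ t * (T - t)) →
    ∃ C : ℝ, 0 < C ∧ ∃ ts ∈ Ioo 0 T, ∀ t ∈ Ico ts T, ∀ q, (T - t) * YF F q t ≤ C

/-- TY2 (hMVI : StMVI)(hPPV : StPPV)(hPOT : StPOT)(hENE : StENE)(hMUJ : StMUJ)(hLIN : StLIN). Quantitative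
convergence to a shrinking sphere, from one time interval.

Proof. `τ₀ = T - t₀`; on `[T-2τ₀, t₀]`: `Y ≤ C/(T-t) ≤ C/τ₀`, `θ ≤ Y`, `W ≤ 16π+1 ≤ 52`. (1) MVI for `θ`,
`κ = 2C/τ₀`, on `[T-2τ₀,t₀]`: `htF θ ≤ 2Yθ ≤ κθ`; `θ(q,t₀) ≤ ¼e^{2C}τ₀⁻¹ e(T-2τ₀)`. (2) `η ≤ 1/2`,
`e(T-2τ₀) ≤ η¹⁶`: mean value theorem: `t' ∈ (t₀-2ητ₀, t₀-ητ₀)` with `d(t')ητ₀ ≤ η¹⁶`; `τ' = T-t' ∈ [τ₀,
(1+2η)τ₀]`, `A(t') ≤ 52·2τ₀`. POT: `∫|Y-l| ≤ √((η¹⁶ + 5√(5408η¹⁵))(104+32π)) ≤ C₁η³` with `l = 16π/A(t')`.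
`16π/((16π+η¹⁶)(1+2η)τ₀) ≤ 16π/(Wτ') ≤ l ≤ 1/τ' ≤ 1/τ₀`. PPV on `[t',t₀]` for `u = Y` with this `l` and
`b = 2C²/τ₀²` (`htF Y ≤ Y² + Yθ`): `Y(q,t₀) ≤ 1/τ₀ + 4C²η/τ₀ + C₁η³/(4ητ₀)`. PPV for `u = 2θ - Y` (`Evo` by LIN,
`htF u = -htF(Y-2θ) ≤ 4Yθ - Y² ≤ 4C²/τ₀² =: b`), with `-l`: `max 0 (u+l) ≤ 2θ + |Y-l|`, so
`-Y(q,t₀) ≤ u(q,t₀) ≤ -l + 8C²η/τ₀ + (2η¹⁶ + C₁η³)/(4ητ₀)`. -/
def StTY2 : Prop := ∀ (N : ℕ) (M : Type) [TopologicalSpace M] [T2Space M]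
    [CompactSpace M] [SecondCountableTopology M] [Nonempty M] [MeasurableSpace M] [BorelSpace M]
    [ChartedSpace (EE 2) M] [IsManifold (𝓡 2) ∞ M] (T : ℝ) (F : M → ℝ → EE N) (c : ℕ → M)
    (χ : ℕ → M → ℝ) (δ : ℝ), Dat T F c χ δ →
    (∀ t ∈ Ioo 0 T, 16 * Real.pi * (T - t) ≤ arI F c χ t ∧
      arI F c χ t ≤ wI F c χ t * (T - t)) →
    ∀ C ts : ℝ, 0 < C → ts ∈ Ioo 0 T → (∀ t ∈ Ico ts T, eI F c χ t ≤ 1) →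
    (∀ t ∈ Ico ts T, ∀ q, (T - t) * YF F q t ≤ C) →
    ∃ C' : ℝ, 0 < C' ∧ ∀ t₀ < T, ts ≤ T - 2 * (T - t₀) → ∀ q,
      (T - t₀) * thF 2 F q t₀ ≤ C' * eI F c χ (T - 2 * (T - t₀)) ∧
      ∀ η : ℝ, 0 < η → η ≤ 1 / 2 → eI F c χ (T - 2 * (T - t₀)) ≤ η ^ 16 →
        |(T - t₀) * YF F q t₀ - 1| ≤ C' * η

/-- TY3 (hFN2 : StFN2)(hTY1 : StTY1)(hTY2 : StTY2)(hENE : StENE)(hMUJ : StMUJ). Rates.

Proof. FN2, TY1, TY2. As `e → 0`, TY2 with a fixed small `η` gives `(T-t)Y ≥ 1/2` for `t ∈ [t₂,T)`. Then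
`e' = -d ≤ -δ∫Yθ ≤ -(δ/(2(T-t))) e`, so `e(t)(T-t)^{-δ/2}` is nonincreasing and `e(t) ≤ C(T-t)^{δ/2}`. TY2 with
`η = (C(2(T-t))^{δ/2})^{1/16}` for `t` near `T`, and `α = min (δ/32) ..`, e.g. `α = δ/32`. -/
def StTY3 : Prop := ∀ (N : ℕ) (M : Type) [TopologicalSpace M] [T2Space M]
    [CompactSpace M] [SecondCountableTopology M] [Nonempty M] [MeasurableSpace M] [BorelSpace M]
    [ChartedSpace (EE 2) M] [IsManifold (𝓡 2) ∞ M] (T : ℝ) (F : M → ℝ → EE N) (c : ℕ → M)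
    (χ : ℕ → M → ℝ) (δ : ℝ), Dat T F c χ δ → UnbT T F →
    ∃ C α ts : ℝ, 0 < C ∧ 0 < α ∧ ts ∈ Ioo 0 T ∧ ∀ t ∈ Ico ts T,
      eI F c χ t ≤ C * (T - t) ^ α ∧ arI F c χ t ≤ C * (T - t) ∧ wI F c χ t ≤ C ∧
      ∀ q, (T - t) * thF 2 F q t ≤ C * (T - t) ^ α ∧
        |(T - t) * YF F q t - 1| ≤ C * (T - t) ^ α

/-- LMF (hDMJ : StDMJ)(hMUJ : StMUJ). The flow shrinks to a point.

Proof. `|H| = √Y ≤ (1 + C(T-t)^α)/√(T-t)` (`√(1+u) ≤ 1+u`). `Γ(s) = -2√(T-s) - C'(T-s)^{α+1/2}`, `C' = 2C`: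
`Γ' = (T-s)^{-1/2} + C'(α+1/2)(T-s)^{α-1/2} ≥ |H(q,s)|`, `∂_sF = H`, so `‖F q s - F q t‖ ≤ Γ(s) - Γ(t)` for
`ts ≤ t ≤ s < T` (`image_norm_le_of_norm_deriv_right_le_deriv_boundary` or similar). `Γ(s) → 0` as `s → T`, so
`F q s` is Cauchy, with limit `x_q` and `‖F q t - x_q‖ ≤ -Γ(t)`. DMJ: `‖F p t - F q t‖² ≤ (32C+128)C(T-t) → 0`, so
all `x_q` are equal (`M` is nonempty as it is connected). -/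
def StLMF : Prop := ∀ (N : ℕ) (M : Type) [TopologicalSpace M] [T2Space M]
    [CompactSpace M] [ConnectedSpace M] [MeasurableSpace M] [BorelSpace M]
    [ChartedSpace (EE 2) M] [IsManifold (𝓡 2) ∞ M] (T : ℝ) (F : M → ℝ → EE N) (c : ℕ → M)
    (χ : ℕ → M → ℝ) (δ : ℝ), Dat T F c χ δ → ∀ C α ts : ℝ, 0 < C → 0 < α → ts ∈ Ioo 0 T →
    (∀ t ∈ Ico ts T, arI F c χ t ≤ C * (T - t) ∧ wI F c χ t ≤ C ∧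
      ∀ q, |(T - t) * YF F q t - 1| ≤ C * (T - t) ^ α) →
    ∃ (x : EE N) (C' : ℝ), 0 < C' ∧ ∀ t ∈ Ico ts T, ∀ q,
      ‖F q t - x‖ ≤ 2 * Real.sqrt (T - t) + C' * (T - t) ^ (α + 1 / 2)

/-! ### Infinite time (in the sphere), final time `1/4` in `ℝ^N` -/

/-- IN1 (hENE : StENE)(hMUJ : StMUJ). Energy decay.

Proof. `τ = 1/4 - t`, `Y ≥ 1/τ`. `A/τ ≤ W` (integrate `1/τ ≤ Y`), `W` is nonincreasing, so `A ≤ Wτ → 0`;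
`A' = -W ≤ -16π` so `A(t) ≥ 16πτ` (mean value inequality on `[t,s]`, `s → 1/4`). `∫(Y - 1/τ) = W - A/τ ≤ 16π + e -
16π`. `e' = -d ≤ -δ∫Yθ ≤ -(δ/τ)e`, so `e τ^{-δ}` is nonincreasing on `(0,1/4)`: `C = e(t₁)(1/4-t₁)^{-δ} + 1`,
`ts = t₁ = 1/8`. -/
def StIN1 : Prop := ∀ (N : ℕ) (M : Type) [TopologicalSpace M] [T2Space M]
    [CompactSpace M] [MeasurableSpace M] [BorelSpace M]
    [ChartedSpace (EE 2) M] [IsManifold (𝓡 2) ∞ M] (F : M → ℝ → EE N) (c : ℕ → M)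
    (χ : ℕ → M → ℝ) (δ : ℝ), Dat (1 / 4) F c χ δ →
    (∀ q, ∀ t ∈ Ioo (0 : ℝ) (1 / 4), 4 / (1 - 4 * t) ≤ YF F q t) →
    ∃ C : ℝ, 0 < C ∧ ∀ t ∈ Ico (1 / 8 : ℝ) (1 / 4),
      eI F c χ t ≤ C * (1 / 4 - t) ^ δ ∧ wI F c χ t ≤ C ∧
      16 * Real.pi * (1 / 4 - t) ≤ arI F c χ t ∧ arI F c χ t ≤ wI F c χ t * (1 / 4 - t) ∧
      ∫ q, (YF F q t - 1 / (1 / 4 - t)) ∂muM 2 F c χ t ≤ eI F c χ t

/-- IN2 (hIN1 : StIN1)(hTI : StTI)(hMUJ : StMUJ)(hENE : StENE). Type I.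

Proof. `C` from IN1 (`W ≤ C`), `K = 400C`, `k = K/τ'`, `τ' = 1/4-t'`. `ζ_k(Y) ≤ ζ_k(1/τ') + (Y - 1/τ')` and
`ζ_k(1/τ') ≤ 1/(2kτ'²)`, so `zI k t' ≤ A/(2Kτ') + e(t') ≤ C/(2K) + e(t') ≤ 1/800 + e(t') ≤ 1/200` and
`e(t') ≤ δ/400` for `t'` near `1/4` (IN1). Let `a = 1/(400KC)` and, given `t₀` near `1/4`, `t'` with
`t₀ = t' + aτ'` (`τ₀ = (1-a)τ'`): `k W (t₀-t') ≤ KCa ≤ 1/400`. TI: `aτ'Y(·,t₀) ≤ 1`, so `τ₀Y ≤ 1/a`. -/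
def StIN2 : Prop := ∀ (N : ℕ) (M : Type) [TopologicalSpace M] [T2Space M]
    [CompactSpace M] [MeasurableSpace M] [BorelSpace M]
    [ChartedSpace (EE 2) M] [IsManifold (𝓡 2) ∞ M] (F : M → ℝ → EE N) (c : ℕ → M)
    (χ : ℕ → M → ℝ) (δ : ℝ), Dat (1 / 4) F c χ δ →
    (∀ q, ∀ t ∈ Ioo (0 : ℝ) (1 / 4), 4 / (1 - 4 * t) ≤ YF F q t) →
    ∃ C ts : ℝ, 0 < C ∧ ts ∈ Ico (1 / 8 : ℝ) (1 / 4) ∧
      ∀ t ∈ Ico ts (1 / 4), ∀ q, (1 / 4 - t) * YF F q t ≤ C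

/-- IN3 (hIN1 : StIN1)(hIN2 : StIN2)(hMVI : StMVI)(hEVC : StEVC)(hLIN : StLIN)(hMUJ : StMUJ)
(hENE : StENE). Exponential decay.

Proof. `u = Y + θ - 1/τ` (`Pin.esm`, EVC with `ψ = id`, `a t = -1/(1/4-t)`; on a smaller `J` the function
`a` is smooth): `htF u ≤ Y² + 3Yθ - 1/τ²` (`htF (Y+θ) = htF Y + htF θ`: LIN) `= (Y-1/τ)(Y+1/τ) + 3Yθ ≤ (κ₀/τ) u`, `κ₀ = 3(C+1)` (IN2). MVI on
`[t₀-τ₀,t₀]` (`t' = t₀-τ₀ = 1/4 - 2τ₀`, `κ = κ₀/τ₀`): `u(q,t₀) ≤ ¼e^{κ₀}τ₀⁻¹ ∫u(·,t') ≤ (C'/τ₀)·2e(t') ≤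
C''τ₀^{δ-1}` (IN1). -/
def StIN3 : Prop := ∀ (N : ℕ) (M : Type) [TopologicalSpace M] [T2Space M]
    [CompactSpace M] [MeasurableSpace M] [BorelSpace M]
    [ChartedSpace (EE 2) M] [IsManifold (𝓡 2) ∞ M] (F : M → ℝ → EE N) (c : ℕ → M)
    (χ : ℕ → M → ℝ) (δ : ℝ), Dat (1 / 4) F c χ δ →
    (∀ q, ∀ t ∈ Ioo (0 : ℝ) (1 / 4), 4 / (1 - 4 * t) ≤ YF F q t) →
    ∃ C ts : ℝ, 0 < C ∧ ts ∈ Ico (1 / 8 : ℝ) (1 / 4) ∧ ∀ t ∈ Ico ts (1 / 4), ∀ q,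
      (1 / 4 - t) * (YF F q t + thF 2 F q t) - 1 ≤ C * (1 / 4 - t) ^ δ

end Helper35.MS
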