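import Mathlib
import Pool.Agent.Helper35.MS.StE

/-!
Project MS (MP_925021_gt), module statements, part GB: Gauss-Bonnet for immersed 2-spheres,
`∫ (|H|² - |A|²) dμ = 2 ∫ K dμ = 8π`, for immersions `S² → ℝ^N`, by deformation to the round sphere:
`f_s = (cos s F, sin s id)` is a path of immersions in `ℝ^(N+3)` and the total curvature is constant
along every smooth family of immersions.  Every module may use, besides the listed hypotheses, all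
statements of part J and all proved statements of PI, PI2, CL (as hypotheses).
-/

set_option autoImplicit false

namespace Helper35.MS

open Helper35.PI Helper35.PI2 Helper32.CL
open scoped ContDiff Manifold Topology ENNReal BigOperators
open MeasureTheory Set Filter

section DefsGB

variable {n N : ℕ}

/-- the covector `z_k = 2(⟨mcv, ∂_k V⟩ - g^lm ⟨A_kl, ∂_m V⟩)` -/
noncomputable def zcv (f V : EE n → EE N) (x : EE n) (k : Fin n) : ℝ :=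
  2 * (inner ℝ (mcv f x) (fderiv ℝ V x (ee k))
    - ∑ l, ∑ m, (gram f x)⁻¹ l m * inner ℝ (sff f x k l) (fderiv ℝ V x (ee m)))
/-- the tangential field `g^kl z_k ∂_l f` -/
noncomputable def zfd (f V : EE n → EE N) (x : EE n) : EE N :=
  ∑ k, ∑ l, ((gram f x)⁻¹ k l * zcv f V x k) • dv1 f x l

/-- the field on `M_t`, for a function `V` on `M` -/
noncomputable def ZFd (n : ℕ) {N : ℕ} {M : Type} [TopologicalSpace M] [ChartedSpace (EE n) M]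
    (F : M → ℝ → EE N) (V : M → EE N) (t : ℝ) (q : M) : EE N :=
  zfd (loc (n := n) F q t) (fun y => V ((chartAt (EE n) q).symm y)) (chartAt (EE n) q q)

/-- the unit sphere of `ℝ³` -/
abbrev S2 : Type := Metric.sphere (0 : EE 3) 1

instance factE3 : Fact (Module.finrank ℝ (EE 3) = 2 + 1) := Fact.mk finrank_euclideanSpace_fin

/-- the inclusion of the unit sphere -/
def inS : S2 → ℝ → EE 3 := fun q _ => (q : EE 3)

end DefsGB

/-! ### The field -/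

/-- GSM (hSM : StSM)(hFR : StFR)(hNR : StNR). As IS (`Helper35/PI2/St.lean`, StIS, proved), for `zfd`.

Proof. SM for `(y,t) ↦ f y`: `gram⁻¹, sff, mcv` are smooth at `x`, `fderiv V` is smooth, so `zcv`, `zfd` are.
`⟨zfd, f_k⟩ = Σ_jl G^jl z_j g_lk = z_k`. `mcv f x` is a combination of `nrm`'s (NR). Copy the proof of IS. -/
def StGSM : Prop := ∀ (n N : ℕ) (f V : EE n → EE N) (x : EE n), ContDiffAt ℝ ∞ f x →
    ContDiffAt ℝ ∞ V x → LI f x →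
    (∀ k, ContDiffAt ℝ ∞ (fun y => zcv f V y k) x) ∧ ContDiffAt ℝ ∞ (zfd f V) x ∧
    (∀ k, (inner ℝ (zfd f V x) (dv1 f x k) : ℝ) = zcv f V x k) ∧
    zfd f V x ∈ Submodule.span ℝ (range fun i => dv1 f x i) ∧
    (inner ℝ (mcv f x) (zfd f V x) : ℝ) = 0

/-- GIB (hGSM : StGSM)(hI1 : StI1)(hFR : StFR)(hNR : StNR)(hSM : StSM). As IA and IB (`StIA`, `StIB`, proved) for
`zfd`.

Proof. `J_ka = ⟨e_a, Dφ e_k⟩`: `∂_k W = Σ_a J_ka (∂_aV)(φ)`, `sff h k l = Σ_ab J_ka J_lb (sff f a b)(φ)`,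
`Σ_lm (gram h)⁻¹_lm J_lb J_mc = ((gram f)⁻¹)_bc(φ)`, `mcv h = mcv f∘φ`: `zcv h W x k = Σ_a J_ka zcv f V (φ x) a`.
Then as IB: both fields are tangent with the same inner products with `h_k = ΣJ_ka f_a`; equal at all
points near `x`; divergence as in IB. Copy the proofs of IA and IB. -/
def StGIB : Prop := ∀ (n N : ℕ) (f h V W : EE n → EE N) (φ : EE n → EE n) (x : EE n),
    ContDiffAt ℝ ∞ f (φ x) → ContDiffAt ℝ ∞ V (φ x) → ContDiffAt ℝ ∞ φ x →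
    h =ᶠ[𝓝 x] (fun y => f (φ y)) → W =ᶠ[𝓝 x] (fun y => V (φ y)) → LI h x →
    zfd h W x = zfd f V (φ x) ∧ dvc h (zfd h W) x = dvc f (zfd f V) (φ x)

/-- GMA (hGSM : StGSM)(hGIB : StGIB)(hI2J : StI2J)(hI3J : StI3J)(hV6aJ : StV6aJ). The field on `M_t`; as MAJ
(`Helper51/MS/M_MAJ.lean`) for `ZFd` with `V = ∂_tF(·,t)` (smooth in every chart: I2J).

Proof. For `q'` in the source of the chart at `p`, GIB with the transition map gives
`ZFd q' = zfd (loc F p t) (V∘symm_p) (chart_p q')`, which is smooth in `q'`. Divergence: V6aJ. -/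
def StGMA : Prop := ∀ (n N : ℕ) (M : Type) [TopologicalSpace M] [ChartedSpace (EE n) M]
    [IsManifold (𝓡 n) ∞ M] (J : Set ℝ) (F : M → ℝ → EE N), IsImmJ (n := n) J F → ∀ t ∈ J,
    ∀ V : M → EE N, V = (fun q => deriv (fun s => F q s) t) →
    ContMDiff (𝓡 n) 𝓘(ℝ, EE N) 1 (ZFd n F V t) ∧
    (∀ q, (inner ℝ (HH (n := n) F q t) (ZFd n F V t q) : ℝ) = 0) ∧
    ∀ p q : M, q ∈ (chartAt (EE n) p).source →
      dvg (n := n) F (ZFd n F V t) q t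
        = dvc (loc (n := n) F p t) (zfd (loc (n := n) F p t)
            (fun y => V ((chartAt (EE n) p).symm y))) (chartAt (EE n) p q)

/-! ### The local identity -/

/-- GLA (hFR : StFR)(hNR : StNR). Two by two matrices.

Proof. `n = 2`, `g = gram f x`, `D = det g = sgm² > 0`, `g⁻¹ = (1/D) (g₁₁, -g₀₁; -g₀₁, g₀₀)`, `A_ij = sff f x i j`
symmetric (hypothesis). `mcv = Σ G_ij A_ij`, `nsq = Σ G_ik G_jl ⟨A_ij,A_kl⟩`; (1): `|mcv|² - nsq =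
(2/D)(⟨A₀₀,A₁₁⟩ - |A₀₁|²)`. (2): `Σ_l G_kl z_l = 2Σ_m ⟨(tr(GA) G - GAG)_km, V_m⟩` and
`tr(GA) G - GAG = adj(A)/D` (a polynomial identity in the entries; `g₀₀g₁₁ - g₀₁² = D`). -/
def StGLA : Prop := ∀ (N : ℕ) (f V : EE 2 → EE N) (x : EE 2), LI f x →
    (∀ i j, sff f x i j = sff f x j i) →
    0 < sgm f x ∧
    (‖mcv f x‖ ^ 2 - nsq f x) * sgm f x
      = 2 * (((inner ℝ (sff f x 0 0) (sff f x 1 1) : ℝ) - ‖sff f x 0 1‖ ^ 2) / sgm f x) ∧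
    sgm f x * (∑ l, (gram f x)⁻¹ 0 l * zcv f V x l)
      = 2 * (((inner ℝ (sff f x 1 1) (fderiv ℝ V x (ee 0)) : ℝ)
        - inner ℝ (sff f x 0 1) (fderiv ℝ V x (ee 1))) / sgm f x) ∧
    sgm f x * (∑ l, (gram f x)⁻¹ 1 l * zcv f V x l)
      = 2 * (((inner ℝ (sff f x 0 0) (fderiv ℝ V x (ee 1)) : ℝ)
        - inner ℝ (sff f x 0 1) (fderiv ℝ V x (ee 0))) / sgm f x)

/-- GLD (hGSM : StGSM)(hV2 : StV2)(hFR : StFR)(hNR : StNR)(hV1 : StV1)(hSM : StSM). Divergence of the field in a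
chart.

Proof. `Z = zfd f V`, `Z^i = Σ_l G_il z_l`; near `x`: `sgm Z^i = ⟨Σ_j (sgm G_ij) f_j, Z⟩` (`⟨f_j,Z⟩ = z_j`,
GSM). Product rule, V2 on a small open ball around `x`: `Σ_i ∂_i(sgm Z^i) = ⟨sgm mcv, Z⟩ +
Σ_ij sgm G_ij ⟨f_j, ∂_iZ⟩ = 0 + sgm · dvc f Z`. -/
def StGLD : Prop := ∀ (n N : ℕ) (f V : EE n → EE N) (x : EE n), ContDiffAt ℝ ∞ f x →
    ContDiffAt ℝ ∞ V x → LI f x →
    sgm f x * dvc f (zfd f V) x
      = ∑ i, fderiv ℝ (fun y => sgm f y * (∑ l, (gram f y)⁻¹ i l * zcv f V y l)) x (ee i)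

/-- GLF (hSM : StSM)(hNR : StNR)(hFR : StFR)(hV1 : StV1). The frame identity.

Proof. All functions of `z = (y,s)` near `z₀`; `f_i = jg f z i = dv1 (f(·,s)) y i`, `∂_a` for
`a ∈ {0, 1, s}` (directions `(ee 0,0), (ee 1,0), (0,1)`). Gram-Schmidt: `e₁ = f_0/|f_0|`,
`e₂ = (f_1 - ⟨f_1,e₁⟩e₁)/|f_1 - ⟨f_1,e₁⟩e₁|`: smooth, orthonormal, spanning the tangent plane,
`e_a = Σ_j c_aj f_j`, `c` lower triangular with `det c = 1/sgm` (`sgm = |f_0||f_1 - ⟨f_1,e₁⟩e₁|`). Let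
`Ω(a,b) = ⟨∂_ae₁, ∂_be₂⟩ - ⟨∂_be₁, ∂_ae₂⟩`. Symmetry of second derivatives of `e₁, e₂` gives the cyclic identity
`∂_sΩ(0,1) + ∂_0Ω(1,s) + ∂_1Ω(s,0) = 0`. `P = nrm (f(·,s)) y`: the tangential parts of `∂_ae₁` and `∂_be₂` are
multiples of `e₂` and `e₁` (`|e₁| = |e₂| = 1`), so `Ω(a,b) = ⟨P∂_ae₁,P∂_be₂⟩ - ⟨P∂_be₁,P∂_ae₂⟩`, and
`P∂_ie_a = Σ_j c_aj A_ij` (`A_ij = sff = P f_ij`), `P∂_se_a = Σ_j c_aj P V_j`, `V_j = ∂_j(jt f) = ∂_s f_j`. So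
`Ω(0,1) = det c (⟨A₀₀,A₁₁⟩ - |A₀₁|²)` and `Ω(i,s) = det c (⟨A_i0,V_1⟩ - ⟨V_0,A_i1⟩)`. Hence
`∂_sE = -∂_0Ω(1,s) + ∂_1Ω(0,s)`, `Ω(1,s) = -U0`, `Ω(0,s) = U1`. -/
def StGLF : Prop := ∀ (N : ℕ) (f : EE 2 × ℝ → EE N) (z₀ : EE 2 × ℝ), ContDiffAt ℝ ∞ f z₀ →
    LI (fun y => f (y, z₀.2)) z₀.1 →
    ∀ (E U0 U1 : EE 2 × ℝ → ℝ) (A : Fin 2 → Fin 2 → EE 2 × ℝ → EE N)
      (V : Fin 2 → EE 2 × ℝ → EE N),
    A = (fun i j z => sff (fun y => f (y, z.2)) z.1 i j) →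
    V = (fun j z => fderiv ℝ (fun y => jt f (y, z.2)) z.1 (ee j)) →
    E = (fun z => ((inner ℝ (A 0 0 z) (A 1 1 z) : ℝ) - ‖A 0 1 z‖ ^ 2)
      / sgm (fun y => f (y, z.2)) z.1) →
    U0 = (fun z => ((inner ℝ (A 1 1 z) (V 0 z) : ℝ) - inner ℝ (A 0 1 z) (V 1 z))
      / sgm (fun y => f (y, z.2)) z.1) →
    U1 = (fun z => ((inner ℝ (A 0 0 z) (V 1 z) : ℝ) - inner ℝ (A 0 1 z) (V 0 z))
      / sgm (fun y => f (y, z.2)) z.1) →
    HasDerivAt (fun s => E (z₀.1, s))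
      (fderiv ℝ (fun y => U0 (y, z₀.2)) z₀.1 (ee 0)
        + fderiv ℝ (fun y => U1 (y, z₀.2)) z₀.1 (ee 1)) z₀.2

/-- GLO (hGLA : StGLA)(hGLD : StGLD)(hGLF : StGLF)(hSM : StSM)(hFR : StFR). The derivative of the curvature
density is a divergence.

Proof. GLA (1) near `z₀` along `(y₀,s)`, GLF, GLA (2), (3) near `z₀` (at time `z₀.2`), GLD. -/
def StGLO : Prop := ∀ (N : ℕ) (f : EE 2 × ℝ → EE N) (z₀ : EE 2 × ℝ), ContDiffAt ℝ ∞ f z₀ →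
    LI (fun y => f (y, z₀.2)) z₀.1 →
    HasDerivAt (fun s => (‖mcv (fun y => f (y, s)) z₀.1‖ ^ 2 - nsq (fun y => f (y, s)) z₀.1)
        * sgm (fun y => f (y, s)) z₀.1)
      (sgm (fun y => f (y, z₀.2)) z₀.1 * dvc (fun y => f (y, z₀.2))
        (zfd (fun y => f (y, z₀.2)) (fun y => jt f (y, z₀.2))) z₀.1) z₀.2

/-! ### The deformation -/

/-- GKD (hGLO : StGLO)(hGMA : StGMA)(hMUJ : StMUJ)(hFVJ : StFVJ)(hI2J : StI2J)(hI3J : StI3J)(hI4J : StI4J)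
(hFU : StFU)(hSGJ : StSGJ). The total curvature is constant along a family of immersions.

Proof. MUJ: `∫ g dμ_s = Σ_{i∈s₀} ∫ χ_i (g∘symm) sgm` (finite sum, same `s₀` for all times),
`g = |H|² - |A|²`; in the chart at `c i`: `g∘symm = |mcv|² - nsq` of `loc F (c i) s` (I3J). The function
`a y s = (|mcv|² - nsq) sgm` has the derivative `b y s = sgm · dvc (..)` (GLO for `f (y,s) = F (symm y) s`,
`jt f (y,s) = V (symm y)` with `V = ∂_sF`), continuous in `(y,s)`; differentiate under the integral sign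
(FU and the continuity of `s ↦ Σ∫χ_i b`, or `hasDerivAt_integral_of_dominated_loc_of_deriv_le`):
the derivative is `Σ_i ∫ χ_i sgm dvc(..) = ∫ dvg F (ZFd 2 F V s) · s dμ_s` (GMA, MUJ) and
`= ∫ (dvg Z + ⟨H,Z⟩) = 0` (GMA, FVJ). -/
def StGKD : Prop := ∀ (N : ℕ) (M : Type) [TopologicalSpace M] [T2Space M] [CompactSpace M]
    [MeasurableSpace M] [BorelSpace M] [ChartedSpace (EE 2) M] [IsManifold (𝓡 2) ∞ M]
    (J : Set ℝ) (F : M → ℝ → EE N) (c : ℕ → M) (χ : ℕ → M → ℝ), SetupJ 2 J F c χ → ∀ t ∈ J,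
    HasDerivAt (fun t => ∫ q, (‖HH (n := 2) F q t‖ ^ 2 - AA (n := 2) F q t) ∂(muM 2 F c χ t)) 0 t

/-- GPA. A path of immersions.

Proof. `ι₁ x = (x, 0)`, `ι₂ y = (0, y)` in `EE (N+3)` (coordinates `Fin.append`-like, or
`EuclideanSpace` of `Fin N ⊕ Fin 3`, reindexed); `⟨ι₁x, ι₂y⟩ = 0`. `G q s = cos s • ι₁ (F q t) +
sin s • ι₂ (Φ q 0)`: smooth (at the fixed time `t`, resp. `0`), `G_i = cos s ι₁F_i + sin s ι₂Φ_i`; if
`Σ a_i G_i = 0` then `cos s ΣaF_i = 0 = sin s Σ a_iΦ_i`, so `a = 0`. -/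
def StGPA : Prop := ∀ (n N : ℕ) (M : Type) [TopologicalSpace M] [ChartedSpace (EE n) M]
    [IsManifold (𝓡 n) ∞ M] (J : Set ℝ) (F : M → ℝ → EE N) (Φ : M → ℝ → EE 3) (t : ℝ), t ∈ J →
    IsImmJ (n := n) J F → IsImmJ (n := n) univ Φ →
    ∃ (G : M → ℝ → EE (N + 3)) (i₁ : EE N →ₗᵢ[ℝ] EE (N + 3)) (i₂ : EE 3 →ₗᵢ[ℝ] EE (N + 3)),
      IsImmJ (n := n) univ G ∧ (∀ q, G q 0 = i₁ (F q t)) ∧
      ∀ q, G q (Real.pi / 2) = i₂ (Φ q 0)

/-- GEM (hFR : StFR)(hNR : StNR)(hI2J : StI2J). Invariance under linear isometric embeddings.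

Proof. In a chart, `g = ι∘f`, `f` smooth: `g_i = ιf_i`, `g_ij = ιf_ij`, same Gram matrix, `nrm g (ιv) =
ι(nrm f v)`, so `sff`, `mcv` are the images, and `nsq`, `zsq`, `sgm` are equal. `muM` only depends on `sgm`
in charts. -/
def StGEM : Prop := ∀ (n N N' : ℕ) (M : Type) [TopologicalSpace M] [MeasurableSpace M]
    [ChartedSpace (EE n) M] [IsManifold (𝓡 n) ∞ M] (J : Set ℝ) (F : M → ℝ → EE N)
    (G : M → ℝ → EE N') (t s : ℝ) (i : EE N →ₗᵢ[ℝ] EE N'), IsImmJ (n := n) J F → t ∈ J →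
    (∀ q, G q s = i (F q t)) →
    (∀ q, HH (n := n) G q s = i (HH (n := n) F q t) ∧ AA (n := n) G q s = AA (n := n) F q t ∧
      ZF (n := n) G q s = ZF (n := n) F q t) ∧
    ∀ (c : ℕ → M) (χ : ℕ → M → ℝ), muM n G c χ s = muM n F c χ t

/-! ### The round sphere -/

/-- GRS (hNR : StNR)(hFR : StFR). Curvature of the unit sphere.

Proof. The inclusion is smooth (`contMDiff_coe_sphere`), its derivative is injective
(`mfderiv_coe_sphere_injective`), or explicitly: `(chartAt v).symm y = stereoInv (U y)`, `U` an isometry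
onto the orthogonal complement (compare `Helper93/MCF/Geo.lean`, `Ster.lean`). In a chart `|f| = 1`:
`⟨f,f_i⟩ = 0`, `⟨f,f_ij⟩ = -g_ij`. `f, f_0, f_1` span `ℝ³`, so every normal vector is a multiple of
`f`: `sff_ij = -g_ij f`. So `mcv = -2f`, `nsq = Σ G_ik G_jl g_ij g_kl = 2`. -/
def StGRS : Prop := IsImmJ (n := 2) univ inS ∧
    ∀ (q : S2) (t : ℝ), HH (n := 2) inS q t = -((2 : ℝ) • (q : EE 3)) ∧ AA (n := 2) inS q t = 2

/-- GRA (hGRS : StGRS)(hMUJ : StMUJ)(hV4J : StV4J)(hSGJ : StSGJ). The area of the unit sphere.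

Proof. Fix `v`. The chart at `v` has target `EE 2` and source the complement of one point (`-v`), and
`f y = (chartAt v).symm y = (|y|²+4)⁻¹(4Uy + (|y|²-4)(-v))`: `⟨f_i,f_j⟩ = 16/(|y|²+4)² δ_ij` (derivative of
`stereoInvFunAux`: `Helper93/MCF/Ster.lean`, `hasFDerivAt_ster`), `sgm = 16/(|y|²+4)²`. A point has measure
`0` in every chart, so by V4J (`g = χ_i` restricted to the two sources) `μ(M) = Σ_i ∫ χ_i sgm =
∫_{EE 2} sgm (loc v)` (`Σχ_i = 1`). `∫ 16/(|y|²+4)² dy = 2·π·∫_0^∞ 16 r/(r²+4)² dr = 2π·2`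
(`integral_fun_norm_addHaar`, volume of the unit disc `π`, primitive `-8/(r²+4)`). -/
def StGRA : Prop := ∀ (c : ℕ → S2) (χ : ℕ → S2 → ℝ), PU 2 c χ → ∀ t : ℝ,
    (muM 2 inS c χ t).real univ = 4 * Real.pi

/-- GBF (hGKD : StGKD)(hGPA : StGPA)(hGEM : StGEM)(hGRS : StGRS)(hGRA : StGRA)(hMUJ : StMUJ). Gauss-Bonnet for
immersed spheres.

Proof. `κ(s) = ∫(|H|²-|A|²)` of the path `G` of GPA (`Φ = inS`) has derivative `0` on `ℝ` (GKD), so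
`κ(0) = κ(π/2)`; GEM twice; `κ` of the unit sphere is `(4-2)·4π`. -/
def StGBF : Prop := ∀ (N : ℕ) (J : Set ℝ) (F : S2 → ℝ → EE N) (c : ℕ → S2)
    (χ : ℕ → S2 → ℝ), SetupJ 2 J F c χ → ∀ t ∈ J,
    ∫ q, (‖HH (n := 2) F q t‖ ^ 2 - AA (n := 2) F q t) ∂(muM 2 F c χ t) = 8 * Real.pi

end Helper35.MS
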