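import Mathlib
import Pool.Agent.Helper35.MS.Flow
import Pool.Agent.Helper35.MS.StF
import Pool.Agent.Helper35.MS.StGB

/-!
Project MS (MP_925021_gt), module statements, part H: from flows in the unit sphere to flows in
`ℝ^N` (rescaling and change of time), initial time, conclusion.

`r² = 1 - 4τ`, `τ = sgT t = (1 - e^{-4t})/4`, `t = tmS τ`, `FEs F q τ = r F(q,t)`.  Every module may use, besides the
listed hypotheses, all statements of parts J, D, E, F and all proved statements of PI, PI2, CL.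
-/

set_option autoImplicit false

namespace Helper35.MS

open Helper35.PI Helper35.PI2 Helper32.CL
open scoped ContDiff Manifold Topology ENNReal BigOperators
open MeasureTheory Set Filter

section DefsH

/-- change of time, sphere to `ℝ^N` -/
noncomputable def sgT (t : ℝ) : ℝ := (1 - Real.exp (-4 * t)) / 4
/-- change of time, `ℝ^N` to sphere -/
noncomputable def tmS (τ : ℝ) : ℝ := -(Real.log (1 - 4 * τ) / 4)
/-- times in the sphere which correspond to `[0,TE)` -/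
def IS (TE : ℝ) : Set ℝ := {t : ℝ | 0 ≤ t ∧ sgT t < TE}

variable {N : ℕ} {M : Type}

/-- the rescaled flow -/
noncomputable def FEs (F : M → ℝ → EE N) (q : M) (τ : ℝ) : EE N :=
  Real.sqrt (1 - 4 * τ) • F q (tmS τ)

end DefsH

/-- SCL. Scaling, one time.

Proof. In a chart `loc G q s = c • loc F q t` as functions, so `dv1`, `dv2` are multiplied by `c`
(`fderiv_const_smul'` or for units, no differentiability needed as `c ≠ 0`), `gram` by `c²`, `gram⁻¹` by `c⁻²`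
(as `det ≠ 0`), `nrm` is the same, `sff` is multiplied by `c`, `mcv` by `c⁻¹`, `nsq` by `c⁻²`, `zsq` by `c⁻⁴`. -/
def StSCL : Prop := ∀ (n N : ℕ) (M : Type) [TopologicalSpace M] [ChartedSpace (EE n) M]
    (F G : M → ℝ → EE N) (t s c : ℝ), 0 < c → (∀ q, G q s = c • F q t) → ∀ q : M,
    LI (loc (n := n) F q t) (chartAt (EE n) q q) →
    LI (loc (n := n) G q s) (chartAt (EE n) q q) ∧
    HH (n := n) G q s = (1 / c) • HH (n := n) F q t ∧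
    AA (n := n) G q s = AA (n := n) F q t / c ^ 2 ∧ ZF (n := n) G q s = ZF (n := n) F q t / c ^ 4

/-- HSQ (hFR : StFR)(hNR : StNR)(hI2J : StI2J). Immersed surface in the unit sphere.

Proof. In the preferred chart `f = loc F q t`, `⟨f,f⟩ = 1` near the point, so `⟨f,f_i⟩ = 0`,
`⟨f,f_ij⟩ = -g_ij`, `⟨f, A_ij⟩ = -g_ij` (`f` is normal, NR). `Σ G_ij g_ij = 2`: `HS = HH + 2F`, `⟨HH,F⟩ = -2`.
`hS2 = AA + 2Σ G_ik G_jl g_ij ⟨F, A_kl⟩ + Σ G_ik G_jl g_ij g_kl = AA - 4 + 2`. With an orthonormal frame (FR):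
`h_ab`, `HS = h_00 + h_11`, `hS2 = Σ|h_ab|² ≥ |HS|²/2`. -/
def StHSQ : Prop := ∀ (N : ℕ) (M : Type) [TopologicalSpace M] [ChartedSpace (EE 2) M]
    [IsManifold (𝓡 2) ∞ M] (J : Set ℝ) (F : M → ℝ → EE N), IsImmJ (n := 2) J F →
    ∀ t ∈ J, (∀ q, ‖F q t‖ = 1) → ∀ q : M,
    HS (n := 2) F q t = HH (n := 2) F q t + (2 : ℝ) • F q t ∧
    (inner ℝ (HH (n := 2) F q t) (F q t) : ℝ) = -2 ∧
    ‖HS (n := 2) F q t‖ ^ 2 = ‖HH (n := 2) F q t‖ ^ 2 - 4 ∧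
    hS2 (n := 2) F q t = AA (n := 2) F q t - 2 ∧ 0 ≤ hS2 (n := 2) F q t ∧
    ‖HS (n := 2) F q t‖ ^ 2 ≤ 2 * hS2 (n := 2) F q t

/-- CT0 (hI3J : StI3J)(hI2J : StI2J)(hFR : StFR). Frozen families, and continuity up to the initial time.

Proof. First part: definitions (`loc` of the frozen family at time `s` is `loc F p t`). Second part: in the
chart at `p₀`, `S = target ×ˢ I` is a set of unique differentiability and `f(y,s) = F (symm y) s` is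
`ContDiffOn ∞` on `S`. For `(y,s) ∈ S`: `dv1 (f(·,s)) y i = fderivWithin ℝ f S (y,s) (ee i,0)` (compose with
`y ↦ (y,s)`, `target` is open), and `dv2 (f(·,s)) y i j` is the same for the function
`z ↦ fderivWithin ℝ f S z (ee j,0)`; all are continuous on `S`. So `gram`, its inverse (`det ≠ 0`: LI at the
preferred chart and I3J for the frozen family give LI in every chart), `sff`, `mcv`, `nsq`, `zsq` are
continuous on `S`, and `HH F q s = mcv (loc F p₀ s) (chart p₀ q)` etc. by I3J for the frozen family. -/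
def StCT0 : Prop := ∀ (N : ℕ) (M : Type) [TopologicalSpace M] [ChartedSpace (EE 2) M]
    [IsManifold (𝓡 2) ∞ M] (I : Set ℝ) (F : M → ℝ → EE N), SMCF 2 I F →
    (∀ t ∈ I, IsImmJ (n := 2) univ (fun q (_ : ℝ) => F q t) ∧
      ∀ q s, HH (n := 2) (fun q (_ : ℝ) => F q t) q s = HH (n := 2) F q t ∧
        AA (n := 2) (fun q (_ : ℝ) => F q t) q s = AA (n := 2) F q t ∧
        ZF (n := 2) (fun q (_ : ℝ) => F q t) q s = ZF (n := 2) F q t ∧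
        HS (n := 2) (fun q (_ : ℝ) => F q t) q s = HS (n := 2) F q t ∧
        hS2 (n := 2) (fun q (_ : ℝ) => F q t) q s = hS2 (n := 2) F q t) ∧
    (UniqueDiffOn ℝ I → CSTJ I F ∧ CSTJ I (HH (n := 2) F) ∧ CSTJ I (AA (n := 2) F) ∧
      CSTJ I (ZF (n := 2) F))

/-- CNV (hSCL : StSCL)(hHSQ : StHSQ)(hCT0 : StCT0). The rescaled flow.

Proof. `sgT` is increasing, `sgT (tmS τ) = τ` and `0 ≤ tmS τ` for `0 ≤ τ < 1/4`. `tmS` is smooth with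
`tmS' = 1/(1-4τ)`, maps `(0,TE)` into the interior of `IS TE` (`{t > 0, sgT t < TE}` is open), so `FEs F` is
smooth on `M × (0,TE)`; immersion: SCL. `∂_τ(r F(q,tmS τ)) = -(2/r)F + r·r⁻²·HS = (1/r)(HS - 2F) =
(1/r) HH F = HH (FEs F)` (HSQ and CT0 for the frozen family, SCL). -/
def StCNV : Prop := ∀ (N : ℕ) (M : Type) [TopologicalSpace M] [ChartedSpace (EE 2) M]
    [IsManifold (𝓡 2) ∞ M] (F : M → ℝ → EE N) (TE : ℝ), 0 < TE → TE ≤ 1 / 4 →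
    SMCF 2 (IS TE) F →
    IsMCFJ (n := 2) (Ioo 0 TE) (FEs F) ∧
    ∀ τ ∈ Ico 0 TE, tmS τ ∈ IS TE ∧ sgT (tmS τ) = τ ∧ ∀ q,
      ‖FEs F q τ‖ ^ 2 = 1 - 4 * τ ∧
      HH (n := 2) (FEs F) q τ = (1 / Real.sqrt (1 - 4 * τ)) • HH (n := 2) F q (tmS τ) ∧
      AA (n := 2) (FEs F) q τ = AA (n := 2) F q (tmS τ) / (1 - 4 * τ) ∧
      ZF (n := 2) (FEs F) q τ = ZF (n := 2) F q (tmS τ) / (1 - 4 * τ) ^ 2

/-- INC (hSJ : StSJ)(hINI : StINI)(hCT0 : StCT0)(hCE0 : StCE0). The pinching at the initial time.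

Proof. SJ for the frozen family `fun q _ => F q 0` (`J = univ`, `t = 0`, `r = 1`): for every `q` there are
`m, a, b` with `x = |m|²` etc., and for every angle the vector `m + cosθ a + sinθ b` is
`Σu_iu_j A_ij + F = Σ u_iu_j h_ij` for a unit vector `u` (`Σ g_ij u_iu_j = 1`), so its norm squared is `< 1/3`.
INI: `sS < fm0 xS - gm0 xS √vS` (all at time `0`, `vS ≥ 0`). The difference is continuous on the compact `M`
(CT0, CE0), so it is `≥ 2η > 0`; `√(v+ε²) ≤ √v + ε` and `gm0 ≤ 3/10`: `ε = min(1/1000, η)`. -/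
def StINC : Prop := ∀ (N : ℕ) (M : Type) [TopologicalSpace M] [CompactSpace M]
    [ChartedSpace (EE 2) M] [IsManifold (𝓡 2) ∞ M] (I : Set ℝ) (F : M → ℝ → EE N),
    UniqueDiffOn ℝ I → (0 : ℝ) ∈ I → SMCF 2 I F → Pinch3 2 F 0 →
    ∃ ε : ℝ, 0 < ε ∧ ε ≤ 1 / 1000 ∧ ∀ q, PhF ε F q 0 < 0

/-- PRE (hCNV : StCNV)(hCT0 : StCT0)(hMPT : StMPT)(hCE0 : StCE0). The pinching is preserved.

Proof. By CNV `xS (FEs F) q τ = |HH F q (tmS τ)|²/4 - 1`, `sS (FEs F) q τ = (2AA - |HH|²)/4`,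
`vS (FEs F) q τ = (ZF - |HH|⁴/2)/8` at `(q, tmS τ)`, so `PhF ε (FEs F)` is continuous on `M × [0,TE)` (CT0 with
`I = IS TE`, `tmS` continuous, `xS ≥ 0` by SJ/HSQ, or continuity of `fm0`, `gm0` on `x > -1/16`) and equals
`PhF ε F q 0` at `τ = 0`. MPT. -/
def StPRE : Prop := ∀ (N : ℕ) (M : Type) [TopologicalSpace M] [CompactSpace M]
    [ChartedSpace (EE 2) M] [IsManifold (𝓡 2) ∞ M] (F : M → ℝ → EE N) (TE : ℝ), 0 < TE →
    TE ≤ 1 / 4 → SMCF 2 (IS TE) F → ∀ ε : ℝ, 0 < ε → ε ≤ 1 / 1000 → (∀ q, PhF ε F q 0 < 0) →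
    ∀ q, ∀ τ ∈ Ico 0 TE, PhF ε (FEs F) q τ < 0

/-- DAT (hCNV : StCNV)(hCT0 : StCT0)(hINC : StINC)(hPRE : StPRE)(hPKG : StPKG)(hGBF : StGBF)(hV5 : StV5)
(hMUJ : StMUJ)(hI4J : StI4J). Assembly.

Proof. `IS TE` is an interval `[0,b)` or `[0,∞)` (`UniqueDiffOn`: convex with nonempty interior). V5: `PU 2 c χ`
on `S2`. INC, PRE, PKG (`J = (0,TE)`): `Pin (Ioo 0 TE) (FEs F) (ε/80)`. GBF: `wI - eI = ∫(Y-θ) =
2∫(|H|²-|A|²) = 16π`. -/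
def StDAT : Prop := ∀ (N : ℕ) (F : S2 → ℝ → EE N) (TE : ℝ), 0 < TE → TE ≤ 1 / 4 →
    SMCF 2 (IS TE) F → Pinch3 2 F 0 → ∃ (c : ℕ → S2) (χ : ℕ → S2 → ℝ) (δ : ℝ),
    Dat TE (FEs F) c χ δ ∧
    ∀ q, ∀ τ ∈ Ioo (0 : ℝ) TE, 4 / (1 - 4 * τ) ≤ YF (FEs F) q τ

/-- FIN (hDAT : StDAT)(hTY3 : StTY3)(hLMF : StLMF)(hCNV : StCNV)(hCT0 : StCT0)(hHSQ : StHSQ). Finite time.

Proof. `TE = sgT T < 1/4`, `IS TE = [0,T)`. DAT. `UnbT TE (FEs F)`: `hS2` is bounded on the compact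
`M × [0,t₀]` (`hS2 = AA - 2`, CT0, HSQ), so there are times `t > t₀` with large `hS2`, and by `Pin.th1`
`2AA = Y + θ ≤ (5/3)Y`, `Y(FEs) ≥ (6/5) AA(FEs) = (6/5)(hS2+2)/r² ≥ hS2`. TY3, LMF. With `u = T-t`,
`τ = sgT t`, `r² = e^{-4t}`: `TE - τ = r² m(u)`, `m(u) = (1-e^{-4u})/4`, `u - 2u² ≤ m(u) ≤ u`, so
`0 ≤ u/m(u) - 1 ≤ Ku` for small `u`. `2(hS2 - |HS|²/2) = 2AA - |HH|² = r²θ`,
`|HS|² = r²Y - 4`: `u(hS2 - |HS|²/2) = (u/m)(TE-τ)θ/2`, `u|HS|² = (u/m)(TE-τ)Y - 4u`. Exponent `min α 1`.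
`‖x‖² = 1-4TE` (limit of `‖FEs F q τ‖² = 1-4τ`), `r_T = √(1-4TE) > 0`; the point is `x/r_T`:
`‖F - x/r_T‖ ≤ ‖FEs F - x‖/r + ‖x‖|1/r - 1/r_T| ≤ C√u`. -/
def StFIN : Prop := ∀ (N : ℕ) (F : S2 → ℝ → EE N) (T : ℝ), 0 < T →
    SMCF 2 (Ico 0 T) F → Pinch3 2 F 0 →
    (∀ C : ℝ, ∃ t ∈ Ico 0 T, ∃ q, C < hS2 (n := 2) F q t) →
    ∃ (x : EE N) (C α ts : ℝ), ‖x‖ = 1 ∧ 0 < α ∧ ts ∈ Ico 0 T ∧ ∀ t ∈ Ico ts T, ∀ q,
      ‖F q t - x‖ ≤ C * Real.sqrt (T - t) ∧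
      (T - t) * (hS2 (n := 2) F q t - ‖HS (n := 2) F q t‖ ^ 2 / 2) ≤ C * (T - t) ^ α ∧
      |(T - t) * ‖HS (n := 2) F q t‖ ^ 2 - 1| ≤ C * (T - t) ^ α

/-- INF (hDAT : StDAT)(hIN3 : StIN3)(hCNV : StCNV)(hCT0 : StCT0)(hHSQ : StHSQ). Infinite time.

Proof. `TE = 1/4`, `IS (1/4) = [0,∞)`. DAT, IN3: `(1/4-τ)(Y+θ) - 1 = (r²/4)·2AA(FEs) - 1 = AA F/2 - 1 = hS2/2`,
so `hS2 ≤ 2C(r²/4)^δ = C'e^{-4δt}` for `t ≥ t₀`, and for all `t ≥ 0` (continuity, compactness, larger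
`C'`). `‖HS‖² ≤ 2hS2`, `∂_tF = HS`: `‖F q s - F q t‖ ≤ C''e^{-2δt}` for `s ≥ t`; limit. `α = 2δ`. -/
def StINF : Prop := ∀ (N : ℕ) (F : S2 → ℝ → EE N),
    SMCF 2 (Ici 0) F → Pinch3 2 F 0 →
    ∃ (G : S2 → EE N) (C α : ℝ), Continuous G ∧ 0 < α ∧ ∀ t : ℝ, 0 ≤ t → ∀ q,
      ‖F q t - G q‖ ≤ C * Real.exp (-α * t) ∧ hS2 (n := 2) F q t ≤ C * Real.exp (-α * t)

end Helper35.MS
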