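import Mathlib
import Pool.Agent.Helper35.MS.StH

/-!
Project MS (MP_925021_gt), module statements, part K: convergence to a round sphere of the rescaled
surfaces, the limit is a great sphere, embeddedness at late times, other models of `S²`.
Every module may use, besides the listed hypotheses, all statements of parts J, D, E, F, H and all
proved statements of PI, PI2, CL.
-/

set_option autoImplicit false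

namespace Helper35.MS

open Helper35.PI Helper35.PI2 Helper32.CL
open scoped ContDiff Manifold Topology ENNReal BigOperators
open MeasureTheory Set Filter

/-! ### The shrinker quantity `|H + F/(2τ)|²`, `τ = T - t` -/

section DefsK

variable {N : ℕ} {M : Type} [TopologicalSpace M] [ChartedSpace (EE 2) M]

/-- `|H + F/(2(T-t))|²` -/
noncomputable def uF (T : ℝ) (F : M → ℝ → EE N) (q : M) (t : ℝ) : ℝ :=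
  ‖HH (n := 2) F q t + (1 / (2 * (T - t))) • F q t‖ ^ 2

end DefsK

/-- TRL. Translations.

Proof. `loc G p t = loc F p t - x` as functions, so `dv1`, `dv2` (hence `gram, nrm, sff, mcv, nsq, zsq, sgm, TS,
gdM, dvg, muM, VF`) are equal, as functions (`fderiv_sub_const`). `Pin` and `Evo` only contain these. -/
def StTRL : Prop := ∀ (N : ℕ) (M : Type) [TopologicalSpace M] [MeasurableSpace M]
    [ChartedSpace (EE 2) M] [IsManifold (𝓡 2) ∞ M] (F G : M → ℝ → EE N) (x : EE N),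
    G = (fun q t => F q t - x) →
    HH (n := 2) G = HH (n := 2) F ∧ AA (n := 2) G = AA (n := 2) F ∧
    ZF (n := 2) G = ZF (n := 2) F ∧ thF 2 G = thF 2 F ∧ YF G = YF F ∧
    (∀ (c : ℕ → M) (χ : ℕ → M → ℝ), muM 2 G c χ = muM 2 F c χ) ∧
    ∀ (c : ℕ → M) (χ : ℕ → M → ℝ) (T δ : ℝ), Dat T F c χ δ → Dat T G c χ δ

/-- LNT. Coefficients depending on time.

Proof. Product rule in `t`; at a fixed time `gdM`, `dvg` are linear. -/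
def StLNT : Prop := ∀ (N : ℕ) (M : Type) [TopologicalSpace M] [ChartedSpace (EE 2) M]
    [IsManifold (𝓡 2) ∞ M] (J : Set ℝ) (F : M → ℝ → EE N), IsImmJ (n := 2) J F →
    ∀ (u : M → ℝ → ℝ) (a a' : ℝ → ℝ), Evo J F u → (∀ t ∈ J, HasDerivAt a (a' t) t) →
    ContinuousOn a' J →
    Evo J F (fun q t => a t * u q t) ∧
    ∀ q, ∀ t ∈ J, gdM 2 F t (fun q => a t * u q t) q = a t • gdM 2 F t (fun q => u q t) q ∧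
      htF F (fun q t => a t * u q t) q t = a t * htF F u q t + a' t * u q t

/-- QFE (hMLJ : StMLJ)(hMDJ : StMDJ)(hPRJ : StPRJ)(hLIN : StLIN)(hI4J : StI4J). Heat operators of `|F|²` and
`⟨F,H⟩`.

Proof. (1) `u_l = ‖wvF 2 l F q t‖²` (fourth component of `i4F 2 l`), `l = 0, 1`, and `Y`: `Evo` by MLJ (as in EVB;
`WFd 2 0 l (cφ φ) = gdM (φ ∘ i4F 2 l)`, `φ p = p.2.2.2`, `c = cφ φ`). `wvF l = wvF 0 + l H` and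
`⟨wvF 0, H⟩ = ⟨F,H⟩` (MLJ), so `⟨F,H⟩ = (u_1 - u_0 - Y)/2`: LIN. `|F|²`: `∂_t = 2⟨F,H⟩`; MLJ with `κ = 1`,
`l = 0`, `c = ⟨0,0,1,0⟩` (`φ = 0, a₁ = a₃ = 0, a₂ = 1`): `WFd = e^{-|F|²/2} F^⊤`, where
`2F^⊤ = gdM (|F|²)` (definitions: `∂_k|f|² = 2⟨f,f_k⟩`), so `gdM (|F|²) = 2e^{|F|²/2} WFd` is `C¹`.
(2) At `(q,t)` take `A, T, ν, v` from MDJ. `φ` linear, `κ = 0`: `htF (φ∘i4F l) = hph = φ(h4 l A T ν v)`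
(`dvA = -hph`, second derivatives vanish). So `htF Y = hY`, `htF u_l = hW l = -2Σ‖lP_k - B_k‖² +
2Σ⟨A_ij,ν+lH⟩² + 4⟨H,ν+lH⟩`, `P_k = et T k`, `B_k = Σ_a v_a A_ka`; `htF ⟨F,H⟩ = ½(hW 1 - hW 0 - hY) =
2Σ⟨P_k,B_k⟩ + 2Σ⟨A_ij,ν⟩⟨A_ij,H⟩ + 2Y` (`hY = -2Σ‖P_k‖² + 2ZZ`). `|F|²`: MDJ for `κ = 1`, `c = ⟨0,0,1,0⟩`:
`dvA = dVa - Σv_kVa = Σ_k(1 + ⟨ν,A_kk⟩) - Σv_k²`, and `dvg (e^{-|F|²/2}F^⊤) = e^{-|F|²/2}(dvg F^⊤ - |F^⊤|²)`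
(PRJ), `|F^⊤|² = Σv_k²`: `dvg F^⊤ = 2 + ⟨F,H⟩`, `htF |F|² = 2⟨F,H⟩ - 2(2+⟨F,H⟩) = -4`. -/
def StQFE : Prop := ∀ (N : ℕ) (M : Type) [TopologicalSpace M] [ChartedSpace (EE 2) M]
    [IsManifold (𝓡 2) ∞ M] (J : Set ℝ) (F : M → ℝ → EE N), IsMCFJ (n := 2) J F →
    Evo J F (YF F) ∧ Evo J F (fun q t => ‖F q t‖ ^ 2) ∧
    Evo J F (fun q t => (inner ℝ (F q t) (HH (n := 2) F q t) : ℝ)) ∧
    ∀ q, ∀ t ∈ J, htF F (fun q t => ‖F q t‖ ^ 2) q t = -4 ∧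
    ∃ (A : Fin 2 → Fin 2 → EE N) (T : Fin 2 → Fin 2 → Fin 2 → EE N) (ν : EE N)
      (v : Fin 2 → ℝ), SymV A ∧ Sym3V T ∧
      AA (n := 2) F q t = XX A ∧ HH (n := 2) F q t = Hv A ∧
      ‖F q t‖ ^ 2 = ‖ν‖ ^ 2 + ∑ k, v k ^ 2 ∧
      (inner ℝ (F q t) (HH (n := 2) F q t) : ℝ) = inner ℝ ν (Hv A) ∧
      htF F (YF F) q t = -2 * eq2 T + 2 * ZZ A ∧
      htF F (fun q t => (inner ℝ (F q t) (HH (n := 2) F q t) : ℝ)) q t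
        = 2 * (∑ k, (inner ℝ (et T k) (∑ a, v a • A k a) : ℝ))
          + 2 * (∑ i, ∑ j, (inner ℝ (A i j) ν : ℝ) * inner ℝ (A i j) (Hv A)) + 2 * YY A

/-- WIN (hQFE : StQFE)(hLNT : StLNT)(hLIN : StLIN). The differential inequality for `u = |H + F/(2τ)|²`.

Proof. `u = Y + ⟨F,H⟩/τ + |F|²/(4τ²)` (`τ = T-t`, `τ' = -1`): `Evo` by LNT, LIN. With the jets of QFE, `H = Hv A`,
`w = N + w^⊤`, `N = H + ν/(2τ)`, `|w^⊤|² = Σv²/(4τ²)`, `u = |N|² + |w^⊤|²`, `B_k = Σ_av_aA_ka`, `P_k = et T k`: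
`htF u = -2Σ|P_k|² + 2ZZ + (2/τ)(Σ⟨P_k,B_k⟩ + Σ⟨A_ij,ν⟩⟨A_ij,H⟩ + Y) + ⟨ν,H⟩/τ² - 1/τ² + (|ν|²+Σv²)/(2τ³)`.
`-2Σ|P_k|² + (2/τ)Σ⟨P_k,B_k⟩ ≤ Σ|B_k|²/(2τ²) ≤ |A|²Σv²/(2τ²) = (Y+θ)|w^⊤|²`. With `A_ij = ½Hδ_ij + h_ij`
(trace free, `Σ|h_ij|² = θ/2`): `2ZZ + (2/τ)Σ⟨A,ν⟩⟨A,H⟩ = 2Σ⟨A_ij,H⟩⟨A_ij,2N-H⟩ = Y⟨H,2N-H⟩ +
4Σ⟨h,H⟩⟨h,N⟩ - 2Σ⟨h,H⟩² ≤ Y⟨H,2N-H⟩ + θ|N|²`, `⟨H,2N-H⟩ = |N|² - |ν|²/(4τ²)`,
`⟨ν,H⟩/τ = |N|² - Y - |ν|²/(4τ²)`. Sum: `htF u ≤ (Y+θ)u + |N|²/τ + 2|w^⊤|²/τ - (Y-1/τ)(|ν|²/(4τ²) - 1/τ)`. -/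
def StWIN : Prop := ∀ (N : ℕ) (M : Type) [TopologicalSpace M] [ChartedSpace (EE 2) M]
    [IsManifold (𝓡 2) ∞ M] (T : ℝ) (F : M → ℝ → EE N), IsMCFJ (n := 2) (Ioo 0 T) F →
    Evo (Ioo 0 T) F (uF T F) ∧ ∀ q, ∀ t ∈ Ioo 0 T,
      htF F (uF T F) q t ≤ (YF F q t + thF 2 F q t + 2 / (T - t)) * uF T F q t
        + |YF F q t - 1 / (T - t)| * (1 / (T - t) + ‖F q t‖ ^ 2 / (4 * (T - t) ^ 2))

/-- MVW (hWIN : StWIN)(hMVI : StMVI)(hPRJ : StPRJ)(hFVJ : StFVJ)(hMUJ : StMUJ)(hI4J : StI4J)(hEVC : StEVC). The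
shrinker quantity decays, the flow shrinks to the origin.

Proof. `τ = T-t`. `∫⟨H,F⟩ = -2A` (FVJ, PRJ with `ζ = 1`, `y = 0`), so `∫u = W - 2A/τ + ∫|F|²/(4τ²) ≤
W - 2A/τ + (A/τ)(1 + Cτ^α/2)² ≤ C₁τ^α` (`16π ≤ A/τ ≤ W ≤ 16π + Cτ^α`, as `W = 16π + e`). Let `τ₀ = T-t₀` be
small, on `[t₀-τ₀,t₀]` (`τ₀ ≤ τ ≤ 2τ₀`): WIN gives `htF u ≤ (C₂/τ₀)u + C₂τ₀^{α-2}`, so `w = u + τ₀^{α-1}` (a constant
added: EVC) has `htF w ≤ (C₂/τ₀)w`; MVI: `w(q,t₀) ≤ ¼e^{C₂}τ₀⁻¹(C₁(2τ₀)^α + τ₀^{α-1}A(t₀-τ₀)) ≤ C₃τ₀^{α-1}`. -/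
def StMVW : Prop := ∀ (N : ℕ) (M : Type) [TopologicalSpace M] [T2Space M]
    [CompactSpace M] [SecondCountableTopology M] [Nonempty M] [MeasurableSpace M] [BorelSpace M]
    [ChartedSpace (EE 2) M] [IsManifold (𝓡 2) ∞ M] (T : ℝ) (F : M → ℝ → EE N) (c : ℕ → M)
    (χ : ℕ → M → ℝ) (δ : ℝ), Dat T F c χ δ →
    (∀ t ∈ Ioo 0 T, 16 * Real.pi * (T - t) ≤ arI F c χ t ∧
      arI F c χ t ≤ wI F c χ t * (T - t)) →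
    ∀ C α ts : ℝ, 0 < C → 0 < α → ts ∈ Ioo 0 T →
    (∀ t ∈ Ico ts T, eI F c χ t ≤ C * (T - t) ^ α ∧ ∀ q,
      (T - t) * thF 2 F q t ≤ C * (T - t) ^ α ∧ |(T - t) * YF F q t - 1| ≤ C * (T - t) ^ α ∧
      ‖F q t‖ ≤ 2 * Real.sqrt (T - t) + C * (T - t) ^ (α + 1 / 2)) →
    ∃ C' ts' : ℝ, 0 < C' ∧ ts' ∈ Ico ts T ∧ ∀ t ∈ Ico ts' T, ∀ q,
      (T - t) * uF T F q t ≤ C' * (T - t) ^ α

/-- LMK. The rescaled flow converges.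

Proof. `Φ(q,t) = F/(2√τ)`, `∂_tΦ = (1/(2√τ))(H + F/(2τ))`, `‖∂_tΦ‖ ≤ ½√C τ^{α/2-1}`; the function
`Γ(t) = -(√C/α) τ^{α/2}` has derivative `½√C τ^{α/2-1}`: `‖Φ(q,s) - Φ(q,t)‖ ≤ Γ(s)-Γ(t)`, so `Φ` is uniformly Cauchy;
the limit is continuous and `‖Φ(q,t) - G q‖ ≤ (√C/α)τ^{α/2}`. -/
def StLMK : Prop := ∀ (N : ℕ) (M : Type) [TopologicalSpace M] [ChartedSpace (EE 2) M]
    [IsManifold (𝓡 2) ∞ M] (T : ℝ) (F : M → ℝ → EE N), IsMCFJ (n := 2) (Ioo 0 T) F →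
    ∀ C α ts : ℝ, 0 < C → 0 < α → ts ∈ Ioo 0 T →
    (∀ t ∈ Ico ts T, ∀ q, (T - t) * uF T F q t ≤ C * (T - t) ^ α) →
    ∃ (G : M → EE N) (C' : ℝ), Continuous G ∧ 0 < C' ∧ ∀ t ∈ Ico ts T, ∀ q,
      ‖(1 / (2 * Real.sqrt (T - t))) • F q t - G q‖ ≤ C' * (T - t) ^ (α / 2)

/-! ### Nearly umbilical surfaces, one time -/

/-- GRE (hFR : StFR)(hNR : StNR)(hI2J : StI2J)(hI3J : StI3J)(hSM : StSM). The almost parallel functions.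

Proof. In the chart at `p`, `f = loc F p t`, `φ_i = ⟨f_i,e⟩`, `v = e^⊤ = e - nrm e = Σ a_j f_j`,
`a_j = Σ_i G_ij φ_i`, and `gdM ⟨F,e⟩ = v` (definition), `g = ‖v‖² + ⟨f,e⟩²` is smooth. With `n = nrm e`:
`⟨∂_kn, f_j⟩ = -⟨n, f_jk⟩ = -⟨e, A_jk⟩`, `v = e - n`, so `∂_k‖v‖² = -2⟨∂_kn, v⟩ = 2Σ_j a_j⟨e,A_jk⟩`, and
`∂_kg = 2Σ_j a_j⟨e, A_jk⟩ + 2⟨f,e⟩φ_k`, `φ_k = Σ_j a_j g_jk`. With `A_jk = ½g_jk H + h_jk`: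
`∂_kg = 2Σ_ja_j⟨e,h_jk⟩ + ⟨e, H + 2f⟩φ_k`. In an orthonormal frame (FR): `‖gdM g‖ ≤ 2‖h‖‖v‖ + ε‖v‖ ≤
(√2 + 1)ε` (`‖h‖² = θ/2 ≤ ε²/2`, `‖v‖ ≤ 1`). -/
def StGRE : Prop := ∀ (N : ℕ) (M : Type) [TopologicalSpace M] [ChartedSpace (EE 2) M]
    [IsManifold (𝓡 2) ∞ M] (J : Set ℝ) (F : M → ℝ → EE N), IsImmJ (n := 2) J F → ∀ t ∈ J,
    ∀ ε : ℝ, 0 ≤ ε → (∀ q, ‖HH (n := 2) F q t + (2 : ℝ) • F q t‖ ≤ ε) →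
    (∀ q, thF 2 F q t ≤ ε ^ 2) → ∀ e : EE N, ‖e‖ = 1 →
    ∀ g : M → ℝ, g = (fun q => ‖gdM 2 F t (fun p => (inner ℝ (F p t) e : ℝ)) q‖ ^ 2
      + (inner ℝ (F q t) e : ℝ) ^ 2) →
    ContMDiff (𝓡 2) 𝓘(ℝ, ℝ) 1 g ∧ (∀ q, ‖gdM 2 F t g q‖ ≤ 3 * ε) ∧
    ∀ q, gdM 2 F t (fun p => (inner ℝ (F p t) e : ℝ)) q ∈ TS (n := 2) F q t ∧
      ∀ w ∈ TS (n := 2) F q t,
        (inner ℝ (gdM 2 F t (fun p => (inner ℝ (F p t) e : ℝ)) q) w : ℝ) = inner ℝ e w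

/-- OSC (hSIM : StSIM)(hHAR : StHAR)(hMUJ : StMUJ)(hI4J : StI4J). Oscillation of functions with small gradient.

Proof. `A = arI`, `A ≤ 4π + ε ≤ 14`, `W ≤ (4+ε)A ≤ 5A`. SIM with the constant function `k = k₀` and HAR
(`P = univ`): `16πh(q) ≤ ∫hY + 8k₀√(2WA) ≤ (4+ε)∫h + 355k₀`; if `h̄` is the mean value of `h` (`A > 0`:
else SIM for `h = 1` gives a contradiction), `(4+ε)A ≤ 16π + 18ε`, `h̄ ≤ 2`: `h(q) ≤ h̄ + ε + 8k₀`. The same for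
`2 - h`: `h(q) ≥ h̄ - ε - 8k₀`. -/
def StOSC : Prop := ∀ (N : ℕ) (M : Type) [TopologicalSpace M] [T2Space M]
    [CompactSpace M] [Nonempty M] [MeasurableSpace M] [BorelSpace M]
    [ChartedSpace (EE 2) M] [IsManifold (𝓡 2) ∞ M] (J : Set ℝ) (F : M → ℝ → EE N) (c : ℕ → M)
    (χ : ℕ → M → ℝ), SetupJ 2 J F c χ → ∀ t ∈ J, ∀ ε k₀ : ℝ, 0 ≤ ε → ε ≤ 1 → 0 ≤ k₀ →
    (∀ q, |YF F q t - 4| ≤ ε) → arI F c χ t ≤ 4 * Real.pi + ε →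
    ∀ h : M → ℝ, ContMDiff (𝓡 2) 𝓘(ℝ, ℝ) 1 h → (∀ q, 0 ≤ h q ∧ h q ≤ 2) →
    (∀ q, ‖gdM 2 F t h q‖ ≤ k₀) → ∀ p q : M, |h p - h q| ≤ 2 * ε + 16 * k₀

/-- RND (hGRE : StGRE)(hOSC : StOSC)(hFVJ : StFVJ)(hMUJ : StMUJ)(hI4J : StI4J)(hNR : StNR)(hFR : StFR)
(hI3J : StI3J). Nearly umbilical surfaces are close to a round sphere.

Proof. `2‖F‖` is within `ε` of `‖H‖`, `‖H‖² ∈ [4-ε,4+ε]`: `|‖F‖ - 1| ≤ ε`, so `g` of GRE has `0 ≤ g ≤ 1 + (1+ε)² - ..`;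
precisely `‖v‖² + ⟨F,e⟩² ≤ ‖v‖² + (..)`: `e = v + n`, `⟨F,e⟩ = ⟨F,v⟩ + ⟨F,n⟩`, `|⟨F,v⟩| ≤ (ε/2)‖v‖` (`H` is
normal), so `g ≤ 1 + 4ε ≤ 2`. OSC: `|g p - g q| ≤ 50ε`. Fix `p₀`; `e₁,e₂` orthonormal basis of `TS p₀`,
`F(p₀) = t + νe₃`, `t` tangential, `‖t‖ ≤ ε/2`, `e₃` a unit normal vector, `ν ≥ 1 - 2ε`. `L (y₁,y₂,y₃) = Σy_ie_i`.
(1) `e ⟂ range L` unit: `g(p₀) = 0`, so `⟨F(q),e⟩² ≤ 50ε` for all `q`; hence the component of `F(q)` orthogonal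
to `range L` has norm `≤ √(50ε)`, and `‖F(q)‖ ∈ [1-ε,1+ε]`: `F(q)` is close to `L y`, `y` the normalised component.
(2) `y ∈ S²`, `e = Ly`: `g(p₀) ≥ y₁² + y₂² + y₃² - Cε`, so `g ≥ 1 - C'ε` on `M`. Let `q` be a maximum point of
`φ = ⟨F,e⟩` (compact `M`): `gdM φ q = 0`, `φ(q)² = g(q) ≥ 1 - C'ε`; FVJ with the constant field `e`
(`dvg = 0`): `∫⟨H,e⟩ = 0`, so `2∫φ = ∫⟨H+2F,e⟩ ≥ -εA`, `φ(q) ≥ -ε/2`, so `φ(q) ≥ 1 - C'ε` and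
`‖F(q) - e‖² = ‖F‖² - 2φ + 1 ≤ C''ε`. -/
def StRND : Prop := ∀ η : ℝ, 0 < η → ∃ ε : ℝ, 0 < ε ∧ ∀ (N : ℕ) (M : Type)
    [TopologicalSpace M] [T2Space M] [CompactSpace M] [Nonempty M] [MeasurableSpace M]
    [BorelSpace M] [ChartedSpace (EE 2) M] [IsManifold (𝓡 2) ∞ M] (J : Set ℝ)
    (F : M → ℝ → EE N) (c : ℕ → M) (χ : ℕ → M → ℝ), SetupJ 2 J F c χ → ∀ t ∈ J,
    (∀ q, ‖HH (n := 2) F q t + (2 : ℝ) • F q t‖ ≤ ε) → (∀ q, thF 2 F q t ≤ ε ^ 2) →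
    (∀ q, |YF F q t - 4| ≤ ε) → arI F c χ t ≤ 4 * Real.pi + ε →
    ∃ L : EE 3 →ₗᵢ[ℝ] EE N, (∀ q, ∃ y : EE 3, ‖y‖ = 1 ∧ ‖F q t - L y‖ ≤ η) ∧
      ∀ y : EE 3, ‖y‖ = 1 → ∃ q, ‖F q t - L y‖ ≤ η

/-- LMS. The limit is a round sphere.

Proof. For `j` let `L_j` be as in the hypothesis for `η = 1/(j+1)` and a map `Φ_j` with
`‖Φ_j - G‖ ≤ 1/(j+1)`. The set of linear isometries `EE 3 → EE N` is compact (closed and bounded in the finite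
dimensional space of linear maps; or take limits of `L_j e_i`): a subsequence converges to `L`. `G q =
lim Φ_j q`, `‖Φ_j q - L_jy_j‖ → 0`, `y_j → y` for a subsequence, `G q = L y`. For `y ∈ S²`:
`‖Φ_j q_j - L_j y‖ → 0`, so the distance of `L_jy` to `range G` tends to `0`; `range G` is compact, so
`L y ∈ range G`. -/
def StLMS : Prop := ∀ (N : ℕ) (M : Type) [TopologicalSpace M] [CompactSpace M] [Nonempty M]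
    (G : M → EE N), Continuous G →
    (∀ η : ℝ, 0 < η → ∃ (Φ : M → EE N) (L : EE 3 →ₗᵢ[ℝ] EE N), (∀ q, ‖Φ q - G q‖ ≤ η) ∧
      (∀ q, ∃ y : EE 3, ‖y‖ = 1 ∧ ‖Φ q - L y‖ ≤ η) ∧
      ∀ y : EE 3, ‖y‖ = 1 → ∃ q, ‖Φ q - L y‖ ≤ η) →
    ∃ L : EE 3 →ₗᵢ[ℝ] EE N, range G = L '' Metric.sphere (0 : EE 3) 1

/-- INJ (hPRJ : StPRJ)(hFVJ : StFVJ)(hSBJ : StSBJ)(hMUJ : StMUJ)(hI4J : StI4J). Double points (Li-Yau).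

Proof. As SIM (`Helper26/MS/M_SIM.lean`) with `h = 1`, `k = 0`: for `p ≠ q` with `F p t = F q t = y` take disjoint
neighbourhoods of `p` and `q`; each contributes `2π` to `liminf ∫ 2ε²/(s+ε²)²`, and the integral is
`≤ W/8`. -/
def StINJ : Prop := ∀ (N : ℕ) (M : Type) [TopologicalSpace M] [T2Space M] [CompactSpace M]
    [MeasurableSpace M] [BorelSpace M] [ChartedSpace (EE 2) M] [IsManifold (𝓡 2) ∞ M]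
    (J : Set ℝ) (F : M → ℝ → EE N) (c : ℕ → M) (χ : ℕ → M → ℝ), SetupJ 2 J F c χ → ∀ t ∈ J,
    wI F c χ t < 32 * Real.pi → Function.Injective (fun q => F q t)

/-! ### The two cases, complete -/

/-- FIT (hDAT : StDAT)(hTY3 : StTY3)(hFN2 : StFN2)(hLMF : StLMF)(hTRL : StTRL)(hMVW : StMVW)(hLMK : StLMK)
(hRND : StRND)(hLMS : StLMS)(hINJ : StINJ)(hSCL : StSCL)(hENE : StENE)(hMUJ)(hI4J). Finite time, in `ℝ^N`.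

Proof. TY3, FN2, LMF: rates and the point `x` (constants: the maximum, the smaller exponent). `G₀ = F - x` (TRL;
`Dat`). MVW, LMK: `(1/(2√τ))(F - x) → G` with `‖..‖ ≤ C(T-t)^{α/2}`. For `t` near `T` consider the frozen rescaled
family `Φ q _ = (1/(2√τ))•(F q t - x)` (`IsImmJ univ`; SCL): `HH Φ + 2Φ = 2√τ(H + (F-x)/(2τ))`, norm `2√(τu)`;
`θ_Φ = 4τθ`, `Y_Φ = 4τY`, area `A/(4τ) ≤ W/4 = 4π + e/4` (`muM` is divided by `4τ`: `sgm` is): RND, LMS.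
INJ: `W = 16π + e < 32π` near `T`. -/
def StFIT : Prop := ∀ (N : ℕ) (F : S2 → ℝ → EE N) (T : ℝ) (c : ℕ → S2) (χ : ℕ → S2 → ℝ)
    (δ : ℝ), Dat T F c χ δ → UnbT T F →
    ∃ (x : EE N) (G : S2 → EE N) (L : EE 3 →ₗᵢ[ℝ] EE N) (C α ts : ℝ), Continuous G ∧
      range G = L '' Metric.sphere (0 : EE 3) 1 ∧ 0 < C ∧ 0 < α ∧ ts ∈ Ioo 0 T ∧
      ∀ t ∈ Ico ts T, Function.Injective (fun q => F q t) ∧ ∀ q,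
        ‖(1 / (2 * Real.sqrt (T - t))) • (F q t - x) - G q‖ ≤ C * (T - t) ^ α ∧
        (T - t) * thF 2 F q t ≤ C * (T - t) ^ α ∧
        |(T - t) * YF F q t - 1| ≤ C * (T - t) ^ α

/-- FIN2 (hDAT : StDAT)(hFIT : StFIT)(hCNV : StCNV)(hCT0 : StCT0)(hHSQ : StHSQ). Finite time, complete, in the
sphere. As FIN, with FIT instead of TY3, LMF.

Proof. As FIN. In addition `F - x_S = FEs F/r - x/r_T = (1/r)(FEs F - x) + x(1/r - 1/r_T)`, `T_E - τ = r²m(u)`: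
`(1/(2√u))(1/r)(FEs F - x) = √(m(u)/u) (1/(2√(T_E-τ)))(FEs F - x)` and `(1/(2√u))‖x‖|1/r-1/r_T| ≤ C√u`. -/
def StFIN2 : Prop := ∀ (N : ℕ) (F : S2 → ℝ → EE N) (T : ℝ), 0 < T →
    SMCF 2 (Ico 0 T) F → Pinch3 2 F 0 →
    (∀ C : ℝ, ∃ t ∈ Ico 0 T, ∃ q, C < hS2 (n := 2) F q t) →
    ∃ (x : EE N) (G : S2 → EE N) (L : EE 3 →ₗᵢ[ℝ] EE N) (C α ts : ℝ), ‖x‖ = 1 ∧
      Continuous G ∧ range G = L '' Metric.sphere (0 : EE 3) 1 ∧ 0 < α ∧ ts ∈ Ico 0 T ∧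
      ∀ t ∈ Ico ts T, Function.Injective (fun q => F q t) ∧ ∀ q,
        ‖(1 / (2 * Real.sqrt (T - t))) • (F q t - x) - G q‖ ≤ C * (T - t) ^ α ∧
        (T - t) * (hS2 (n := 2) F q t - ‖HS (n := 2) F q t‖ ^ 2 / 2) ≤ C * (T - t) ^ α ∧
        |(T - t) * ‖HS (n := 2) F q t‖ ^ 2 - 1| ≤ C * (T - t) ^ α

/-- INF2 (hINF : StINF)(hDAT : StDAT)(hCNV : StCNV)(hCT0 : StCT0)(hHSQ : StHSQ)(hRND : StRND)(hLMS : StLMS)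
(hINJ : StINJ)(hIN1 : StIN1)(hSCL : StSCL)(hMUJ : StMUJ)(hI4J : StI4J). Infinite time, complete.

Proof. INF: the limit `G`. `HS = HH + 2F`, `‖HS‖² ≤ 2hS2 → 0`, `θ = 2AA - |HH|² = 2hS2 - |HS|² → 0`,
`Y - 4 = |HS|² → 0` (HSQ) for the frozen family at time `t`. Area of `M_t`: `arI` of `FEs F` at `τ` is `r²` times it
(`sgm` scales by `r²`), and IN1: `16π·r²/4 ≤ arI ≤ (16π + e)r²/4`, `e → 0`; so the area tends to `4π`. RND, LMS.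
INJ for `FEs F`: `wI = 16π + eI < 32π` for `τ` near `1/4`. -/
def StINF2 : Prop := ∀ (N : ℕ) (F : S2 → ℝ → EE N),
    SMCF 2 (Ici 0) F → Pinch3 2 F 0 →
    ∃ (G : S2 → EE N) (L : EE 3 →ₗᵢ[ℝ] EE N) (C α ts : ℝ), Continuous G ∧
      range G = L '' Metric.sphere (0 : EE 3) 1 ∧ 0 < α ∧
      (∀ t : ℝ, ts ≤ t → Function.Injective (fun q => F q t)) ∧ ∀ t : ℝ, 0 ≤ t → ∀ q,
      ‖F q t - G q‖ ≤ C * Real.exp (-α * t) ∧ hS2 (n := 2) F q t ≤ C * Real.exp (-α * t)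

/-! ### Surfaces diffeomorphic to the sphere -/

/-- DIF (hI1 : StI1)(hFR : StFR)(hNR : StNR). Invariance under diffeomorphisms.

Proof. `F' y t = F (Φ.symm y) t`. In the preferred charts at `y` and `q = Φ.symm y` the immersions differ by the
smooth transition map `φ = chart_q ∘ Φ.symm ∘ chart_y.symm`, `φ (chart y) = chart q`: I1 gives `mcv`, `nsq` equal;
`gram h = J (gram f∘φ) Jᵀ`, `sff h i j = ΣJ_iaJ_jb sff f a b` (as in StIA), so `sfs` transforms in the same way, and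
`HS`, `hS2` are equal, and for `Pinch3` replace `u` by `Σ_i u_iJ_ia`. Smoothness by composition. -/
def StDIF : Prop := ∀ (N : ℕ) (M : Type) [TopologicalSpace M] [ChartedSpace (EE 2) M]
    [IsManifold (𝓡 2) ∞ M] (Φ : M ≃ₘ⟮𝓡 2, 𝓡 2⟯ S2) (I : Set ℝ) (F : M → ℝ → EE N),
    SMCF 2 I F → ∀ F' : S2 → ℝ → EE N, F' = (fun y t => F (Φ.symm y) t) →
    SMCF 2 I F' ∧ (∀ t ∈ I, Pinch3 2 F t → Pinch3 2 F' t) ∧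
    ∀ q, ∀ t ∈ I, HS (n := 2) F' (Φ q) t = HS (n := 2) F q t ∧
      hS2 (n := 2) F' (Φ q) t = hS2 (n := 2) F q t

end Helper35.MS
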