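import Mathlib
import Pool.Agent.Helper35.MS.StF

/-!
Project MS (MP_925021_gt), module TY2: quantitative convergence to a shrinking sphere.
-/

set_option autoImplicit false

namespace Helper35.MS

open Helper35.PI Helper35.PI2 Helper32.CL
open scoped ContDiff Manifold Topology ENNReal BigOperators
open MeasureTheory Set Filter

private theorem numL {W x η : ℝ} (hη : 0 < η) (hη1 : η ≤ 1 / 2) (hW0 : 16 * Real.pi ≤ W)
    (hW : W ≤ 52) (he : W - 16 * Real.pi ≤ η ^ 16) (hx : x ≤ 5408 * η ^ 15) :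
    Real.sqrt ((W - 16 * Real.pi + 5 * Real.sqrt x) * (2 * W + 32 * Real.pi))
      ≤ 276 * η ^ 3 := by
  have hp1 := Real.pi_lt_d2
  have hη' : η ≤ 1 := by linarith
  have h1 : Real.sqrt x ≤ 74 * η ^ 7 := by
    rw [Real.sqrt_le_iff]
    refine ⟨by positivity, hx.trans ?_⟩
    have h : η ^ 15 ≤ η ^ 14 := pow_le_pow_of_le_one hη.le hη' (by norm_num)
    have e : (74 * η ^ 7) ^ 2 = 5476 * η ^ 14 := by ring
    rw [e]
    have : 0 ≤ η ^ 14 := by positivity
    linarith
  have h2 : W - 16 * Real.pi + 5 * Real.sqrt x ≤ 371 * η ^ 7 := by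
    have h : η ^ 16 ≤ η ^ 7 := pow_le_pow_of_le_one hη.le hη' (by norm_num)
    linarith
  have h3 : 2 * W + 32 * Real.pi ≤ 205 := by linarith
  have h4 : 0 ≤ 2 * W + 32 * Real.pi := by linarith [Real.pi_pos]
  rw [Real.sqrt_le_iff]
  refine ⟨by positivity, ?_⟩
  have h7 : η ^ 7 ≤ η ^ 6 := pow_le_pow_of_le_one hη.le hη' (by norm_num)
  have h6 : 0 ≤ η ^ 6 := by positivity
  calc (W - 16 * Real.pi + 5 * Real.sqrt x) * (2 * W + 32 * Real.pi)
      ≤ 371 * η ^ 7 * (2 * W + 32 * Real.pi) := mul_le_mul_of_nonneg_right h2 h4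
    _ ≤ 371 * η ^ 7 * 205 := mul_le_mul_of_nonneg_left h3 (by positivity)
    _ ≤ 76176 * η ^ 6 := by nlinarith
    _ = (276 * η ^ 3) ^ 2 := by ring

theorem hTY2 (hMVI : StMVI) (hPPV : StPPV) (hPOT : StPOT) (hENE : StENE) (hMUJ : StMUJ)
    (hLIN : StLIN) (hI4J : StI4J) : StTY2 := by
  intro N M _ _ _ _ _ _ _ _ _ T F c χ δ hD hA C ts hC hts he1 hYC
  have hp1 := Real.pi_lt_d2
  have hp2 := Real.pi_gt_three
  have hts0 := hts.1
  have htsT := hts.2
  have hImm : IsImmJ (n := 2) (Ioo 0 T) F := hD.su.mcf.toIsImmJ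
  obtain ⟨s0, -, hmu⟩ := hMUJ 2 N M (Ioo 0 T) F c χ hD.su.toJ
  have hFc := (hI4J 2 N M (Ioo 0 T) F hImm).1
  have hFcont : ∀ t ∈ Ioo 0 T, Continuous (fun q => F q t) := by
    intro t ht
    have h1 : ContinuousOn (fun q : M => ((q, t) : M × ℝ)) univ := by fun_prop
    have h2 := ContinuousOn.comp (t := univ ×ˢ Ioo 0 T) hFc h1
      (fun q _ => ⟨mem_univ _, ht⟩)
    exact continuousOn_univ.mp h2
  have hthc : ∀ t ∈ Ioo 0 T, Continuous (fun q => thF 2 F q t) := fun t ht =>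
    (hD.pi.eth.sm t ht).continuous
  have hYc : ∀ t ∈ Ioo 0 T, Continuous (fun q => YF F q t) := fun t ht =>
    (hD.pi.eY.sm t ht).continuous
  have hint : ∀ t ∈ Ioo 0 T, ∀ g : M → ℝ, Continuous g → Integrable g (muM 2 F c χ t) :=
    fun t ht g hg => ((hmu t ht).2.2 g hg).1
  have hY0 : ∀ t ∈ Ioo 0 T, ∀ q, 0 ≤ YF F q t := fun t ht q =>
    le_trans (by norm_num) (hD.pi.y4 q t ht)
  have e_nn : ∀ t ∈ Ioo 0 T, 0 ≤ eI F c χ t := by
    intro t ht
    exact integral_nonneg (fun q => hD.pi.th0 q t ht)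
  have d_nn : ∀ t ∈ Ioo 0 T, 0 ≤ dI F c χ t := by
    intro t ht
    exact integral_nonneg (fun q => hD.pi.g0 q t ht)
  have hder : ∀ x ∈ Ioo 0 T, HasDerivAt (eI F c χ) (-dI F c χ x) x := fun x hx =>
    (hENE N M (Ioo 0 T) F c χ hD.su x hx).2.1
  have hanti : ∀ s t : ℝ, 0 < s → s ≤ t → t < T → eI F c χ t ≤ eI F c χ s := by
    intro s t hs hst htT
    rcases hst.eq_or_lt with h | h
    · rw [h]
    · obtain ⟨r, hr, hmv⟩ := exists_hasDerivAt_eq_slope (eI F c χ) (fun x => -dI F c χ x)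
        (a := s) (b := t) h
        (fun x hx => (hder x ⟨by linarith [hx.1], by linarith [hx.2]⟩).continuousAt.continuousWithinAt)
        (fun x hx => hder x ⟨by linarith [hx.1], by linarith [hx.2]⟩)
      have h1 := d_nn r ⟨by linarith [hr.1], by linarith [hr.2]⟩
      rw [eq_div_iff (by linarith)] at hmv
      nlinarith
  refine ⟨8 * C ^ 2 + 80 + Real.exp (2 * C), by positivity, ?_⟩
  intro t0 ht0T htst0 q
  obtain ⟨τ, hτ⟩ : ∃ τ : ℝ, τ = T - t0 := ⟨_, rfl⟩
  rw [← hτ] at htst0 ⊢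
  have hτ0 : 0 < τ := by rw [hτ]; linarith
  have ht0J : t0 ∈ Ioo 0 T := ⟨by linarith, ht0T⟩
  have ht1J : T - 2 * τ ∈ Ioo 0 T := ⟨by linarith, by linarith⟩
  -- bounds on the interval
  have hYb : ∀ t ∈ Icc (T - 2 * τ) t0, ∀ p, YF F p t ≤ C / τ := by
    intro t ht p
    have h1 := hYC t ⟨by linarith [ht.1], by linarith [ht.2]⟩ p
    have h2 : τ ≤ T - t := by linarith [ht.2]
    have h3 : 0 ≤ YF F p t := hY0 t ⟨by linarith [ht.1], by linarith [ht.2]⟩ p
    rw [le_div_iff₀ hτ0]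
    nlinarith
  constructor
  · -- the estimate of θ
    have hIcc : Icc (T - 2 * τ) t0 ⊆ Ioo 0 T := fun x hx =>
      ⟨by linarith [hx.1], by linarith [hx.2]⟩
    have h1 := hMVI N M (Ioo 0 T) F c χ hD.su (thF 2 F) (2 * C / τ) (T - 2 * τ) t0 hD.pi.eth
      (by positivity) (by linarith) hIcc (fun p t ht => hD.pi.th0 p t (hIcc ht))
      (fun p t ht => by
        have a1 := hD.pi.hth p t (hIcc ht)
        have a2 := hD.pi.th0 p t (hIcc ht)
        have a3 := hYb t ht p
        have a4 : 2 * (YF F p t * thF 2 F p t) ≤ 2 * (C / τ * thF 2 F p t) := by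
          have := mul_le_mul_of_nonneg_right a3 a2
          linarith
        have a5 : 2 * (C / τ * thF 2 F p t) = 2 * C / τ * thF 2 F p t := by ring
        linarith) q
    have e1 : t0 - (T - 2 * τ) = τ := by rw [hτ]; ring
    rw [e1] at h1
    have e2 : 2 * C / τ * τ = 2 * C := by field_simp
    rw [e2] at h1
    have h2 : ∫ p, thF 2 F p (T - 2 * τ) * Real.exp (-(‖F p (T - 2 * τ) - F q t0‖ ^ 2 / (8 * τ)))
        ∂muM 2 F c χ (T - 2 * τ) ≤ eI F c χ (T - 2 * τ) := by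
      unfold eI
      apply integral_mono
      · apply hint _ ht1J
        have := hFcont _ ht1J
        have := hthc _ ht1J
        fun_prop
      · exact hint _ ht1J _ (hthc _ ht1J)
      · intro p
        have b1 := hD.pi.th0 p _ ht1J
        have b2 : Real.exp (-(‖F p (T - 2 * τ) - F q t0‖ ^ 2 / (8 * τ))) ≤ 1 := by
          rw [Real.exp_le_one_iff]
          have : 0 ≤ ‖F p (T - 2 * τ) - F q t0‖ ^ 2 / (8 * τ) := by positivity
          linarith
        exact mul_le_of_le_one_right b1 b2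
    have hE0 := e_nn _ ht1J
    have h3 : 0 ≤ 1 / 4 * Real.exp (2 * C) / τ := by positivity
    have h4 := h1.trans (mul_le_mul_of_nonneg_left h2 h3)
    have h5 : τ * thF 2 F q t0 ≤ τ * (1 / 4 * Real.exp (2 * C) / τ * eI F c χ (T - 2 * τ)) :=
      mul_le_mul_of_nonneg_left h4 hτ0.le
    have h6 : τ * (1 / 4 * Real.exp (2 * C) / τ * eI F c χ (T - 2 * τ))
        = 1 / 4 * Real.exp (2 * C) * eI F c χ (T - 2 * τ) := by field_simp
    rw [h6] at h5
    have h7 : 1 / 4 * Real.exp (2 * C) ≤ 8 * C ^ 2 + 80 + Real.exp (2 * C) := by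
      have := Real.exp_pos (2 * C)
      nlinarith [sq_nonneg C]
    exact h5.trans (mul_le_mul_of_nonneg_right h7 hE0)
  · intro η hη hη1 hE
    have hητ : 0 < η * τ := by positivity
    have hητ2 : 2 * (η * τ) ≤ τ := by nlinarith
    obtain ⟨t', ht', hmv⟩ := exists_hasDerivAt_eq_slope (eI F c χ) (fun x => -dI F c χ x)
      (a := t0 - 2 * (η * τ)) (b := t0 - η * τ) (by linarith)
      (fun x hx => (hder x ⟨by linarith [hx.1], by linarith [hx.2]⟩).continuousAt.continuousWithinAt)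
      (fun x hx => hder x ⟨by linarith [hx.1], by linarith [hx.2]⟩)
    have ht'1 := ht'.1
    have ht'2 := ht'.2
    have ht'J : t' ∈ Ioo 0 T := ⟨by linarith, by linarith⟩
    have hd0 : 0 ≤ dI F c χ t' := d_nn t' ht'J
    have hd1 : dI F c χ t' * (η * τ) ≤ η ^ 16 := by
      have h1 : t0 - η * τ - (t0 - 2 * (η * τ)) = η * τ := by ring
      rw [h1, eq_div_iff hητ.ne'] at hmv
      have h2 := e_nn (t0 - η * τ) ⟨by linarith, by linarith⟩
      have h3 := hanti (T - 2 * τ) (t0 - 2 * (η * τ)) ht1J.1 (by linarith) (by linarith)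
      linarith
    have he' : eI F c χ t' ≤ η ^ 16 :=
      (hanti (T - 2 * τ) t' ht1J.1 (by linarith) ht'J.2).trans hE
    have he0 := e_nn t' ht'J
    have hgb := hD.gb t' ht'J
    have hηle : η ^ 16 ≤ η := by
      calc η ^ 16 ≤ η ^ 1 := pow_le_pow_of_le_one hη.le (by linarith) (by norm_num)
        _ = η := pow_one η
    have hη3 : η ^ 16 ≤ η ^ 3 := pow_le_pow_of_le_one hη.le (by linarith) (by norm_num)
    have hW0 : 16 * Real.pi ≤ wI F c χ t' := by linarith
    have hW1 : wI F c χ t' ≤ 52 := by linarith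
    have hWe : wI F c χ t' - 16 * Real.pi ≤ η ^ 16 := by linarith
    obtain ⟨hA1, hA2⟩ := hA t' ht'J
    obtain ⟨hP1, hP2, -⟩ := hPOT N M (Ioo 0 T) F c χ δ hD.su hD.pi t' ht'J hW0
    obtain ⟨τ', hτ'⟩ : ∃ τ' : ℝ, τ' = T - t' := ⟨_, rfl⟩
    rw [← hτ'] at hA1 hA2
    have hτ'1 : τ ≤ τ' := by rw [hτ, hτ']; linarith
    have hτ'3 : τ' ≤ (1 + 2 * η) * τ := by
      have : τ' ≤ τ + 2 * (η * τ) := by rw [hτ']; linarith
      nlinarith
    have hτ'2 : τ' ≤ 2 * τ := by nlinarith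
    have hτ'0 : 0 < τ' := by linarith
    have hAup : arI F c χ t' ≤ 104 * τ := by
      calc arI F c χ t' ≤ wI F c χ t' * τ' := hA2
        _ ≤ 52 * (2 * τ) := mul_le_mul hW1 hτ'2 hτ'0.le (by norm_num)
        _ = 104 * τ := by ring
    have hWAd : wI F c χ t' * arI F c χ t' * dI F c χ t' ≤ 5408 * η ^ 15 := by
      have h1 : wI F c χ t' * arI F c χ t' ≤ 52 * (104 * τ) :=
        mul_le_mul hW1 hAup hP1.le (by norm_num)
      have h2 : wI F c χ t' * arI F c χ t' * dI F c χ t' ≤ 52 * (104 * τ) * dI F c χ t' :=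
        mul_le_mul_of_nonneg_right h1 hd0
      have h3 : dI F c χ t' * τ ≤ η ^ 15 := by
        have h4 : dI F c χ t' * τ * η ≤ η ^ 15 * η := by
          calc dI F c χ t' * τ * η = dI F c χ t' * (η * τ) := by ring
            _ ≤ η ^ 16 := hd1
            _ = η ^ 15 * η := by ring
        exact le_of_mul_le_mul_right h4 hη
      nlinarith
    have hL1 := hP2.trans (numL hη hη1 hW0 hW1 hWe hWAd)
    obtain ⟨l, hl⟩ : ∃ l : ℝ, l = 16 * Real.pi / arI F c χ t' := ⟨_, rfl⟩
    rw [← hl] at hL1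
    have hl1 : τ * l ≤ 1 := by
      rw [hl, ← mul_div_assoc, div_le_one hP1]
      nlinarith
    have hl2 : 1 - 3 * η ≤ τ * l := by
      rw [hl, ← mul_div_assoc, le_div_iff₀ hP1]
      have h1 : arI F c χ t' ≤ 16 * Real.pi * (1 + η) * ((1 + 2 * η) * τ) := by
        refine hA2.trans (mul_le_mul ?_ hτ'3 hτ'0.le (by positivity))
        nlinarith
      rcases le_or_gt (1 - 3 * η) 0 with h2 | h2
      · have : (1 - 3 * η) * arI F c χ t' ≤ 0 := mul_nonpos_of_nonpos_of_nonneg h2 hP1.le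
        have : 0 < τ * (16 * Real.pi) := by positivity
        linarith
      · have h3 := mul_le_mul_of_nonneg_left h1 h2.le
        refine h3.trans ?_
        have h4 : (1 - 3 * η) * ((1 + η) * (1 + 2 * η)) ≤ 1 := by nlinarith [sq_nonneg η, pow_pos hη 3]
        have h5 : 0 < 16 * Real.pi * τ := by positivity
        calc (1 - 3 * η) * (16 * Real.pi * (1 + η) * ((1 + 2 * η) * τ))
            = (1 - 3 * η) * ((1 + η) * (1 + 2 * η)) * (16 * Real.pi * τ) := by ring
          _ ≤ 1 * (16 * Real.pi * τ) := mul_le_mul_of_nonneg_right h4 h5.le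
          _ = τ * (16 * Real.pi) := by ring
    have hIcc : Icc t' t0 ⊆ Ioo 0 T := fun x hx => ⟨by linarith [hx.1, ht'J.1], by linarith [hx.2]⟩
    have hd : η * τ ≤ t0 - t' ∧ t0 - t' ≤ 2 * (η * τ) := ⟨by linarith, by linarith⟩
    have hdp : 0 < t0 - t' := by linarith
    have hco : 1 / 4 / (t0 - t') ≤ 1 / 4 / (η * τ) :=
      div_le_div_of_nonneg_left (by norm_num) hητ hd.1
    have hYb' : ∀ t ∈ Icc t' t0, ∀ p, YF F p t ≤ C / τ := fun t ht p =>
      hYb t ⟨by linarith [ht.1], ht.2⟩ p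
    have hCτ : 0 ≤ C / τ := by positivity
    have hYsq : ∀ t ∈ Icc t' t0, ∀ p, YF F p t ^ 2 ≤ C ^ 2 / τ ^ 2 := by
      intro t ht p
      have h1 := pow_le_pow_left₀ (hY0 t (hIcc ht) p) (hYb' t ht p) 2
      rwa [div_pow] at h1
    have hYθ : ∀ t ∈ Icc t' t0, ∀ p, YF F p t * thF 2 F p t ≤ YF F p t ^ 2 := by
      intro t ht p
      have h1 := hD.pi.th1 p t (hIcc ht)
      have h2 := hY0 t (hIcc ht) p
      nlinarith
    have hYcont' : Continuous (fun p => |YF F p t' - l|) := by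
      have := hYc t' ht'J
      fun_prop
    have hiabs := hint t' ht'J _ hYcont'
    -- upper bound
    have hup := hPPV N M (Ioo 0 T) F c χ hD.su (YF F) (2 * (C ^ 2 / τ ^ 2)) l t' t0 hD.pi.eY
      (by linarith) hIcc (fun p t ht => by
        have h1 := hD.pi.hY p t (hIcc ht)
        have h2 := hYsq t ht p
        have h3 := hYθ t ht p
        linarith) q
    have hlo := by
      obtain ⟨hv1, hv2⟩ := hLIN N M (Ioo 0 T) F hImm
        (fun q t => YF F q t - 2 * thF 2 F q t) (YF F) (-1) 0 hD.pi.emx hD.pi.eY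
      exact hPPV N M (Ioo 0 T) F c χ hD.su
        (fun q t => (-1) * (YF F q t - 2 * thF 2 F q t) + 0 * YF F q t)
        (4 * (C ^ 2 / τ ^ 2)) (-l) t' t0 hv1 (by linarith) hIcc (fun p t ht => by
          rw [(hv2 p t (hIcc ht)).2]
          have h1 := hD.pi.hmx p t (hIcc ht)
          have h2 := hYsq t ht p
          have h3 := hYθ t ht p
          have h4 := sq_nonneg (YF F p t)
          linarith) q
    have hi1 : ∫ p, max 0 (YF F p t' - l) ∂muM 2 F c χ t' ≤ 276 * η ^ 3 := by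
      refine le_trans (integral_mono ?_ hiabs ?_) hL1
      · apply hint _ ht'J
        have := hYc t' ht'J
        fun_prop
      · intro p
        exact max_le (abs_nonneg _) (le_abs_self _)
    have hi2 : ∫ p, max 0 ((-1) * (YF F p t' - 2 * thF 2 F p t') + 0 * YF F p t' - (-l))
        ∂muM 2 F c χ t' ≤ 278 * η ^ 3 := by
      have h1 : ∫ p, max 0 ((-1) * (YF F p t' - 2 * thF 2 F p t') + 0 * YF F p t' - (-l))
          ∂muM 2 F c χ t' ≤ ∫ p, (2 * thF 2 F p t' + |YF F p t' - l|) ∂muM 2 F c χ t' := by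
        apply integral_mono
        · apply hint _ ht'J
          have := hYc t' ht'J
          have := hthc t' ht'J
          fun_prop
        · apply hint _ ht'J
          have := hYc t' ht'J
          have := hthc t' ht'J
          fun_prop
        · intro p
          have b1 := hD.pi.th0 p t' ht'J
          have b2 := neg_abs_le (YF F p t' - l)
          have b3 := abs_nonneg (YF F p t' - l)
          exact max_le (by positivity) (by linarith)
      have h2 : ∫ p, (2 * thF 2 F p t' + |YF F p t' - l|) ∂muM 2 F c χ t'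
          = 2 * eI F c χ t' + ∫ p, |YF F p t' - l| ∂muM 2 F c χ t' := by
        unfold eI
        rw [integral_add _ hiabs, integral_const_mul]
        apply hint _ ht'J
        have := hthc t' ht'J
        fun_prop
      rw [h2] at h1
      linarith
    have hco0 : 0 ≤ 1 / 4 / (t0 - t') := by positivity
    have hτ2 : C ^ 2 / τ ^ 2 * (η * τ) = C ^ 2 * η / τ := by field_simp
    have hC2 : 0 ≤ C ^ 2 / τ ^ 2 := by positivity
    have hup2 : YF F q t0 ≤ l + 4 * (C ^ 2 * η / τ) + 69 * η ^ 2 / τ := by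
      have h1 : 2 * (C ^ 2 / τ ^ 2) * (t0 - t') ≤ 4 * (C ^ 2 * η / τ) := by
        rw [← hτ2]
        have := mul_le_mul_of_nonneg_left hd.2 hC2
        linarith
      have h2 : 1 / 4 / (t0 - t') * ∫ p, max 0 (YF F p t' - l) ∂muM 2 F c χ t'
          ≤ 69 * η ^ 2 / τ := by
        calc 1 / 4 / (t0 - t') * ∫ p, max 0 (YF F p t' - l) ∂muM 2 F c χ t'
            ≤ 1 / 4 / (t0 - t') * (276 * η ^ 3) := mul_le_mul_of_nonneg_left hi1 hco0
          _ ≤ 1 / 4 / (η * τ) * (276 * η ^ 3) := mul_le_mul_of_nonneg_right hco (by positivity)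
          _ = 69 * η ^ 2 / τ := by field_simp; ring
      linarith
    have hlo2 : -YF F q t0 ≤ -l + 8 * (C ^ 2 * η / τ) + 139 / 2 * η ^ 2 / τ := by
      have h0 := hD.pi.th0 q t0 ht0J
      have h1 : 4 * (C ^ 2 / τ ^ 2) * (t0 - t') ≤ 8 * (C ^ 2 * η / τ) := by
        rw [← hτ2]
        have := mul_le_mul_of_nonneg_left hd.2 hC2
        linarith
      have h2 : 1 / 4 / (t0 - t') * ∫ p, max 0 ((-1) * (YF F p t' - 2 * thF 2 F p t')
          + 0 * YF F p t' - (-l)) ∂muM 2 F c χ t' ≤ 139 / 2 * η ^ 2 / τ := by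
        calc 1 / 4 / (t0 - t') * ∫ p, max 0 ((-1) * (YF F p t' - 2 * thF 2 F p t')
              + 0 * YF F p t' - (-l)) ∂muM 2 F c χ t'
            ≤ 1 / 4 / (t0 - t') * (278 * η ^ 3) := mul_le_mul_of_nonneg_left hi2 hco0
          _ ≤ 1 / 4 / (η * τ) * (278 * η ^ 3) := mul_le_mul_of_nonneg_right hco (by positivity)
          _ = 139 / 2 * η ^ 2 / τ := by field_simp; ring
      linarith
    have hexp := Real.exp_pos (2 * C)
    have hη2 : η ^ 2 ≤ η := by nlinarith
    have hC3 : 0 ≤ C ^ 2 * η := by positivity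
    rw [abs_le]
    constructor
    · have h1 : τ * (-YF F q t0) ≤ τ * (-l + 8 * (C ^ 2 * η / τ) + 139 / 2 * η ^ 2 / τ) :=
        mul_le_mul_of_nonneg_left hlo2 hτ0.le
      have h2 : τ * (-l + 8 * (C ^ 2 * η / τ) + 139 / 2 * η ^ 2 / τ)
          = -(τ * l) + 8 * (C ^ 2 * η) + 139 / 2 * η ^ 2 := by field_simp
      rw [h2] at h1
      nlinarith
    · have h1 : τ * YF F q t0 ≤ τ * (l + 4 * (C ^ 2 * η / τ) + 69 * η ^ 2 / τ) :=
        mul_le_mul_of_nonneg_left hup2 hτ0.le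
      have h2 : τ * (l + 4 * (C ^ 2 * η / τ) + 69 * η ^ 2 / τ)
          = τ * l + 4 * (C ^ 2 * η) + 69 * η ^ 2 := by field_simp
      rw [h2] at h1
      nlinarith

end Helper35.MS
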