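import Pool.Agent.Helper35.CL.All
import Pool.Agent.Helper89.MS.M_SPH
import Pool.Agent.Helper25.MS.M_JID
import Pool.Agent.Helper94.MS.M_PJ1
import Pool.Agent.Helper2.MS.M_CE0
import Pool.Agent.Helper67.MS.M_PJ2
import Pool.Agent.Helper10.MS.M_CE1
import Pool.Agent.Helper34.MS.M_CE2
import Pool.Agent.Helper40.MS.M_AV1
import Pool.Agent.Helper82.MS.M_AV2
import Pool.Agent.Helper2.MS.M_CE3
import Pool.Agent.Helper97.MS.M_AV3
import Pool.Agent.Helper8.MS.M_AIM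
import Pool.Agent.Helper42.MS.M_AV4
import Pool.Agent.Helper51.MS.M_BLR
import Pool.Agent.Helper51.MS.M_I2J
import Pool.Agent.Helper51.MS.M_I3J
import Pool.Agent.Helper93.MS.M_SGJ
import Pool.Agent.Helper10.MS.M_LTJ
import Pool.Agent.Helper28.MS.M_MUJ
import Pool.Agent.Helper51.MS.M_I4J
import Pool.Agent.Helper80.MS.M_TDJ
import Pool.Agent.Helper51.MS.M_V4J
import Pool.Agent.Helper51.MS.M_V6aJ
import Pool.Agent.Helper76.MS.M_V6J
import Pool.Agent.Helper51.MS.M_FVJ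
import Pool.Agent.Helper51.MS.M_MAJ
import Pool.Agent.Helper12.MS.M_MLJ
import Pool.Agent.Helper76.MS.M_MDJ
import Pool.Agent.Helper36.MS.M_ENJ
import Pool.Agent.Helper81.MS.M_ENE
import Pool.Agent.Helper76.MS.M_PRJ
import Pool.Agent.Helper75.MS.M_EVC
import Pool.Agent.Helper47.MS.M_LEV
import Pool.Agent.Helper76.MS.M_HUK
import Pool.Agent.Helper97.MS.M_SBJ
import Pool.Agent.Helper87.MS.M_MVI
import Pool.Agent.Helper84.MS.M_GAU
import Pool.Agent.Helper99.MS.M_EPS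
import Pool.Agent.Helper16.MS.M_BLW
import Pool.Agent.Helper51.MS.M_FSJ
import Pool.Agent.Helper12.MS.M_BRJ
import Pool.Agent.Helper51.MS.M_C4J
import Pool.Agent.Helper26.MS.M_SIM
import Pool.Agent.Helper64.MS.M_HAR
import Pool.Agent.Helper82.MS.M_SIA
import Pool.Agent.Helper18.MS.M_CAP
import Pool.Agent.Helper26.MS.M_SCL
import Pool.Agent.Helper2.MS.M_HSQ
import Pool.Agent.Helper78.MS.M_CT0
import Pool.Agent.Helper72.MS.M_CNV
import Pool.Agent.Helper32.MS.M_SJ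
import Pool.Agent.Helper93.MS.M_INI
import Pool.Agent.Helper16.MS.M_INC
import Pool.Agent.Helper36.MS.M_MPX
import Pool.Agent.Helper38.MS.M_MPT
import Pool.Agent.Helper30.MS.M_PRE
import Pool.Agent.Helper89.MS.M_MDS
import Pool.Agent.Helper66.MS.M_EVB
import Pool.Agent.Helper75.MS.M_PKG
import Pool.Agent.Helper21.MS.M_GLA
import Pool.Agent.Helper99.MS.M_GSM
import Pool.Agent.Helper30.MS.M_GLD
import Pool.Agent.Helper87.MS.M_GLF
import Pool.Agent.Helper95.MS.M_GLO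
import Pool.Agent.Helper72.MS.M_GIB
import Pool.Agent.Helper60.MS.M_GMA
import Pool.Agent.Helper89.MS.M_GKD
import Pool.Agent.Helper32.MS.M_GPA
import Pool.Agent.Helper29.MS.M_GEM
import Pool.Agent.Helper42.MS.M_GRS
import Pool.Agent.Helper28.MS.M_GRA
import Pool.Agent.Helper44.MS.M_GBF
import Pool.Agent.Helper95.MS.M_DAT
import Pool.Agent.Helper24.MS.M_DIF
import Pool.Agent.Helper12.MS.M_LDJ
import Pool.Agent.Helper41.MS.M_DMJ
import Pool.Agent.Helper8.MS.M_LVL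
import Pool.Agent.Helper6.MS.M_FN1
import Pool.Agent.Helper60.MS.M_FN2
import Pool.Agent.Helper6.MS.M_TI
import Pool.Agent.Helper32.MS.M_POI
import Pool.Agent.Helper37.MS.M_POT
import Pool.Agent.Helper29.MS.M_TY1
import Pool.Agent.Helper45.MS.M_PPV
import Pool.Agent.Helper28.MS.M_LIN
import Pool.Agent.Helper35.MS.M_TY2
import Pool.Agent.Helper22.MS.M_TY3
import Pool.Agent.Helper42.MS.M_LMF
import Pool.Agent.Helper7.MS.M_FIN
import Pool.Agent.Helper9.MS.M_TRL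
import Pool.Agent.Helper27.MS.M_QFE
import Pool.Agent.Helper99.MS.M_LNT
import Pool.Agent.Helper29.MS.M_WIN
import Pool.Agent.Helper38.MS.M_MVW
import Pool.Agent.Helper31.MS.M_LMK
import Pool.Agent.Helper42.MS.M_GRE
import Pool.Agent.Helper3.MS.M_OSC
import Pool.Agent.Helper26.MS.M_RND
import Pool.Agent.Helper31.MS.M_LMS
import Pool.Agent.Helper94.MS.M_INJ
import Pool.Agent.Helper10.MS.M_FIT
import Pool.Agent.Helper31.MS.M_FIN2
import Pool.Agent.Helper31.MS.M_IN1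
import Pool.Agent.Helper31.MS.M_IN2
import Pool.Agent.Helper40.MS.M_IN3
import Pool.Agent.Helper5.MS.M_INF
import Pool.Agent.Helper76.MS.M_INF2

/-!
Project MS (MP_925021_gt): assembly of the modules.
-/

set_option autoImplicit false

namespace Helper35.MS

open Helper35.PI Helper35.PI.All Helper35.PI2 Helper35.PI2.All Helper32.CL
open Pool.Agent.Helper35.CL Pool.Agent.Helper35.CL.All

theorem jSPH : StSPH := Pool.Agent.Helper89.MS.hSPH tG1 tG2 tSM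
theorem jJID : StJID := Helper25.MS.hJID 
theorem jPJ1 : StPJ1 := Helper94.MS.hPJ1 tG7 tG8 tG9 tJA tJB
theorem jCE0 : StCE0 := Helper2.MS.hCE0 
theorem jPJ2 : StPJ2 := Helper67.MS.hPJ2 jCE0 tJA tJB
theorem jCE1 : StCE1 := Helper10.MS.hCE1 
theorem jCE2 : StCE2 := Pool.Agent.Helper34.MS.hCE2 
theorem jAV1 : StAV1 := Helper40.MS.hAV1 
theorem jAV2 : StAV2 := Helper82.MS.hAV2 jCE0 jCE1 jCE2 jAV1
theorem jCE3 : StCE3 := Helper2.MS.hCE3 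
theorem jAV3 : StAV3 := Pool.Agent.Helper97.MS.hAV3 jCE0 jCE3 jAV1
theorem jAIM : StAIM := Helper8.MS.hAIM jSPH jJID jPJ1 jPJ2 jAV2 jAV3 tG1 jCE0
theorem jAV4 : StAV4 := Helper42.MS.hAV4 jAV1 jCE0
theorem jBLR : StBLR := Pool.Agent.Helper51.MS.hBLR 
theorem jI2J : StI2J := Pool.Agent.Helper51.MS.hI2J 
theorem jI3J : StI3J := Pool.Agent.Helper51.MS.hI3J tI1 jI2J
theorem jSGJ : StSGJ := Helper93.MS.hSGJ tV1 jI2J jI3J
theorem jLTJ : StLTJ := Helper10.MS.hLTJ jSGJ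
theorem jMUJ : StMUJ := Pool.Agent.Helper28.MS.hMUJ jSGJ jLTJ tLL
theorem jI4J : StI4J := Pool.Agent.Helper51.MS.hI4J tSM jI2J jI3J
theorem jTDJ : StTDJ := Pool.Agent.Helper80.MS.hTDJ jMUJ Helper35.PI2.hFU tV1 jSGJ jI2J jI3J jI4J
theorem jV4J : StV4J := Pool.Agent.Helper51.MS.hV4J jI2J jI3J
theorem jV6aJ : StV6aJ := Pool.Agent.Helper51.MS.hV6aJ jI2J jI3J
theorem jV6J : StV6J := Helper76.MS.hV6J tSM tV3 jV4J jV6aJ jI2J jI3J
theorem jFVJ : StFVJ := Pool.Agent.Helper51.MS.hFVJ jMUJ jV6J jV6aJ tSM jI2J jI3J jI4J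
theorem jMAJ : StMAJ := Pool.Agent.Helper51.MS.hMAJ tIS tIB jI2J jI3J
theorem jMLJ : StMLJ := Helper12.MS.hMLJ tSS tIV jI2J jI3J jI4J tNR
theorem jMDJ : StMDJ := Helper76.MS.hMDJ tGC jMLJ tIV tSS tWJ tGV jMAJ tMT tIB tC1 Helper95.PI.hC2 tC3 tSM tI1 jI2J jI3J tG1 tG2 tG7 tG9 tGH tNR
theorem jENJ : StENJ := Helper36.MS.hENJ jMDJ jMLJ tGI jMAJ jTDJ jFVJ jMUJ
theorem jENE : StENE := Helper81.MS.hENE jTDJ jFVJ jMUJ jMAJ jMLJ jENJ jI4J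
theorem jPRJ : StPRJ := Helper76.MS.hPRJ tNR tFR
theorem jEVC : StEVC := Helper75.MS.hEVC jPRJ
theorem jLEV : StLEV := Helper47.MS.hLEV jENE jEVC jTDJ jFVJ jPRJ jMUJ
theorem jHUK : StHUK := Helper76.MS.hHUK jPRJ jFVJ jTDJ jMUJ jI4J
theorem jSBJ : StSBJ := Pool.Agent.Helper97.MS.hSBJ jMUJ jV4J tV1 jI2J jI3J tFR
theorem jMVI : StMVI := Helper87.MS.hMVI jHUK jSBJ jMUJ jFVJ
theorem jGAU : StGAU := Helper84.MS.hGAU jPRJ jFVJ jMUJ jI4J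
theorem jEPS : StEPS := Helper99.MS.hEPS jMVI jGAU jMUJ
theorem jBLW : StBLW := Helper16.MS.hBLW jLEV jEPS jENE jMUJ
theorem jFSJ : StFSJ := Pool.Agent.Helper51.MS.hFSJ jMUJ jSGJ jI2J jI3J tV1
theorem jBRJ : StBRJ := Helper12.MS.hBRJ jPRJ jTDJ jFVJ jFSJ jI4J jMUJ
theorem jC4J : StC4J := Pool.Agent.Helper51.MS.hC4J tSM jI2J jI3J tC1 Helper95.PI.hC2 tC3
theorem jSIM : StSIM := Helper26.MS.hSIM jPRJ jFVJ jSBJ jMUJ jI4J
theorem jHAR : StHAR := Pool.Agent.Helper64.MS.hHAR jPRJ jFVJ jMUJ jI4J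
theorem jSIA : StSIA := Helper82.MS.hSIA jSIM jHAR jMUJ jI4J
theorem jCAP : StCAP := Helper18.MS.hCAP jSIA jPRJ jMUJ jENE jI4J
theorem jSCL : StSCL := Helper26.MS.hSCL 
theorem jHSQ : StHSQ := Helper2.MS.hHSQ tFR tNR jI2J
theorem jCT0 : StCT0 := Helper78.MS.hCT0 jI3J jI2J tFR
theorem jCNV : StCNV := Helper72.MS.hCNV jSCL jHSQ jCT0
theorem jSJ : StSJ := Helper32.MS.hSJ tFR jI3J tNR jI2J
theorem jINI : StINI := Helper93.MS.hINI jCE0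
theorem jINC : StINC := Helper16.MS.hINC jSJ jINI jCT0 jCE0
theorem jMPX : StMPX := Helper36.MS.hMPX jC4J jAIM tMP
theorem jMPT : StMPT := Helper38.MS.hMPT jMPX
theorem jPRE : StPRE := Helper30.MS.hPRE jCNV jCT0 jMPT jCE0 jHSQ
theorem jMDS : StMDS := Pool.Agent.Helper89.MS.hMDS tGC jMLJ tIV tSS tWJ tGV jMAJ tMT tIB tC1 Helper95.PI.hC2 tC3 tSM tI1 jI2J jI3J tG1 tG2 tG7 tG9 tGH tNR
theorem jEVB : StEVB := Helper66.MS.hEVB jMLJ
theorem jPKG : StPKG := Helper75.MS.hPKG jMDS jSPH jAV4 jEVB Helper13.PI.hT3 tPE jMLJ jJID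
theorem jGLA : StGLA := Helper21.MS.hGLA tFR tNR
theorem jGSM : StGSM := Helper99.MS.hGSM tSM tFR tNR
theorem jGLD : StGLD := Helper30.MS.hGLD jGSM tV2 tFR tNR tV1 tSM
theorem jGLF : StGLF := Helper87.MS.hGLF tSM tNR tFR tV1
theorem jGLO : StGLO := Helper95.MS.hGLO jGLA jGLD jGLF tSM tFR
theorem jGIB : StGIB := Helper72.MS.hGIB jGSM tI1 tFR tNR tSM
theorem jGMA : StGMA := Helper60.MS.hGMA jGSM jGIB jI2J jI3J jV6aJ
theorem jGKD : StGKD := Helper89.MS.hGKD jGLO jGMA jMUJ jFVJ jI2J jI3J jI4J Helper35.PI2.hFU jSGJ tSM tV1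
theorem jGPA : StGPA := Helper32.MS.hGPA 
theorem jGEM : StGEM := Helper29.MS.hGEM 
theorem jGRS : StGRS := Helper42.MS.hGRS tNR tFR
theorem jGRA : StGRA := Helper28.MS.hGRA jGRS jMUJ jV4J jSGJ
theorem jGBF : StGBF := Helper44.MS.hGBF jGKD jGPA jGEM jGRS jGRA jMUJ
theorem jDAT : StDAT := Helper95.MS.hDAT jCNV jCT0 jINC jPRE jPKG jGBF tV5 jMUJ jI4J
theorem jDIF : StDIF := Helper24.MS.hDIF tI1 tFR tNR
theorem jLDJ : StLDJ := Helper12.MS.hLDJ jPRJ jFVJ jMUJ jI4J jSBJ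
theorem jDMJ : StDMJ := Pool.Agent.Helper41.MS.hDMJ jLDJ jMUJ jI4J
theorem jLVL : StLVL := Helper8.MS.hLVL jMUJ jI4J
theorem jFN1 : StFN1 := Pool.Agent.Helper6.MS.hFN1 jCAP jLVL jBLR jMUJ jI4J jENE
theorem jFN2 : StFN2 := Helper60.MS.hFN2 jBLW jFN1 jENE jMUJ
theorem jTI : StTI := Pool.Agent.Helper6.MS.hTI jLEV jEPS jENE jMUJ
theorem jPOI : StPOI := Helper32.MS.hPOI jSIA jPRJ jMUJ jENE jI4J jFSJ
theorem jPOT : StPOT := Helper37.MS.hPOT jPOI jMUJ jI4J jENE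
theorem jTY1 : StTY1 := Helper29.MS.hTY1 jTI jPOT jENE jMUJ
theorem jPPV : StPPV := Helper45.MS.hPPV jMVI jEVC jMUJ
theorem jLIN : StLIN := Helper28.MS.hLIN 
theorem jTY2 : StTY2 := hTY2 jMVI jPPV jPOT jENE jMUJ jLIN jI4J
theorem jTY3 : StTY3 := Helper22.MS.hTY3 jFN2 jTY1 jTY2 jENE jMUJ
theorem jLMF : StLMF := Helper42.MS.hLMF jDMJ jMUJ
theorem jFIN : StFIN := Helper7.MS.hFIN jDAT jTY3 jLMF jCNV jCT0 jHSQ
theorem jTRL : StTRL := Helper9.MS.hTRL 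
theorem jQFE : StQFE := Helper27.MS.hQFE jMLJ jMDJ jPRJ jLIN jI4J jI2J
theorem jLNT : StLNT := Helper99.MS.hLNT 
theorem jWIN : StWIN := Helper29.MS.hWIN jQFE jLNT jLIN
theorem jMVW : StMVW := Helper38.MS.hMVW jWIN jMVI jPRJ jFVJ jMUJ jI4J jEVC
theorem jLMK : StLMK := Helper31.MS.hLMK 
theorem jGRE : StGRE := Helper42.MS.GRE.hGRE tFR tNR jI2J jI3J tSM
theorem jOSC : StOSC := Helper3.MS.hOSC jSIM jHAR jMUJ jI4J
theorem jRND : StRND := Helper26.MS.hRND jGRE jOSC jFVJ jMUJ jI4J tNR jSIM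
theorem jLMS : StLMS := Helper31.MS.hLMS 
theorem jINJ : StINJ := Helper94.MS.hINJ jPRJ jFVJ jSBJ jMUJ jI4J
theorem jFIT : StFIT := Helper10.MS.hFIT jTY3 jFN2 jLMF jTRL jMVW jLMK jRND jLMS jINJ jSCL
theorem jFIN2 : StFIN2 := Helper31.MS.hFIN2 jDAT jFIT jCNV jCT0 jHSQ
theorem jIN1 : StIN1 := Helper31.MS.hIN1 jENE jMUJ
theorem jIN2 : StIN2 := Helper31.MS.hIN2 jIN1 jTI jMUJ
theorem jIN3 : StIN3 := Helper40.MS.hIN3 jIN1 jIN2 jMVI jEVC jLIN jMUJ jENE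
theorem jINF : StINF := Helper5.MS.hINF jDAT jIN3 jCNV jCT0 jHSQ
theorem jINF2 : StINF2 := Helper76.MS.hINF2 jINF jDAT jCNV jCT0 jHSQ jRND jLMS jINJ jIN1 jSCL jMUJ jI4J

end Helper35.MS
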