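import Pool.Agent.Helper35.MS.StH

/-!
Project MS (MP_925021_gt): a curvature inequality which holds at all times.
-/

set_option autoImplicit false

namespace Helper35.MS

open Helper35.PI Helper35.PI2 Helper32.CL
open scoped ContDiff Manifold Topology ENNReal BigOperators
open MeasureTheory Set Filter

/-- a consequence of the preserved pinching -/
def StPOS : Prop := ∀ (N : ℕ) (M : Type) [TopologicalSpace M] [CompactSpace M]
    [ChartedSpace (EE 2) M] [IsManifold (𝓡 2) ∞ M] (F : M → ℝ → EE N) (TE : ℝ), 0 < TE →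
    TE ≤ 1 / 4 → UniqueDiffOn ℝ (IS TE) → SMCF 2 (IS TE) F → Pinch3 2 F 0 →
    ∀ t ∈ IS TE, ∀ q, hS2 (n := 2) F q t < 13 / 20 * ‖HS (n := 2) F q t‖ ^ 2 + 4 / 3

theorem tmS_sgT (t : ℝ) : tmS (sgT t) = t := by
  unfold tmS sgT
  rw [show 1 - 4 * ((1 - Real.exp (-4 * t)) / 4) = Real.exp (-4 * t) by ring, Real.log_exp]
  ring

theorem sgT_nonneg {t : ℝ} (ht : 0 ≤ t) : 0 ≤ sgT t := by
  unfold sgT
  have : Real.exp (-4 * t) ≤ 1 := Real.exp_le_one_iff.mpr (by linarith)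
  linarith

theorem hPOS (hCNV : StCNV) (hCT0 : StCT0) (hINC : StINC) (hPRE : StPRE) (hHSQ : StHSQ)
    (hCE0 : StCE0) : StPOS := by
  intro N M _ _ _ _ F TE h0 h4 hU hF hP t ht q
  have hz : (0 : ℝ) ∈ IS TE := ⟨le_rfl, by unfold sgT; simpa using h0⟩
  obtain ⟨ε, hε, hε', hph⟩ := hINC N M (IS TE) F hU hz hF hP
  have hτ : sgT t ∈ Ico 0 TE := ⟨sgT_nonneg ht.1, ht.2⟩
  have h1 := hPRE N M F TE h0 h4 hF ε hε hε' hph q (sgT t) hτ
  obtain ⟨-, h2⟩ := hCNV N M F TE h0 h4 hF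
  obtain ⟨-, -, h3⟩ := h2 (sgT t) hτ
  obtain ⟨-, hH, hA, -⟩ := h3 q
  rw [tmS_sgT] at hH hA
  obtain ⟨hI, hE⟩ := (hCT0 N M (IS TE) F hF).1 t ht
  obtain ⟨e1, e2, -, e4, e5⟩ := hE q 0
  obtain ⟨-, -, g3, g4, g5, g6⟩ := hHSQ N M univ (fun q _ => F q t) hI 0 (mem_univ _)
    (fun q => hF.sph q t ht) q
  rw [e1, e4] at g3
  rw [e2, e5] at g4
  have hr : 0 < 1 - 4 * sgT t := by
    have := hτ.2; linarith
  have hx : xS (FEs F) q (sgT t) = ‖HS (n := 2) F q t‖ ^ 2 / 4 := by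
    unfold xS
    rw [hH, norm_smul, mul_pow, g3, Real.norm_eq_abs, sq_abs, div_pow, one_pow,
      Real.sq_sqrt hr.le]
    field_simp
  have hs : sS (FEs F) q (sgT t) = (2 * hS2 (n := 2) F q t - ‖HS (n := 2) F q t‖ ^ 2) / 4 := by
    unfold sS
    rw [hH, norm_smul, mul_pow, g3, g4, hA, Real.norm_eq_abs, sq_abs, div_pow, one_pow,
      Real.sq_sqrt hr.le]
    field_simp
    ring
  have hx0 : 0 ≤ xS (FEs F) q (sgT t) := by rw [hx]; positivity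
  obtain ⟨c1, c2, -⟩ := hCE0.1 _ hx0
  have h5 : 0 ≤ gm0 (xS (FEs F) q (sgT t)) *
      Real.sqrt (vS (FEs F) q (sgT t) + ε ^ 2) := mul_nonneg c2.le (Real.sqrt_nonneg _)
  unfold PhF at h1
  rw [hs] at h1
  rw [hx] at h1 c1 h5
  nlinarith
end Helper35.MS
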